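import Pool.Agent.Lib.MP_64f491_lc.Blocks

/-! # Multi-digit arithmetic in base `N` -/

namespace Pool.Agent.Lib.MP_64f491_lc

set_option linter.unusedSectionVars false
set_option linter.unusedSimpArgs false
set_option linter.unnecessarySeqFocus false
set_option linter.constructorNameAsVariable false

open Function

variable {r k D : ℕ} {N : ℕ} {w : List Sym}

/-- The number with base-`N` digits in the listed counters. -/
def valL (N : ℕ) (σ : Vr r k D → ℕ) : List (Vr r k D) → ℕ
  | [] => 0
  | d :: ds => σ d + N * valL N σ ds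

theorem valL_congr (σ τ : Vr r k D → ℕ) (l : List (Vr r k D)) (h : ∀ d ∈ l, σ d = τ d) :
    valL N σ l = valL N τ l := by
  induction l with
  | nil => rfl
  | cons d ds ih =>
    simp only [List.mem_cons, forall_eq_or_imp] at h
    simp only [valL, h.1, ih h.2]

theorem valL_lt (σ : Vr r k D → ℕ) (l : List (Vr r k D)) (h : ∀ d ∈ l, σ d < N) :
    valL N σ l < N ^ l.length := by
  induction l with
  | nil => simp [valL]
  | cons d ds ih =>
    simp only [List.mem_cons, forall_eq_or_imp] at h
    have h1 := ih h.2
    have h2 := h.1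
    simp only [valL, List.length_cons, pow_succ]
    have h3 : valL N σ ds + 1 ≤ N ^ ds.length := h1
    calc σ d + N * valL N σ ds < N + N * valL N σ ds := by omega
      _ = N * (valL N σ ds + 1) := by ring
      _ ≤ N * N ^ ds.length := Nat.mul_le_mul_left _ h3
      _ = _ := by ring

/-- Add one. -/
def vincL : List (Vr r k D) → Cmd (Vr r k D) Fl
  | [] => .op .nop
  | d :: ds => blk [.op (.inc d), .op (.full d .f1),
      .ite (fun b => b .f1) (blk [.op (.zero d), vincL ds]) (.op .nop)]

theorem vincL_wv (l : List (Vr r k D)) {v : Vr r k D} (h : v ∉ l) : v ∉ (vincL l).wv := by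
  induction l with
  | nil => simp [vincL, Cmd.wv, Op.wv]
  | cons d ds ih =>
    simp only [List.mem_cons, not_or] at h
    simp [vincL, Cmd.wv, Op.wv, h.1, ih h.2]

theorem vincL_wb (l : List (Vr r k D)) {f : Fl} (h : f ≠ .f1) : f ∉ (vincL l).wb := by
  induction l with
  | nil => simp [vincL, Cmd.wb, Op.wb]
  | cons d ds ih =>
    simp [vincL, Cmd.wb, Op.wb, h, ih]

theorem vincL_deg (l : List (Vr r k D)) : (vincL l).deg ≤ 1 := by
  induction l with
  | nil => simp [vincL, Cmd.deg, Op.deg]
  | cons d ds ih => simp [vincL, Cmd.deg, Op.deg, ih]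

theorem vincL_WF (l : List (Vr r k D)) : (vincL l).WF := by
  induction l with
  | nil => simp [vincL, Cmd.WF, Op.WF]
  | cons d ds ih => simp [vincL, Cmd.WF, Op.WF, ih]

theorem vincL_spec (l : List (Vr r k D)) (hl : l.Nodup) (s : St (Vr r k D) Fl)
    (hok : s.ok N w) (hd : ∀ d ∈ l, s.v d < N) (hov : valL N s.v l + 1 < N ^ l.length) :
    (∀ d ∈ l, ((vincL l).exec N w s).v d < N) ∧
      valL N ((vincL l).exec N w s).v l = valL N s.v l + 1 := by
  induction l generalizing s with
  | nil => simp [valL] at hov
  | cons d ds ih =>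
    have hnd := List.nodup_cons.1 hl
    simp only [List.mem_cons, forall_eq_or_imp] at hd
    have hdN := hd.1
    have hmin : min (s.v d + 1) N = s.v d + 1 := by omega
    by_cases hfull : N ≤ s.v d + 1
    · set s1 : St (Vr r k D) Fl := { s with v := update (update s.v d (s.v d + 1)) d 0,
                                            b := update s.b .f1 true } with hs1
      have hex : (vincL (d :: ds)).exec N w s = (vincL ds).exec N w s1 := by
        simp only [vincL, exec_blk_cons, exec_blk_nil, Cmd.exec, Op.exec, update_self, hmin,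
          hfull, decide_true, if_true, hs1]
      have hne : ∀ e ∈ ds, s1.v e = s.v e := by
        intro e he
        have : e ≠ d := fun h => hnd.1 (h ▸ he)
        simp [hs1, Function.update_of_ne this]
      have hval : valL N s1.v ds = valL N s.v ds := valL_congr _ _ _ hne
      have hok1 : s1.ok N w := by
        refine ⟨fun e => ?_, hok.2⟩
        simp only [hs1]
        by_cases he : e = d
        · subst he; simp
        · simp [Function.update_of_ne he, hok.1 e]
      have hov1 : valL N s1.v ds + 1 < N ^ ds.length := by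
        rw [hval]
        simp only [valL, List.length_cons, pow_succ] at hov
        have h1 : N * (valL N s.v ds + 1) < N * N ^ ds.length := by
          calc N * (valL N s.v ds + 1) = N + N * valL N s.v ds := by ring
            _ ≤ s.v d + N * valL N s.v ds + 1 := by omega
            _ < N ^ ds.length * N := hov
            _ = _ := by ring
        exact Nat.lt_of_mul_lt_mul_left h1
      obtain ⟨i1, i2⟩ := ih hnd.2 s1 hok1 (fun e he => by rw [hne e he]; exact hd.2 e he) hov1
      rw [hex]
      have hdv : ((vincL ds).exec N w s1).v d = 0 := by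
        rw [Cmd.exec_v _ _ (vincL_wv ds hnd.1)]
        simp [hs1]
      refine ⟨?_, ?_⟩
      · intro e he
        rcases List.mem_cons.1 he with he | he
        · subst he; rw [hdv]; omega
        · exact i1 e he
      · simp only [valL]
        rw [hdv, i2, hval]
        have : s.v d + 1 = N := by omega
        nlinarith
    · have hex : (vincL (d :: ds)).exec N w s = { s with v := update s.v d (s.v d + 1),
                                                          b := update s.b .f1 false } := by
        simp only [vincL, exec_blk_cons, exec_blk_nil, Cmd.exec, Op.exec, update_self, hmin,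
          hfull, decide_false, Bool.false_eq_true, if_false]
      rw [hex]
      refine ⟨?_, ?_⟩
      · intro e he
        simp only
        by_cases hed : e = d
        · subst hed; simp; omega
        · rw [Function.update_of_ne hed]
          rcases List.mem_cons.1 he with he | he
          · exact absurd he hed
          · exact hd.2 e he
      · simp only [valL, update_self]
        rw [valL_congr (update s.v d (s.v d + 1)) s.v ds (by
          intro e he
          have : e ≠ d := fun h => hnd.1 (h ▸ he)
          rw [Function.update_of_ne this])]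
        ring

/-- Add the number in `zs` to the number in `ws`. -/
def vaddL : List (Vr r k D) → List (Vr r k D) → Cmd (Vr r k D) Fl
  | _, [] => .op .nop
  | ws, z :: zs => blk [.loop .ta (blk [.op (.le z .ta .f2),
      .ite (fun b => b .f2) (.op .nop) (vincL ws)]), vaddL ws.tail zs]

theorem vaddL_wv (ws zs : List (Vr r k D)) {v : Vr r k D} (h : v ∉ ws) (hv : v ≠ .ta) :
    v ∉ (vaddL ws zs).wv := by
  induction zs generalizing ws with
  | nil => simp [vaddL, Cmd.wv, Op.wv]
  | cons z zs ih =>
    have h' : v ∉ ws.tail := fun h1 => h (List.mem_of_mem_tail h1)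
    simp [vaddL, Cmd.wv, Op.wv, hv, vincL_wv ws h, ih _ h']

theorem vaddL_wb (ws zs : List (Vr r k D)) {f : Fl} (h1 : f ≠ .f1) (h2 : f ≠ .f2) :
    f ∉ (vaddL ws zs).wb := by
  induction zs generalizing ws with
  | nil => simp [vaddL, Cmd.wb, Op.wb]
  | cons z zs ih => simp [vaddL, Cmd.wb, Op.wb, h2, vincL_wb ws h1, ih]

theorem vaddL_deg (ws zs : List (Vr r k D)) : (vaddL ws zs).deg ≤ 2 := by
  induction zs generalizing ws with
  | nil => simp [vaddL, Cmd.deg, Op.deg]
  | cons z zs ih =>
    have := vincL_deg ws
    simp [vaddL, Cmd.deg, Op.deg, ih]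
    omega

theorem vaddL_WF (ws zs : List (Vr r k D)) (hw : Vr.ta ∉ ws) (hz : Vr.ta ∉ zs) :
    (vaddL ws zs).WF := by
  induction zs generalizing ws with
  | nil => simp [vaddL, Cmd.WF, Op.WF]
  | cons z zs ih =>
    simp only [List.mem_cons, not_or] at hz
    have h' : Vr.ta ∉ ws.tail := fun h1 => hw (List.mem_of_mem_tail h1)
    simp [vaddL, Cmd.WF, Op.WF, Cmd.wv, Op.wv, vincL_wv ws hw, vincL_WF, ih _ h' hz.2,
      Ne.symm hz.1]

theorem vaddL_spec (ws zs : List (Vr r k D)) (hnd : ws.Nodup) (hwt : Vr.ta ∉ ws)
    (hzt : Vr.ta ∉ zs) (hdis : ∀ z ∈ zs, z ∉ ws) (s : St (Vr r k D) Fl) (hok : s.ok N w)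
    (hd : ∀ d ∈ ws, s.v d < N) (hov : valL N s.v ws + valL N s.v zs < N ^ ws.length) :
    (∀ d ∈ ws, ((vaddL ws zs).exec N w s).v d < N) ∧
      valL N ((vaddL ws zs).exec N w s).v ws = valL N s.v ws + valL N s.v zs := by
  induction zs generalizing ws s with
  | nil =>
    refine ⟨?_, ?_⟩
    · simpa [vaddL, Cmd.exec, Op.exec] using hd
    · simp [vaddL, Cmd.exec, Op.exec, valL]
  | cons z zs ih =>
    simp only [List.mem_cons, not_or] at hzt
    simp only [List.mem_cons, forall_eq_or_imp] at hdis
    have hzN := hok.1 z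
    have key := loop_inv (N := N) (w := w) (i := Vr.ta)
      (a := blk [.op (.le z .ta .f2), .ite (fun b => b .f2) (.op .nop) (vincL ws)])
      (by simp [Cmd.wv, Op.wv, vincL_wv ws hwt])
      (fun t s' => (∀ d ∈ ws, s'.v d < N) ∧ valL N s'.v ws = valL N s.v ws + min t (s.v z)) s hok
      (by
        refine ⟨?_, ?_⟩
        · intro d hdw
          have : d ≠ Vr.ta := fun h => hwt (h ▸ hdw)
          simp [Op.exec, this, hd d hdw]
        · simp only [Nat.zero_min, add_zero]
          apply valL_congr
          intro d hdw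
          have : d ≠ Vr.ta := fun h => hwt (h ▸ hdw)
          simp [Op.exec, this])
      (by
        intro t ht s' hok' hti hfv hfb hI
        obtain ⟨I1, I2⟩ := hI
        have hvz : s'.v z = s.v z := by
          rw [hfv z (by simp [Cmd.wv, Op.wv, vincL_wv ws hdis.1]) (Ne.symm hzt.1)]
        have hinc : ∀ s2 : St (Vr r k D) Fl, (∀ d ∈ ws, ((Op.inc Vr.ta).exec N w s2).v d
            = s2.v d) := by
          intro s2 d hdw
          have : d ≠ Vr.ta := fun h => hwt (h ▸ hdw)
          simp [Op.exec, this]
        simp only [exec_blk_cons, exec_blk_nil, Cmd.exec]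
        have hle : (Op.le z Vr.ta Fl.f2).exec N w s' =
            { s' with b := update s'.b .f2 (decide (s.v z ≤ t)) } := by
          simp [Op.exec, hti, hvz]
        rw [hle]
        simp only [update_self]
        by_cases h : s.v z ≤ t
        · simp only [h, decide_true, if_true]
          refine ⟨?_, ?_⟩
          · intro d hdw
            rw [hinc _ d hdw]
            exact I1 d hdw
          · rw [valL_congr _ _ _ (hinc _)]
            simp only [Op.exec]
            rw [I2]
            congr 1
            omega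
        · simp only [h, decide_false, Bool.false_eq_true, if_false]
          have e1 : min t (s.v z) = t := by omega
          have e2 : min (t + 1) (s.v z) = t + 1 := by omega
          have hv := vincL_spec (N := N) (w := w) ws hnd
            { s' with b := update s'.b .f2 false } ⟨hok'.1, hok'.2⟩ I1 (by
              simp only
              rw [I2, e1]
              have : valL N s.v ws + (s.v z + N * valL N s.v zs) < N ^ ws.length := hov
              have : 0 ≤ N * valL N s.v zs := Nat.zero_le _
              omega)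
          refine ⟨?_, ?_⟩
          · intro d hdw
            rw [hinc _ d hdw]
            exact hv.1 d hdw
          · rw [valL_congr _ _ _ (hinc _), hv.2, e2]
            simp only
            rw [I2, e1]
            ring)
    rw [show min N (s.v z) = s.v z by omega] at key
    set s1 := (Cmd.loop .ta (blk [.op (.le z .ta .f2),
      .ite (fun b => b .f2) (.op .nop) (vincL ws)])).exec N w s with hs1
    have hok1 : s1.ok N w := Cmd.exec_ok _ _ hok
    have hzs : valL N s1.v zs = valL N s.v zs := by
      apply valL_congr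
      intro e he
      have hew := hdis.2 e he
      have het : e ≠ Vr.ta := fun h => hzt.2 (h ▸ he)
      rw [hs1, Cmd.exec_v _ _ (by simp [Cmd.wv, Op.wv, vincL_wv ws hew, het])]
    have hex : (vaddL ws (z :: zs)).exec N w s = (vaddL ws.tail zs).exec N w s1 := rfl
    rw [hex]
    cases ws with
    | nil =>
      refine ⟨by simp, ?_⟩
      simp only [valL, List.length_nil, pow_zero] at hov ⊢
      omega
    | cons d ds =>
      have hnd' := List.nodup_cons.1 hnd
      have k1 := key.1
      have k2 := key.2
      simp only [List.mem_cons, forall_eq_or_imp] at k1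
      simp only [List.mem_cons, not_or] at hwt
      have hdd : d ∉ zs := fun h => (hdis.2 d h) (by simp)
      obtain ⟨i1, i2⟩ := ih ds hnd'.2 hwt.2 hzt.2
        (fun e he h => hdis.2 e he (List.mem_cons_of_mem _ h)) s1 hok1 k1.2 (by
          rw [hzs]
          simp only [valL, List.length_cons, pow_succ] at hov k2
          have h1 : N * (valL N s1.v ds + valL N s.v zs) < N * N ^ ds.length := by
            have : N ^ ds.length * N = N * N ^ ds.length := by ring
            nlinarith
          exact Nat.lt_of_mul_lt_mul_left h1)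
      simp only [List.tail_cons]
      have hdv : ((vaddL ds zs).exec N w s1).v d = s1.v d :=
        Cmd.exec_v _ _ (vaddL_wv ds zs hnd'.1 (Ne.symm hwt.1))
      refine ⟨?_, ?_⟩
      · intro e he
        rcases List.mem_cons.1 he with he | he
        · subst he; rw [hdv]; exact k1.1
        · exact i1 e he
      · simp only [valL] at k2 ⊢
        rw [hdv, i2, hzs]
        nlinarith

/-- Copy the counter `u` to the counter `z`. -/
def copyC (z u : Vr r k D) : Cmd (Vr r k D) Fl :=
  blk [.op (.zero z), .loop .ta (blk [.op (.le u .ta .f2),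
    .ite (fun b => b .f2) (.op .nop) (.op (.inc z))])]

theorem copyC_wv (z u : Vr r k D) : (copyC z u).wv = {z, .ta} := by
  ext v
  simp [copyC, Cmd.wv, Op.wv]
  tauto

theorem copyC_wb (z u : Vr r k D) : (copyC z u).wb = {.f2} := by
  ext v
  simp [copyC, Cmd.wb, Op.wb]

theorem copyC_deg (z u : Vr r k D) : (copyC z u).deg = 2 := by
  simp [copyC, Cmd.deg, Op.deg]

theorem copyC_WF (z u : Vr r k D) (hz : z ≠ .ta) (hu : u ≠ .ta) : (copyC z u).WF := by
  simp [copyC, Cmd.WF, Op.WF, Cmd.wv, Op.wv, hz.symm, hu]

theorem copyC_spec (z u : Vr r k D) (hz : z ≠ .ta) (hu : u ≠ .ta) (hzu : z ≠ u)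
    (s : St (Vr r k D) Fl) (hok : s.ok N w) :
    ((copyC z u).exec N w s).v z = s.v u := by
  have huN := hok.1 u
  have key := loop_inv (N := N) (w := w) (i := Vr.ta)
    (a := blk [.op (.le u .ta .f2), .ite (fun b => b .f2) (.op .nop) (.op (.inc z))])
    (by simp [Cmd.wv, Op.wv, hz.symm])
    (fun t s' => s'.v z = min t (s.v u)) ((Op.zero z).exec N w s) (Op.exec_ok _ _ hok)
    (by simp [Op.exec, hz])
    (by
      intro t ht s' hok' hti hfv hfb hI
      have hvu : s'.v u = s.v u := by
        rw [hfv u (by simp [Cmd.wv, Op.wv, hzu.symm]) hu]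
        simp [Op.exec, hzu.symm]
      simp only [exec_blk_cons, exec_blk_nil, Cmd.exec]
      have hle : (Op.le u Vr.ta Fl.f2).exec N w s' =
          { s' with b := update s'.b .f2 (decide (s.v u ≤ t)) } := by
        simp [Op.exec, hti, hvu]
      rw [hle]
      simp only [update_self]
      by_cases h : s.v u ≤ t
      · simp only [h, decide_true, if_true, Op.exec, ne_eq, hz, not_false_eq_true,
          update_of_ne]
        rw [hI]; omega
      · simp only [h, decide_false, Bool.false_eq_true, if_false, Op.exec, ne_eq, hz,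
          not_false_eq_true, update_of_ne, update_self]
        rw [hI]; omega)
  have : ((copyC z u).exec N w s).v z = min N (s.v u) := key
  rw [this]; omega

/-- Copy digit by digit. -/
def vcopyL : List (Vr r k D) → List (Vr r k D) → Cmd (Vr r k D) Fl
  | z :: zs, u :: us => blk [copyC z u, vcopyL zs us]
  | _, _ => .op .nop

theorem vcopyL_wv (zs us : List (Vr r k D)) {v : Vr r k D} (h : v ∉ zs) (hv : v ≠ .ta) :
    v ∉ (vcopyL zs us).wv := by
  induction zs generalizing us with
  | nil => simp [vcopyL, Cmd.wv, Op.wv]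
  | cons z zs ih =>
    simp only [List.mem_cons, not_or] at h
    cases us with
    | nil => simp [vcopyL, Cmd.wv, Op.wv]
    | cons u us => simp [vcopyL, Cmd.wv, Op.wv, copyC_wv, hv, h.1, ih us h.2]

theorem vcopyL_wb (zs us : List (Vr r k D)) {f : Fl} (h2 : f ≠ .f2) :
    f ∉ (vcopyL zs us).wb := by
  induction zs generalizing us with
  | nil => simp [vcopyL, Cmd.wb, Op.wb]
  | cons z zs ih =>
    cases us with
    | nil => simp [vcopyL, Cmd.wb, Op.wb]
    | cons u us => simp [vcopyL, Cmd.wb, Op.wb, copyC_wb, h2, ih us]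

theorem vcopyL_deg (zs us : List (Vr r k D)) : (vcopyL zs us).deg ≤ 2 := by
  induction zs generalizing us with
  | nil => simp [vcopyL, Cmd.deg, Op.deg]
  | cons z zs ih =>
    cases us with
    | nil => simp [vcopyL, Cmd.deg, Op.deg]
    | cons u us => simp [vcopyL, copyC_deg, ih us]

theorem vcopyL_WF (zs us : List (Vr r k D)) (hz : Vr.ta ∉ zs) (hu : Vr.ta ∉ us) :
    (vcopyL zs us).WF := by
  induction zs generalizing us with
  | nil => simp [vcopyL, Cmd.WF, Op.WF]
  | cons z zs ih =>
    simp only [List.mem_cons, not_or] at hz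
    cases us with
    | nil => simp [vcopyL, Cmd.WF, Op.WF]
    | cons u us =>
      simp only [List.mem_cons, not_or] at hu
      simp [vcopyL, copyC_WF z u (Ne.symm hz.1) (Ne.symm hu.1), ih us hz.2 hu.2]

theorem vcopyL_spec (zs us : List (Vr r k D)) (hlen : zs.length = us.length)
    (hnd : zs.Nodup) (hz : Vr.ta ∉ zs) (hu : Vr.ta ∉ us) (hdis : ∀ u ∈ us, u ∉ zs)
    (s : St (Vr r k D) Fl) (hok : s.ok N w) (σ : Vr r k D → ℕ) (hσ : ∀ u ∈ us, s.v u = σ u) :
    zs.map ((vcopyL zs us).exec N w s).v = us.map σ := by
  induction zs generalizing us s with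
  | nil =>
    have : us = [] := List.length_eq_zero_iff.1 (by simpa using hlen.symm)
    subst this
    rfl
  | cons z zs ih =>
    cases us with
    | nil => simp at hlen
    | cons u us =>
      simp only [List.length_cons, add_left_inj] at hlen
      have hnd' := List.nodup_cons.1 hnd
      simp only [List.mem_cons, not_or] at hz hu
      simp only [List.mem_cons, forall_eq_or_imp, not_or] at hdis hσ
      have hok1 : ((copyC z u).exec N w s).ok N w := Cmd.exec_ok _ _ hok
      have hcp := copyC_spec (N := N) (w := w) z u (Ne.symm hz.1) (Ne.symm hu.1)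
        (Ne.symm hdis.1.1) s hok
      have := ih us hlen hnd'.2 hz.2 hu.2 (fun v hv => (hdis.2 v hv).2)
        ((copyC z u).exec N w s) hok1 (by
          intro v hv
          rw [Cmd.exec_v _ _ (by
            rw [copyC_wv]
            have h1 : v ≠ z := (hdis.2 v hv).1
            have h2 : v ≠ Vr.ta := fun h => hu.2 (h ▸ hv)
            simp [h1, h2])]
          exact hσ.2 v hv)
      simp only [vcopyL, exec_blk_cons, exec_blk_nil, List.map_cons]
      rw [this, Cmd.exec_v _ _ (vcopyL_wv zs us hnd'.1 (Ne.symm hz.1)), hcp, hσ.1]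

/-- Zero all digits. -/
def vzeroL : List (Vr r k D) → Cmd (Vr r k D) Fl
  | [] => .op .nop
  | d :: ds => blk [.op (.zero d), vzeroL ds]

theorem vzeroL_wv (l : List (Vr r k D)) {v : Vr r k D} (h : v ∉ l) : v ∉ (vzeroL l).wv := by
  induction l with
  | nil => simp [vzeroL, Cmd.wv, Op.wv]
  | cons d ds ih =>
    simp only [List.mem_cons, not_or] at h
    simp [vzeroL, Cmd.wv, Op.wv, h.1, ih h.2]

theorem vzeroL_wb (l : List (Vr r k D)) {f : Fl} : f ∉ (vzeroL l).wb := by
  induction l with
  | nil => simp [vzeroL, Cmd.wb, Op.wb]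
  | cons d ds ih => simp [vzeroL, Cmd.wb, Op.wb, ih]

theorem vzeroL_deg (l : List (Vr r k D)) : (vzeroL l).deg ≤ 1 := by
  induction l with
  | nil => simp [vzeroL, Cmd.deg, Op.deg]
  | cons d ds ih => simp [vzeroL, Cmd.deg, Op.deg, ih]

theorem vzeroL_WF (l : List (Vr r k D)) : (vzeroL l).WF := by
  induction l with
  | nil => simp [vzeroL, Cmd.WF, Op.WF]
  | cons d ds ih => simp [vzeroL, Cmd.WF, Op.WF, ih]

theorem vzeroL_spec (l : List (Vr r k D)) (s : St (Vr r k D) Fl) :
    ∀ d ∈ l, ((vzeroL l).exec N w s).v d = 0 := by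
  induction l generalizing s with
  | nil => simp
  | cons d ds ih =>
    intro e he
    simp only [vzeroL, exec_blk_cons, exec_blk_nil]
    by_cases hed : e ∈ ds
    · exact ih _ e hed
    · rcases List.mem_cons.1 he with he | he
      · subst he
        rw [Cmd.exec_v _ _ (vzeroL_wv ds hed)]
        simp [Cmd.exec, Op.exec]
      · exact absurd he hed

theorem valL_zero (σ : Vr r k D → ℕ) (l : List (Vr r k D)) (h : ∀ d ∈ l, σ d = 0) :
    valL N σ l = 0 := by
  induction l with
  | nil => rfl
  | cons d ds ih =>
    simp only [List.mem_cons, forall_eq_or_imp] at h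
    simp [valL, h.1, ih h.2]

/-- Multiply the number in `zs` by the counter `m`, using `us` as scratch. -/
def vmulL (zs us : List (Vr r k D)) (m : Vr r k D) : Cmd (Vr r k D) Fl :=
  blk [vzeroL us, .loop .tb (blk [.op (.le m .tb .f2),
    .ite (fun b => b .f2) (.op .nop) (vaddL us zs)]), vcopyL zs us]

/-- Side conditions on two digit arrays and a factor. -/
structure Arr (zs us : List (Vr r k D)) (m : Vr r k D) : Prop where
  nz : zs.Nodup
  nu : us.Nodup
  len : zs.length = us.length
  dis : ∀ u ∈ us, u ∉ zs
  za : Vr.ta ∉ zs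
  ua : Vr.ta ∉ us
  zb : Vr.tb ∉ zs
  ub : Vr.tb ∉ us
  mz : m ∉ zs
  mu : m ∉ us
  ma : m ≠ .ta
  mb : m ≠ .tb

theorem vmulL_wv (zs us : List (Vr r k D)) (m : Vr r k D) {v : Vr r k D} (h1 : v ∉ zs)
    (h2 : v ∉ us) (h3 : v ≠ .ta) (h4 : v ≠ .tb) : v ∉ (vmulL zs us m).wv := by
  simp [vmulL, Cmd.wv, Op.wv, vzeroL_wv us h2, h4, vaddL_wv us zs h2 h3, vcopyL_wv zs us h1 h3]

theorem vmulL_wb (zs us : List (Vr r k D)) (m : Vr r k D) {f : Fl} (h1 : f ≠ .f1)
    (h2 : f ≠ .f2) : f ∉ (vmulL zs us m).wb := by
  simp [vmulL, Cmd.wb, Op.wb, vzeroL_wb, h2, vaddL_wb us zs h1 h2, vcopyL_wb zs us h2]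

theorem vmulL_deg (zs us : List (Vr r k D)) (m : Vr r k D) : (vmulL zs us m).deg ≤ 3 := by
  have h1 := vzeroL_deg us
  have h2 := vaddL_deg us zs
  have h3 := vcopyL_deg zs us
  simp [vmulL, Cmd.deg, Op.deg]
  omega

theorem vmulL_WF (zs us : List (Vr r k D)) (m : Vr r k D) (h : Arr zs us m) :
    (vmulL zs us m).WF := by
  simp [vmulL, Cmd.WF, Op.WF, Cmd.wv, Op.wv, vzeroL_WF, vaddL_WF us zs h.ua h.za, h.mb,
    vcopyL_WF zs us h.za h.ua, vaddL_wv us zs h.ub]

theorem valL_map (σ τ : Vr r k D → ℕ) : ∀ (zs us : List (Vr r k D)),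
    zs.map σ = us.map τ → valL N σ zs = valL N τ us
  | [], [] => fun _ => rfl
  | [], _ :: _ => fun h => by simp at h
  | _ :: _, [] => fun h => by simp at h
  | z :: zs, u :: us => fun h => by
    simp only [List.map_cons, List.cons.injEq] at h
    simp only [valL, h.1, valL_map σ τ zs us h.2]

theorem vmulL_spec (zs us : List (Vr r k D)) (m : Vr r k D) (h : Arr zs us m)
    (s : St (Vr r k D) Fl) (hok : s.ok N w) (hd : ∀ d ∈ zs, s.v d < N)
    (hov : valL N s.v zs * s.v m < N ^ zs.length) :
    (∀ d ∈ zs, ((vmulL zs us m).exec N w s).v d < N) ∧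
      valL N ((vmulL zs us m).exec N w s).v zs = valL N s.v zs * s.v m := by
  have hmN := hok.1 m
  set s1 := (vzeroL us).exec N w s with hs1
  have hok1 : s1.ok N w := Cmd.exec_ok _ _ hok
  have hz1 : ∀ d ∈ us, s1.v d = 0 := vzeroL_spec us s
  have hfr1 : ∀ v, v ∉ us → s1.v v = s.v v := fun v hv => Cmd.exec_v _ _ (vzeroL_wv us hv)
  have hzu : ∀ z ∈ zs, z ∉ us := fun z hz hu => h.dis z hu hz
  have hval1 : valL N s1.v zs = valL N s.v zs :=
    valL_congr _ _ _ (fun z hz => hfr1 z (hzu z hz))
  by_cases hN0 : N = 0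
  · -- degenerate: no digits possible
    have hzs : zs = [] := by
      cases zs with
      | nil => rfl
      | cons z zs => have := hd z (by simp); omega
    subst hzs
    have hus : us = [] := List.length_eq_zero_iff.1 h.len.symm
    subst hus
    simp [valL]
  have hNpos : 0 < N := Nat.pos_of_ne_zero hN0
  have key := loop_inv (N := N) (w := w) (i := Vr.tb)
    (a := blk [.op (.le m .tb .f2), .ite (fun b => b .f2) (.op .nop) (vaddL us zs)])
    (by simp [Cmd.wv, Op.wv, vaddL_wv us zs h.ub])
    (fun t s' => (∀ d ∈ us, s'.v d < N) ∧ valL N s'.v us = valL N s.v zs * min t (s.v m)) s1 hok1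
    (by
      refine ⟨?_, ?_⟩
      · intro d hdu
        have : d ≠ Vr.tb := fun h' => h.ub (h' ▸ hdu)
        simp [Op.exec, this, hz1 d hdu, hNpos]
      · simp only [Nat.zero_min, mul_zero]
        apply valL_zero
        intro d hdu
        have : d ≠ Vr.tb := fun h' => h.ub (h' ▸ hdu)
        simp [Op.exec, this, hz1 d hdu])
    (by
      intro t ht s' hok' hti hfv hfb hI
      obtain ⟨I1, I2⟩ := hI
      have hvm : s'.v m = s.v m := by
        rw [hfv m (by simp [Cmd.wv, Op.wv, vaddL_wv us zs h.mu h.ma]) h.mb, hfr1 m h.mu]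
      have hvz : valL N s'.v zs = valL N s.v zs := by
        rw [← hval1]
        apply valL_congr
        intro z hz
        have h1 : z ≠ Vr.ta := fun h' => h.za (h' ▸ hz)
        have h2 : z ≠ Vr.tb := fun h' => h.zb (h' ▸ hz)
        exact hfv z (by simp [Cmd.wv, Op.wv, vaddL_wv us zs (hzu z hz) h1]) h2
      have hinc : ∀ s2 : St (Vr r k D) Fl, (∀ d ∈ us, ((Op.inc Vr.tb).exec N w s2).v d
          = s2.v d) := by
        intro s2 d hdw
        have : d ≠ Vr.tb := fun h' => h.ub (h' ▸ hdw)
        simp [Op.exec, this]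
      simp only [exec_blk_cons, exec_blk_nil, Cmd.exec]
      have hle : (Op.le m Vr.tb Fl.f2).exec N w s' =
          { s' with b := update s'.b .f2 (decide (s.v m ≤ t)) } := by
        simp [Op.exec, hti, hvm]
      rw [hle]
      simp only [update_self]
      by_cases hc : s.v m ≤ t
      · simp only [hc, decide_true, if_true]
        refine ⟨?_, ?_⟩
        · intro d hdw
          rw [hinc _ d hdw]
          exact I1 d hdw
        · rw [valL_congr _ _ _ (hinc _)]
          simp only [Op.exec]
          rw [I2]
          congr 1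
          omega
      · simp only [hc, decide_false, Bool.false_eq_true, if_false]
        have e1 : min t (s.v m) = t := by omega
        have e2 : min (t + 1) (s.v m) = t + 1 := by omega
        have hv := vaddL_spec (N := N) (w := w) us zs h.nu h.ua h.za hzu
          { s' with b := update s'.b .f2 false } ⟨hok'.1, hok'.2⟩ I1 (by
            simp only
            rw [I2, e1, hvz, ← h.len]
            calc valL N s.v zs * t + valL N s.v zs = valL N s.v zs * (t + 1) := by ring
              _ ≤ valL N s.v zs * s.v m := Nat.mul_le_mul_left _ (by omega)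
              _ < _ := hov)
        refine ⟨?_, ?_⟩
        · intro d hdw
          rw [hinc _ d hdw]
          exact hv.1 d hdw
        · rw [valL_congr _ _ _ (hinc _), hv.2, e2]
          simp only
          rw [I2, e1, hvz]
          ring)
  rw [show min N (s.v m) = s.v m by omega] at key
  set s2 := (Cmd.loop .tb (blk [.op (.le m .tb .f2),
    .ite (fun b => b .f2) (.op .nop) (vaddL us zs)])).exec N w s1 with hs2
  have hok2 : s2.ok N w := Cmd.exec_ok _ _ hok1
  have hex : (vmulL zs us m).exec N w s = (vcopyL zs us).exec N w s2 := rfl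
  have hcp := vcopyL_spec (N := N) (w := w) zs us h.len h.nz h.za h.ua h.dis s2 hok2 s2.v
    (fun _ _ => rfl)
  rw [hex]
  refine ⟨?_, ?_⟩
  · intro d hdz
    have : ((vcopyL zs us).exec N w s2).v d ∈ us.map s2.v := by
      rw [← hcp]; exact List.mem_map_of_mem hdz
    rw [List.mem_map] at this
    obtain ⟨u, hu, he⟩ := this
    rw [← he]
    exact key.1 u hu
  · rw [valL_map _ _ _ _ hcp, key.2]

/-- `zs := m ^ e`. -/
def vpowL (zs us : List (Vr r k D)) (m : Vr r k D) : ℕ → Cmd (Vr r k D) Fl
  | 0 => blk [vzeroL zs, vincL zs]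
  | e + 1 => blk [vpowL zs us m e, vmulL zs us m]

theorem vpowL_wv (zs us : List (Vr r k D)) (m : Vr r k D) (e : ℕ) {v : Vr r k D} (h1 : v ∉ zs)
    (h2 : v ∉ us) (h3 : v ≠ .ta) (h4 : v ≠ .tb) : v ∉ (vpowL zs us m e).wv := by
  induction e with
  | zero => simp [vpowL, vzeroL_wv zs h1, vincL_wv zs h1]
  | succ e ih => simp [vpowL, ih, vmulL_wv zs us m h1 h2 h3 h4]

theorem vpowL_wb (zs us : List (Vr r k D)) (m : Vr r k D) (e : ℕ) {f : Fl} (h1 : f ≠ .f1)
    (h2 : f ≠ .f2) : f ∉ (vpowL zs us m e).wb := by
  induction e with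
  | zero => simp [vpowL, vzeroL_wb, vincL_wb zs h1]
  | succ e ih => simp [vpowL, ih, vmulL_wb zs us m h1 h2]

theorem vpowL_deg (zs us : List (Vr r k D)) (m : Vr r k D) (e : ℕ) :
    (vpowL zs us m e).deg ≤ 3 := by
  induction e with
  | zero =>
    have h1 := vzeroL_deg zs
    have h2 := vincL_deg zs
    simp [vpowL]
    omega
  | succ e ih =>
    have h1 := vmulL_deg zs us m
    simp [vpowL]
    omega

theorem vpowL_WF (zs us : List (Vr r k D)) (m : Vr r k D) (h : Arr zs us m) (e : ℕ) :
    (vpowL zs us m e).WF := by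
  induction e with
  | zero => simp [vpowL, vzeroL_WF, vincL_WF]
  | succ e ih => simp [vpowL, ih, vmulL_WF zs us m h]

theorem vpowL_spec (zs us : List (Vr r k D)) (m : Vr r k D) (h : Arr zs us m) (e : ℕ)
    (he : e < zs.length) (hN : 2 ≤ N) (s : St (Vr r k D) Fl) (hok : s.ok N w) :
    (∀ d ∈ zs, ((vpowL zs us m e).exec N w s).v d < N) ∧
      valL N ((vpowL zs us m e).exec N w s).v zs = s.v m ^ e := by
  induction e with
  | zero =>
    set s1 := (vzeroL zs).exec N w s with hs1
    have hok1 : s1.ok N w := Cmd.exec_ok _ _ hok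
    have hz1 : ∀ d ∈ zs, s1.v d = 0 := vzeroL_spec zs s
    have hv0 := valL_zero (N := N) s1.v zs hz1
    have := vincL_spec (N := N) (w := w) zs h.nz s1 hok1 (fun d hd => by rw [hz1 d hd]; omega)
      (by
        rw [hv0]
        calc 0 + 1 < 2 := by omega
          _ ≤ N := hN
          _ = N ^ 1 := (pow_one N).symm
          _ ≤ N ^ zs.length := Nat.pow_le_pow_right (by omega) (by omega))
    rw [hv0] at this
    simpa [vpowL] using this
  | succ e ih =>
    obtain ⟨i1, i2⟩ := ih (by omega)
    set s1 := (vpowL zs us m e).exec N w s with hs1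
    have hok1 : s1.ok N w := Cmd.exec_ok _ _ hok
    have hm : s1.v m = s.v m := Cmd.exec_v _ _ (vpowL_wv zs us m e h.mz h.mu h.ma h.mb)
    have hmN := hok.1 m
    have hex : (vpowL zs us m (e + 1)).exec N w s = (vmulL zs us m).exec N w s1 := rfl
    rw [hex]
    have := vmulL_spec (N := N) (w := w) zs us m h s1 hok1 i1 (by
      rw [i2, hm, ← pow_succ]
      calc s.v m ^ (e + 1) ≤ N ^ (e + 1) := Nat.pow_le_pow_left hmN _
        _ < N ^ zs.length := Nat.pow_lt_pow_right (by omega) he)
    rw [i2, hm, ← pow_succ] at this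
    exact this

end Pool.Agent.Lib.MP_64f491_lc
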