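import Pool.Agent.Lib.MP_64f491_lc.Primes

/-! # Choice of the parameters -/

namespace Pool.Agent.Lib.MP_64f491_lc

open Filter

theorem le_Qn_of_pow_lt {e N B : ℕ} (he : 1 ≤ e) (h : B ^ e < N) : B < Qn e N :=
  (lt_Qn e N he B).2 h

/-- In the No case some moduli have small weight. -/
theorem no_case (k : ℕ) (hk : 1000 ≤ k) (s : ℕ) :
    ∃ N0, ∀ N, N0 < N → ∀ E : ℕ → ℕ → Bool,
      (∀ S ∈ (Finset.range N).powersetCard k, (TS N E S).card ≤ s) →
      ∃ mv : List ℕ, mv.length = k - 12 ∧ (∀ a ∈ mv, 1 ≤ a ∧ a < Qn (k / 6 + 2) N) ∧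
        Pw k N (k - 12) E mv < N ^ (k - 5) := by
  obtain ⟨Q0, hQ0⟩ := eventually_atTop.1 eventually_PA
  set e := k / 6 + 2 with he
  set K := 2 * 2 ^ k * k.factorial * (s * (s * (2 * e)) ^ (k - 12)) with hK
  refine ⟨(Q0 + K ^ 10 + 1) ^ e + 2 * (2 * k) ^ k, fun N hN E hno => ?_⟩
  have he1 : 1 ≤ e := by omega
  have hQ : Q0 + K ^ 10 + 1 < Qn e N := le_Qn_of_pow_lt he1 (by omega)
  set Q := Qn e N with hQdef
  have hPA := hQ0 Q (by omega)
  have hQpos : 0 < Q := by omega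
  have hAne : (PA Q).Nonempty := by
    rw [← Finset.card_pos]
    by_contra hcon
    have h0 : (PA Q).card = 0 := by omega
    rw [h0] at hPA
    have : 0 < Q ^ 9 := by positivity
    simp at hPA
    omega
  obtain ⟨mv, h1, h2, h3⟩ := averaging k N (k - 12) s (2 * e) E (PA Q) hAne
    (fun z hz hz' => PA_dvd Q e z hz (lt_of_lt_of_le hz' (Qn_pow_ge e N he1))) hno
  refine ⟨mv, h1, ?_, ?_⟩
  · intro a ha
    have := h2 a ha
    rw [PA, Finset.mem_filter, Finset.mem_range] at this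
    exact ⟨this.2.1.one_le, this.1⟩
  · have hNpos : 0 < N := by omega
    have i1 : 2 * ((2 * k) ^ k * N ^ (k - 12 + 1)) < N ^ (k - 5) := by
      have e1 : k - 5 = (k - 12 + 1) + 6 := by omega
      rw [e1, pow_add N (k - 12 + 1) 6]
      have e2 : 2 * (2 * k) ^ k < N := by
        have : 0 ≤ (Q0 + K ^ 10 + 1) ^ e := Nat.zero_le _
        omega
      have e3 : N ≤ N ^ 6 := Nat.le_self_pow (by norm_num) N
      calc 2 * ((2 * k) ^ k * N ^ (k - 12 + 1)) = N ^ (k - 12 + 1) * (2 * (2 * k) ^ k) := by ring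
        _ < N ^ (k - 12 + 1) * N ^ 6 :=
            Nat.mul_lt_mul_of_pos_left (lt_of_lt_of_le e2 e3) (by positivity)
    have i2 : 2 * (2 ^ k * k.factorial * Pc k N (k - 12) E mv) < N ^ (k - 5) := by
      by_contra hcon
      push Not at hcon
      have j1 : N ^ (k - 5) * (PA Q).card ^ (k - 12) ≤ N ^ (k - 5) * (N ^ 5 * K) := by
        calc N ^ (k - 5) * (PA Q).card ^ (k - 12)
            ≤ 2 * (2 ^ k * k.factorial * Pc k N (k - 12) E mv) * (PA Q).card ^ (k - 12) :=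
              Nat.mul_le_mul_right _ hcon
          _ = 2 * 2 ^ k * k.factorial * (Pc k N (k - 12) E mv * (PA Q).card ^ (k - 12)) := by
              ring
          _ ≤ 2 * 2 ^ k * k.factorial * (N ^ k * (s * (s * (2 * e)) ^ (k - 12))) :=
              Nat.mul_le_mul_left _ h3
          _ = N ^ k * K := by rw [hK]; ring
          _ = N ^ (k - 5) * (N ^ 5 * K) := by
              have e4 : N ^ k = N ^ (k - 5) * N ^ 5 := by
                rw [← pow_add]
                congr 1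
                omega
              rw [e4, mul_assoc]
      have j2 : (PA Q).card ^ (k - 12) ≤ N ^ 5 * K :=
        Nat.le_of_mul_le_mul_left j1 (by positivity)
      have j3 : Q ^ (50 * e + 1) ≤ Q ^ (50 * e) * K ^ 10 := by
        calc Q ^ (50 * e + 1) ≤ Q ^ (9 * (k - 12)) := by
              apply Nat.pow_le_pow_right hQpos
              omega
          _ = (Q ^ 9) ^ (k - 12) := by rw [pow_mul]
          _ ≤ ((PA Q).card ^ 10) ^ (k - 12) := Nat.pow_le_pow_left hPA _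
          _ = ((PA Q).card ^ (k - 12)) ^ 10 := by rw [← pow_mul, ← pow_mul, mul_comm]
          _ ≤ (N ^ 5 * K) ^ 10 := Nat.pow_le_pow_left j2 _
          _ = N ^ 50 * K ^ 10 := by rw [mul_pow, ← pow_mul]
          _ ≤ (Q ^ e) ^ 50 * K ^ 10 := by
              apply Nat.mul_le_mul_right
              exact Nat.pow_le_pow_left (Qn_pow_ge e N he1) _
          _ = Q ^ (50 * e) * K ^ 10 := by rw [← pow_mul, mul_comm e 50]
      rw [pow_succ] at j3
      have j4 := Nat.le_of_mul_le_mul_left j3 (by positivity)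
      omega
    have i3 := Pw_le_Pc k N (k - 12) E mv
    omega

/-- In the Yes case the moduli are too small to separate the common neighbours. -/
theorem yes_case (k : ℕ) (hk : 1000 ≤ k) (s : ℕ) :
    ∃ N0, ∀ N, N0 < N → ∀ l : List ℕ, l.length = k - 12 →
      (∀ a ∈ l, a < Qn (k / 6 + 2) N) →
      l.sum < ⌈(N : ℝ) ^ ((6 : ℝ) / ((k : ℝ) + 6))⌉₊ ∧
      s < ⌈(N : ℝ) ^ ((6 : ℝ) / ((k : ℝ) + 6))⌉₊ := by
  set e := k / 6 + 2 with he
  have he1 : 1 ≤ e := by omega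
  refine ⟨(s + (k - 12) ^ (k + 6) + 1) ^ e, fun N hN l hl hlr => ?_⟩
  have hQ : s + (k - 12) ^ (k + 6) + 1 < Qn e N := le_Qn_of_pow_lt he1 (by omega)
  obtain ⟨m, hm⟩ : ∃ m, Qn e N = m + 1 := ⟨Qn e N - 1, by omega⟩
  have hmN : m ^ e < N := (lt_Qn e N he1 m).1 (by omega)
  have hm1 : 1 ≤ m := by omega
  have hkey : ((k - 12) * m) ^ (k + 6) < N ^ 6 := by
    calc ((k - 12) * m) ^ (k + 6) = (k - 12) ^ (k + 6) * m ^ (k + 6) := by rw [mul_pow]
      _ ≤ m * m ^ (k + 6) := Nat.mul_le_mul_right _ (by omega)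
      _ = m ^ (k + 7) := by rw [← pow_succ']
      _ ≤ m ^ (e * 6) := Nat.pow_le_pow_right hm1 (by omega)
      _ = (m ^ e) ^ 6 := by rw [pow_mul]
      _ < N ^ 6 := Nat.pow_lt_pow_left hmN (by norm_num)
  have hreal : (((k - 12) * m : ℕ) : ℝ) < (N : ℝ) ^ ((6 : ℝ) / ((k : ℝ) + 6)) := by
    by_contra hcon
    push Not at hcon
    have hN0 : (0 : ℝ) ≤ (N : ℝ) := Nat.cast_nonneg _
    have h1 := pow_le_pow_left₀ (Real.rpow_nonneg hN0 _) hcon (k + 6)
    rw [← Real.rpow_natCast, ← Real.rpow_mul hN0] at h1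
    have h2 : (6 : ℝ) / ((k : ℝ) + 6) * ((k + 6 : ℕ) : ℝ) = ((6 : ℕ) : ℝ) := by
      push_cast
      have : (k : ℝ) + 6 ≠ 0 := by positivity
      field_simp
    rw [h2, Real.rpow_natCast] at h1
    have h3 : N ^ 6 ≤ ((k - 12) * m) ^ (k + 6) := by exact_mod_cast h1
    omega
  have hlt : (k - 12) * m < ⌈(N : ℝ) ^ ((6 : ℝ) / ((k : ℝ) + 6))⌉₊ := Nat.lt_ceil.2 hreal
  constructor
  · refine lt_of_le_of_lt ?_ hlt
    have := List.sum_le_card_nsmul l m (fun a ha => by have := hlr a ha; omega)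
    rw [hl, smul_eq_mul] at this
    exact this
  · refine lt_of_le_of_lt ?_ hlt
    calc s ≤ 1 * m := by omega
      _ ≤ (k - 12) * m := Nat.mul_le_mul_right _ (by omega)

/-- The cost of trying all moduli. -/
theorem Qn_cost (k : ℕ) (hk : 1000 ≤ k) (N : ℕ) (hN : 2 ≤ N) :
    (Qn (k / 6 + 2) N + 1) ^ (k - 12) ≤ 3 ^ (k - 12) * N ^ 6 := by
  set e := k / 6 + 2 with he
  have he1 : 1 ≤ e := by omega
  have hQ : 1 < Qn e N := le_Qn_of_pow_lt he1 (by rw [one_pow]; omega)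
  obtain ⟨m, hm⟩ : ∃ m, Qn e N = m + 1 := ⟨Qn e N - 1, by omega⟩
  have hmN : m ^ e < N := (lt_Qn e N he1 m).1 (by omega)
  have hm1 : 1 ≤ m := by omega
  calc (Qn e N + 1) ^ (k - 12) ≤ (3 * m) ^ (k - 12) := Nat.pow_le_pow_left (by omega) _
    _ = 3 ^ (k - 12) * m ^ (k - 12) := by rw [mul_pow]
    _ ≤ 3 ^ (k - 12) * N ^ 6 := by
        apply Nat.mul_le_mul_left
        calc m ^ (k - 12) ≤ m ^ (e * 6) := Nat.pow_le_pow_right hm1 (by omega)
          _ = (m ^ e) ^ 6 := by rw [pow_mul]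
          _ ≤ N ^ 6 := Nat.pow_le_pow_left hmN.le _

end Pool.Agent.Lib.MP_64f491_lc
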