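import Pool.Agent.Lib.MP_64f491_lc.Edge

/-! # Conjunctions, counting, residue tests -/

namespace Pool.Agent.Lib.MP_64f491_lc

set_option linter.unusedSectionVars false
set_option linter.unusedSimpArgs false
set_option linter.unnecessarySeqFocus false
set_option linter.constructorNameAsVariable false

open Function

variable {r k D : ℕ} {N : ℕ} {w : List Sym}

/-- Conjunction of tests: every command of the list leaves its answer in the flag `src`. -/
def andAll (g src : Fl) : List (Cmd (Vr r k D) Fl) → Cmd (Vr r k D) Fl
  | [] => .op (.set g fun _ => true)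
  | c :: cs => blk [c, .ite (fun b => b src) (andAll g src cs) (.op (.set g fun _ => false))]

theorem andAll_wv (g src : Fl) (l : List (Cmd (Vr r k D) Fl)) {v : Vr r k D}
    (h : ∀ c ∈ l, v ∉ c.wv) : v ∉ (andAll g src l).wv := by
  induction l with
  | nil => simp [andAll, Cmd.wv, Op.wv]
  | cons c cs ih =>
    simp only [List.mem_cons, forall_eq_or_imp] at h
    simp [andAll, Cmd.wv, Op.wv, h.1, ih h.2]

theorem andAll_wb (g src : Fl) (l : List (Cmd (Vr r k D) Fl)) {f : Fl} (hf : f ≠ g)
    (h : ∀ c ∈ l, f ∉ c.wb) : f ∉ (andAll g src l).wb := by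
  induction l with
  | nil => simp [andAll, Cmd.wb, Op.wb, hf]
  | cons c cs ih =>
    simp only [List.mem_cons, forall_eq_or_imp] at h
    simp [andAll, Cmd.wb, Op.wb, h.1, ih h.2, hf]

theorem andAll_deg (g src : Fl) (l : List (Cmd (Vr r k D) Fl)) {d : ℕ}
    (h : ∀ c ∈ l, c.deg ≤ d) : (andAll g src l).deg ≤ d := by
  induction l with
  | nil => simp [andAll, Cmd.deg, Op.deg]
  | cons c cs ih =>
    simp only [List.mem_cons, forall_eq_or_imp] at h
    simp [andAll, Cmd.deg, Op.deg, h.1, ih h.2]

theorem andAll_WF (g src : Fl) (l : List (Cmd (Vr r k D) Fl))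
    (h : ∀ c ∈ l, c.WF) : (andAll g src l).WF := by
  induction l with
  | nil => simp [andAll, Cmd.WF, Op.WF]
  | cons c cs ih =>
    simp only [List.mem_cons, forall_eq_or_imp] at h
    simp [andAll, Cmd.WF, Op.WF, h.1, ih h.2]

theorem andAll_spec {ι : Type} (g src : Fl) (l : List ι) (cmd : ι → Cmd (Vr r k D) Fl)
    (val : ι → Bool) (Inv : St (Vr r k D) Fl → Prop)
    (h : ∀ i ∈ l, ∀ s, Inv s → ((cmd i).exec N w s).b src = val i ∧ Inv ((cmd i).exec N w s))
    (s : St (Vr r k D) Fl) (hs : Inv s) :
    ((andAll g src (l.map cmd)).exec N w s).b g = l.all val := by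
  induction l generalizing s with
  | nil => simp [andAll, Cmd.exec, Op.exec]
  | cons i l ih =>
    simp only [List.mem_cons, forall_eq_or_imp] at h
    obtain ⟨h1, h2⟩ := h.1 s hs
    simp only [andAll, List.map_cons, exec_blk_cons, exec_blk_nil, Cmd.exec, h1, List.all_cons]
    by_cases hv : val i = true
    · rw [if_pos hv, hv, Bool.true_and]
      exact ih h.2 _ h2
    · have hv' : val i = false := by simpa using hv
      rw [if_neg hv, hv']
      simp [Op.exec]

/-- Conjunction of adjacency tests. -/
def allE (g : Fl) (l : List (Vr r k D × Vr r k D)) : Cmd (Vr r k D) Fl :=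
  andAll g .e (l.map fun q => edge q.1 q.2)

theorem allE_wv (g : Fl) (l : List (Vr r k D × Vr r k D)) {v : Vr r k D}
    (h1 : v ≠ .ta) (h2 : v ≠ .tb) : v ∉ (allE g l).wv := by
  refine andAll_wv _ _ _ ?_
  intro c hc
  rw [List.mem_map] at hc
  obtain ⟨q, _, rfl⟩ := hc
  simp [edge_wv, h1, h2]

theorem allE_wb (g : Fl) (l : List (Vr r k D × Vr r k D)) {f : Fl}
    (h0 : f ≠ g) (h1 : f ≠ .e) (h2 : f ≠ .f1) (h3 : f ≠ .f2) : f ∉ (allE g l).wb := by
  refine andAll_wb _ _ _ h0 ?_
  intro c hc
  rw [List.mem_map] at hc
  obtain ⟨q, _, rfl⟩ := hc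
  simp [edge_wb, h1, h2, h3]

theorem allE_deg (g : Fl) (l : List (Vr r k D × Vr r k D)) : (allE g l).deg ≤ 2 := by
  refine andAll_deg _ _ _ ?_
  intro c hc
  rw [List.mem_map] at hc
  obtain ⟨q, _, rfl⟩ := hc
  rw [edge_deg]

/-- Variables that are not used as loop counters of the adjacency test. -/
def Dat (v : Vr r k D) : Prop := v ≠ .ta ∧ v ≠ .tb

theorem allE_WF (g : Fl) (l : List (Vr r k D × Vr r k D))
    (h : ∀ q ∈ l, Dat q.1 ∧ Dat q.2) : (allE g l).WF := by
  refine andAll_WF _ _ _ ?_
  intro c hc
  rw [List.mem_map] at hc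
  obtain ⟨q, hq, rfl⟩ := hc
  exact edge_WF _ _ (h q hq).1.2 (h q hq).2.2

theorem allE_spec {E : ℕ → ℕ → Bool} (hG : Good N w E) (g : Fl)
    (l : List (Vr r k D × Vr r k D)) (h : ∀ q ∈ l, Dat q.1 ∧ Dat q.2)
    (s : St (Vr r k D) Fl) (hok : s.ok N w) (hN : ∀ q ∈ l, s.v q.2 < N) :
    ((allE g l).exec N w s).b g = l.all fun q => E (s.v q.1) (s.v q.2) := by
  refine andAll_spec (N := N) (w := w) g .e l (fun q => edge q.1 q.2)
    (fun q => E (s.v q.1) (s.v q.2))
    (fun s' => s'.ok N w ∧ ∀ v, Dat v → s'.v v = s.v v) ?_ s ⟨hok, fun _ _ => rfl⟩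
  intro q hq s' hs'
  obtain ⟨h1, h2⟩ := h q hq
  refine ⟨?_, Cmd.exec_ok _ _ hs'.1, ?_⟩
  · rw [edge_spec hG q.1 q.2 h1 h2 s' hs'.1 (by rw [hs'.2 _ h2]; exact hN q hq),
      hs'.2 _ h1, hs'.2 _ h2]
  · intro v hv
    rw [Cmd.exec_v _ _ (by rw [edge_wv]; simp [hv.1, hv.2]), hs'.2 v hv]

/-- Count the values of `z` for which `body` sets the flag `g`. -/
def countC (z : Vr r k D) (body : Cmd (Vr r k D) Fl) (g : Fl) (cnt : Vr r k D) :
    Cmd (Vr r k D) Fl :=
  blk [.op (.zero cnt),
    .loop z (blk [body, .ite (fun b => b g) (.op (.inc cnt)) (.op .nop)])]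

theorem countC_wv (z : Vr r k D) (body : Cmd (Vr r k D) Fl) (g : Fl) (cnt : Vr r k D) :
    (countC z body g cnt).wv = insert cnt (insert z body.wv) := by
  ext v
  simp [countC, Cmd.wv, Op.wv]
  tauto

theorem countC_wb (z : Vr r k D) (body : Cmd (Vr r k D) Fl) (g : Fl) (cnt : Vr r k D) :
    (countC z body g cnt).wb = body.wb := by
  ext v
  simp [countC, Cmd.wb, Op.wb]

theorem countC_deg (z : Vr r k D) (body : Cmd (Vr r k D) Fl) (g : Fl) (cnt : Vr r k D) :
    (countC z body g cnt).deg = body.deg + 1 := by
  simp [countC, Cmd.deg, Op.deg]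

theorem countC_WF (z : Vr r k D) (body : Cmd (Vr r k D) Fl) (g : Fl) (cnt : Vr r k D)
    (h1 : body.WF) (h2 : z ∉ body.wv) (h3 : z ≠ cnt) : (countC z body g cnt).WF := by
  simp [countC, Cmd.WF, Op.WF, Cmd.wv, Op.wv, h1, h2, h3]

theorem countC_spec (z : Vr r k D) (body : Cmd (Vr r k D) Fl) (g : Fl) (cnt : Vr r k D)
    (h2 : z ∉ body.wv) (h3 : z ≠ cnt) (h4 : cnt ∉ body.wv) (F : ℕ → Bool)
    (s : St (Vr r k D) Fl) (hok : s.ok N w)
    (hbody : ∀ t < N, ∀ s' : St (Vr r k D) Fl, s'.ok N w → s'.v z = t →
      (∀ j, j ∉ body.wv → j ≠ z → j ≠ cnt → s'.v j = s.v j) →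
      (∀ f, f ∉ body.wb → s'.b f = s.b f) → (body.exec N w s').b g = F t) :
    ((countC z body g cnt).exec N w s).v cnt = ((Finset.range N).filter (F · = true)).card := by
  have key := loop_inv (N := N) (w := w) (i := z)
    (a := blk [body, .ite (fun b => b g) (.op (.inc cnt)) (.op .nop)])
    (by simp [Cmd.wv, Op.wv, h2, h3])
    (fun t s' => s'.v cnt = ((Finset.range t).filter (F · = true)).card)
    ((Op.zero cnt).exec N w s) (Op.exec_ok _ _ hok) (by simp [Op.exec, h3.symm])
    (by
      intro t ht s' hok' hti hfv hfb hI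
      have hb := hbody t ht s' hok' hti (by
        intro j hj1 hj2 hj3
        rw [hfv j (by simp [Cmd.wv, Op.wv, hj1, hj3]) hj2]
        simp [Op.exec, hj3]) (by
        intro f hf
        rw [hfb f (by simp [Cmd.wb, Op.wb, hf])]
        simp [Op.exec])
      have hc : (body.exec N w s').v cnt = s'.v cnt := Cmd.exec_v _ _ h4
      simp only [exec_blk_cons, exec_blk_nil, Cmd.exec, hb]
      rw [Finset.range_add_one, Finset.filter_insert]
      by_cases hF : F t = true
      · rw [if_pos hF, if_pos hF, Finset.card_insert_of_notMem (by simp)]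
        simp only [Op.exec, ne_eq, h3.symm, not_false_eq_true, update_of_ne, update_self]
        rw [hc, hI]
        have : ((Finset.range t).filter (F · = true)).card ≤ t := by
          have := Finset.card_filter_le (Finset.range t) (F · = true)
          rwa [Finset.card_range] at this
        omega
      · rw [if_neg hF, if_neg hF]
        simp only [Op.exec, ne_eq, h3.symm, not_false_eq_true, update_of_ne]
        rw [hc, hI])
  exact key

/-- Set the flag `h` to: the counters `i` and `j` are different and congruent modulo the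
counter `m`. -/
def starC (i j m : Vr r k D) : Cmd (Vr r k D) Fl :=
  blk [.op (.set .h fun _ => false), .op (.set .st fun _ => false), .op (.zero .cc),
    .loop .ta (blk [
      .op (.le .ta i .f1), .op (.le i .ta .f2), .op (.set .e fun b => b .f1 && b .f2),
      .op (.le .ta j .f1), .op (.le j .ta .f2), .op (.set .e fun b => b .e || (b .f1 && b .f2)),
      .ite (fun b => b .e)
        (.ite (fun b => b .st) (.op (.isz .cc .h))
          (blk [.op (.set .st fun _ => true), .op (.zero .cc)]))
        (.op .nop),
      .op (.inc .cc), .op (.le m .cc .f1), .ite (fun b => b .f1) (.op (.zero .cc)) (.op .nop)])]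

theorem starC_wv (i j m : Vr r k D) : (starC i j m).wv = {.ta, .cc} := by
  ext v
  simp [starC, Cmd.wv, Op.wv]

theorem starC_wb (i j m : Vr r k D) : (starC i j m).wb = {.e, .f1, .f2, .h, .st} := by
  ext v
  simp [starC, Cmd.wb, Op.wb]
  tauto

theorem starC_deg (i j m : Vr r k D) : (starC i j m).deg = 2 := by
  simp [starC, Cmd.deg, Op.deg]

theorem starC_WF (i j m : Vr r k D) (hi : i ≠ .ta) (hj : j ≠ .ta) (hm : m ≠ .cc) :
    (starC i j m).WF := by
  simp [starC, Cmd.WF, Op.WF, Cmd.wv, Op.wv, hi, hj, hm, hi.symm, hj.symm]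

theorem wrap_lemma {c μ : ℕ} (h : c < μ) : (if μ ≤ c + 1 then 0 else c + 1) = (c + 1) % μ := by
  split
  · have : c + 1 = μ := by omega
    rw [this, Nat.mod_self]
  · rw [Nat.mod_eq_of_lt (by omega)]

theorem sub_mod_zero {a b μ : ℕ} (h : a ≤ b) : (b - a) % μ = 0 ↔ a % μ = b % μ := by
  rw [← Nat.dvd_iff_mod_eq_zero]
  exact (Nat.modEq_iff_dvd' h).symm

theorem starC_spec (i j m : Vr r k D) (hi : i ≠ .ta ∧ i ≠ .cc) (hj : j ≠ .ta ∧ j ≠ .cc)
    (hm : m ≠ .ta ∧ m ≠ .cc) (s : St (Vr r k D) Fl) (hok : s.ok N w)
    (hiN : s.v i < N) (hjN : s.v j < N) (hm1 : 1 ≤ s.v m) :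
    ((starC i j m).exec N w s).b .h
      = decide (s.v i ≠ s.v j ∧ s.v i % s.v m = s.v j % s.v m) := by
  set a := min (s.v i) (s.v j) with ha
  set b := max (s.v i) (s.v j) with hb
  set μ := s.v m with hμ
  have hμN : μ ≤ N := hok.1 m
  have hab : a ≤ b := by omega
  set body : Cmd (Vr r k D) Fl := blk [
      .op (.le .ta i .f1), .op (.le i .ta .f2), .op (.set .e fun b => b .f1 && b .f2),
      .op (.le .ta j .f1), .op (.le j .ta .f2), .op (.set .e fun b => b .e || (b .f1 && b .f2)),
      .ite (fun b => b .e)
        (.ite (fun b => b .st) (.op (.isz .cc .h))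
          (blk [.op (.set .st fun _ => true), .op (.zero .cc)]))
        (.op .nop),
      .op (.inc .cc), .op (.le m .cc .f1), .ite (fun b => b .f1) (.op (.zero .cc)) (.op .nop)]
    with hbody
  set s1 : St (Vr r k D) Fl := (Op.zero .cc).exec N w ((Op.set .st fun _ => false).exec N w
    ((Op.set .h fun _ => false).exec N w s)) with hs1
  have hok1 : s1.ok N w := Op.exec_ok _ _ (Op.exec_ok _ _ (Op.exec_ok _ _ hok))
  have hwv : body.wv = {.cc} := by
    ext v
    simp [hbody, Cmd.wv, Op.wv]
  have key := loop_inv (N := N) (w := w) (i := Vr.ta) (a := body)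
    (by rw [hwv]; simp)
    (fun t s' => s'.b .st = decide (a < t) ∧ (a < t → s'.v .cc = (t - a) % μ) ∧
      s'.b .h = decide (b < t ∧ a ≠ b ∧ (b - a) % μ = 0) ∧ s'.v .cc < μ) s1 hok1
    (by
      refine ⟨?_, ?_, ?_, ?_⟩
      · simp [hs1, Op.exec]
      · intro h; omega
      · simp [hs1, Op.exec]
      · simp [hs1, Op.exec]; omega)
    (by
      intro t ht s' hok' hti hfv hfb hI
      obtain ⟨I1, I2, I3, I4⟩ := hI
      have hvi : s'.v i = s.v i := by
        rw [hfv i (by rw [hwv]; simp [hi.2]) hi.1]
        simp [hs1, Op.exec, hi.2]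
      have hvj : s'.v j = s.v j := by
        rw [hfv j (by rw [hwv]; simp [hj.2]) hj.1]
        simp [hs1, Op.exec, hj.2]
      have hvm : s'.v m = μ := by
        rw [hfv m (by rw [hwv]; simp [hm.2]) hm.1]
        simp [hs1, Op.exec, hm.2, hμ]
      -- the state before the final wrap-around
      have fin : ∀ s2 : St (Vr r k D) Fl, s2.v .cc < μ → s2.v m = μ →
          (let s3 := (blk [.op (.inc .cc), .op (.le m .cc .f1),
            .ite (fun b => b .f1) (.op (.zero .cc)) (.op .nop)] : Cmd (Vr r k D) Fl).exec N w s2
          s3.v .cc = (s2.v .cc + 1) % μ ∧ s3.b .st = s2.b .st ∧ s3.b .h = s2.b .h) := by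
        intro s2 hlt hm2
        have hmin : min (s2.v .cc + 1) N = s2.v .cc + 1 := by omega
        simp only [exec_blk_cons, exec_blk_nil, Cmd.exec, Op.exec, update_self, ne_eq, hm.2,
          not_false_eq_true, update_of_ne, hm2, hmin, reduceCtorEq]
        rw [← wrap_lemma hlt]
        by_cases hc : μ ≤ s2.v .cc + 1
        · simp [hc]
        · simp [hc]
      -- the state before
      have hstep : body.exec N w s' = (blk [.op (.inc .cc), .op (.le m .cc .f1),
            .ite (fun b => b .f1) (.op (.zero .cc)) (.op .nop)] : Cmd (Vr r k D) Fl).exec N w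
          ((blk [.op (.le .ta i .f1), .op (.le i .ta .f2), .op (.set .e fun b => b .f1 && b .f2),
      .op (.le .ta j .f1), .op (.le j .ta .f2), .op (.set .e fun b => b .e || (b .f1 && b .f2)),
      .ite (fun b => b .e)
        (.ite (fun b => b .st) (.op (.isz .cc .h))
          (blk [.op (.set .st fun _ => true), .op (.zero .cc)]))
        (.op .nop)] : Cmd (Vr r k D) Fl).exec N w s') := rfl
      rw [hstep]
      -- evaluate the first part
      have hpre : ∃ bb : Fl → Bool, bb .e = decide (t = a ∨ t = b) ∧ bb .st = s'.b .st ∧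
          bb .h = s'.b .h ∧
          ((blk [.op (.le .ta i .f1), .op (.le i .ta .f2), .op (.set .e fun b => b .f1 && b .f2),
      .op (.le .ta j .f1), .op (.le j .ta .f2), .op (.set .e fun b => b .e || (b .f1 && b .f2)),
      .ite (fun b => b .e)
        (.ite (fun b => b .st) (.op (.isz .cc .h))
          (blk [.op (.set .st fun _ => true), .op (.zero .cc)]))
        (.op .nop)] : Cmd (Vr r k D) Fl).exec N w s') =
          ((.ite (fun b => b .e)
        (.ite (fun b => b .st) (.op (.isz .cc .h))
          (blk [.op (.set .st fun _ => true), .op (.zero .cc)]))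
        (.op .nop)) : Cmd (Vr r k D) Fl).exec N w { s' with b := bb } := by
        refine ⟨_, ?_, ?_, ?_, rfl⟩
        · simp only [Op.exec, Cmd.exec, update_self, ne_eq, reduceCtorEq, not_false_eq_true,
            update_of_ne, hti, hvi, hvj]
          rw [Bool.eq_iff_iff]
          simp only [Bool.or_eq_true, Bool.and_eq_true, decide_eq_true_eq]
          omega
        · simp only [Op.exec, Cmd.exec, update_self, ne_eq, reduceCtorEq, not_false_eq_true,
            update_of_ne]
        · simp only [Op.exec, Cmd.exec, update_self, ne_eq, reduceCtorEq, not_false_eq_true,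
            update_of_ne]
      obtain ⟨bb, hb1, hb2, hb3, hb4⟩ := hpre
      rw [hb4]
      by_cases hta : t = a
      · -- start
        have hst : s'.b .st = false := by rw [I1]; simp [hta]
        have he : bb .e = true := by rw [hb1]; simp [hta]
        have h2 : ((.ite (fun b => b .e)
        (.ite (fun b => b .st) (.op (.isz .cc .h))
          (blk [.op (.set .st fun _ => true), .op (.zero .cc)]))
        (.op .nop)) : Cmd (Vr r k D) Fl).exec N w { s' with b := bb } =
          { s' with b := update bb .st true, v := update s'.v .cc 0 } := by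
          simp only [Cmd.exec, he, if_true, hb2, hst, Bool.false_eq_true, if_false,
            exec_blk_cons, exec_blk_nil, Op.exec]
        rw [h2]
        obtain ⟨f1, f2, f3⟩ := fin { s' with b := update bb .st true, v := update s'.v .cc 0 }
          (by simp; omega) (by simp [hm.2, hvm])
        simp only [update_self] at f1 f2 f3
        refine ⟨?_, ?_, ?_, ?_⟩
        · simp only [Op.exec]
          rw [f2]
          simp [hta]
        · intro _
          simp only [Op.exec, ne_eq, reduceCtorEq, not_false_eq_true, update_of_ne]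
          rw [f1, hta]
          congr 1
          omega
        · simp only [Op.exec]
          rw [f3]
          simp only [ne_eq, reduceCtorEq, not_false_eq_true, update_of_ne, hb3, I3]
          rw [decide_eq_decide]
          constructor
          · rintro ⟨q1, q2, q3⟩; omega
          · rintro ⟨q1, q2, q3⟩; omega
        · simp only [Op.exec, ne_eq, reduceCtorEq, not_false_eq_true, update_of_ne]
          rw [f1]
          exact Nat.mod_lt _ (by omega)
      · by_cases htb : t = b
        · -- compare
          have hat : a < t := by omega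
          have hst : s'.b .st = true := by rw [I1]; simp [hat]
          have he : bb .e = true := by rw [hb1]; simp [htb]
          have h2 : ((.ite (fun b => b .e)
          (.ite (fun b => b .st) (.op (.isz .cc .h))
            (blk [.op (.set .st fun _ => true), .op (.zero .cc)]))
          (.op .nop)) : Cmd (Vr r k D) Fl).exec N w { s' with b := bb } =
            { s' with b := update bb .h (decide (s'.v .cc = 0)) } := by
            simp only [Cmd.exec, he, if_true, hb2, hst, Op.exec]
          rw [h2]
          obtain ⟨f1, f2, f3⟩ := fin { s' with b := update bb .h (decide (s'.v .cc = 0)) }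
            I4 hvm
          refine ⟨?_, ?_, ?_, ?_⟩
          · simp only [Op.exec]
            rw [f2]
            simp only [ne_eq, reduceCtorEq, not_false_eq_true, update_of_ne, hb2, hst]
            simp; omega
          · intro _
            simp only [Op.exec, ne_eq, reduceCtorEq, not_false_eq_true, update_of_ne]
            rw [f1, I2 hat, Nat.mod_add_mod]
            congr 1
            omega
          · simp only [Op.exec]
            rw [f3]
            simp only [update_self, I2 hat]
            rw [decide_eq_decide, htb]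
            constructor
            · intro q; exact ⟨by omega, by omega, q⟩
            · intro q; exact q.2.2
          · simp only [Op.exec, ne_eq, reduceCtorEq, not_false_eq_true, update_of_ne]
            rw [f1]
            exact Nat.mod_lt _ (by omega)
        · -- no event
          have he : bb .e = false := by rw [hb1]; simp [hta, htb]
          have h2 : ((.ite (fun b => b .e)
          (.ite (fun b => b .st) (.op (.isz .cc .h))
            (blk [.op (.set .st fun _ => true), .op (.zero .cc)]))
          (.op .nop)) : Cmd (Vr r k D) Fl).exec N w { s' with b := bb } =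
            { s' with b := bb } := by
            simp only [Cmd.exec, he, Bool.false_eq_true, if_false, Op.exec]
          rw [h2]
          obtain ⟨f1, f2, f3⟩ := fin { s' with b := bb } I4 hvm
          refine ⟨?_, ?_, ?_, ?_⟩
          · simp only [Op.exec]
            rw [f2]
            simp only [hb2, I1]
            rw [decide_eq_decide]
            omega
          · intro hat
            have hat' : a < t := by omega
            simp only [Op.exec, ne_eq, reduceCtorEq, not_false_eq_true, update_of_ne]
            rw [f1, I2 hat', Nat.mod_add_mod]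
            congr 1
            omega
          · simp only [Op.exec]
            rw [f3]
            simp only [hb3, I3]
            rw [decide_eq_decide]
            constructor
            · rintro ⟨q1, q2, q3⟩; exact ⟨by omega, q2, q3⟩
            · rintro ⟨q1, q2, q3⟩; exact ⟨by omega, q2, q3⟩
          · simp only [Op.exec, ne_eq, reduceCtorEq, not_false_eq_true, update_of_ne]
            rw [f1]
            exact Nat.mod_lt _ (by omega))
  obtain ⟨_, _, k3, _⟩ := key
  have hfin : ((starC i j m).exec N w s).b .h = ((Cmd.loop .ta body).exec N w s1).b .h := rfl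
  rw [hfin, k3, decide_eq_decide, sub_mod_zero hab]
  constructor
  · rintro ⟨_, h2, h3⟩
    refine ⟨by omega, ?_⟩
    rcases le_total (s.v i) (s.v j) with h | h
    · rw [ha, hb, min_eq_left h, max_eq_right h] at h3; exact h3
    · rw [ha, hb, min_eq_right h, max_eq_left h] at h3; exact h3.symm
  · rintro ⟨h2, h3⟩
    refine ⟨by omega, by omega, ?_⟩
    rcases le_total (s.v i) (s.v j) with h | h
    · rw [ha, hb, min_eq_left h, max_eq_right h]; exact h3
    · rw [ha, hb, min_eq_right h, max_eq_left h]; exact h3.symm

end Pool.Agent.Lib.MP_64f491_lc
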