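import Pool.Agent.Lib.MP_64f491_lc.Total

/-! # Combinatorics: pigeonhole and averaging -/

namespace Pool.Agent.Lib.MP_64f491_lc

set_option linter.unusedSectionVars false
set_option linter.unusedSimpArgs false
set_option linter.unnecessarySeqFocus false
set_option linter.constructorNameAsVariable false

/-- Few elements are isolated modulo `m`. -/
theorem iso_card (T : Finset ℕ) (m : ℕ) (hm : 1 ≤ m) :
    (T.filter fun x => ∀ y ∈ T, y ≠ x → y % m ≠ x % m).card ≤ m := by
  calc (T.filter fun x => ∀ y ∈ T, y ≠ x → y % m ≠ x % m).card ≤ (Finset.range m).card := by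
        apply Finset.card_le_card_of_injOn (fun x => x % m)
        · intro x _
          exact Finset.mem_coe.2 (Finset.mem_range.2 (Nat.mod_lt _ (by omega)))
        · intro x hx y hy hxy
          simp only [Finset.coe_filter, Set.mem_setOf_eq] at hx hy
          by_contra hne
          exact hy.2 x hx.1 hne hxy
    _ = m := Finset.card_range m

theorem bad_card (T : Finset ℕ) (mv : List ℕ) (hmv : ∀ a ∈ mv, 1 ≤ a) :
    (T.filter fun x => ∃ m ∈ mv, ∀ y ∈ T, y ≠ x → y % m ≠ x % m).card ≤ mv.sum := by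
  induction mv with
  | nil => simp
  | cons m mv ih =>
    simp only [List.mem_cons, forall_eq_or_imp] at hmv
    have h1 := iso_card T m hmv.1
    have h2 := ih hmv.2
    rw [List.sum_cons]
    refine le_trans ?_ (Nat.add_le_add h1 h2)
    refine le_trans (Finset.card_le_card ?_) (Finset.card_union_le _ _)
    intro x hx
    simp only [List.mem_cons, exists_eq_or_imp, Finset.mem_filter, Finset.mem_union] at hx ⊢
    rcases hx with ⟨h, h' | h'⟩
    · exact Or.inl ⟨h, h'⟩
    · exact Or.inr ⟨h, h'⟩

/-- Pigeonhole: a large set contains a star tuple for any moduli. -/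
theorem star_exists (T : Finset ℕ) (mv : List ℕ) (hmv : ∀ a ∈ mv, 1 ≤ a)
    (h : mv.sum < T.card) :
    ∃ xl : List ℕ, xl.length = mv.length + 1 ∧ (∀ x ∈ xl, x ∈ T) ∧ starL xl mv = true := by
  have h1 := bad_card T mv hmv
  obtain ⟨x0, hx0, hx0'⟩ : ∃ x0 ∈ T, x0 ∉ T.filter fun x => ∃ m ∈ mv, ∀ y ∈ T, y ≠ x →
      y % m ≠ x % m := by
    by_contra hcon
    push Not at hcon
    have : T ⊆ T.filter fun x => ∃ m ∈ mv, ∀ y ∈ T, y ≠ x → y % m ≠ x % m := hcon
    have := Finset.card_le_card this
    omega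
  have hx1 : ∀ m ∈ mv, ∃ y ∈ T, y ≠ x0 ∧ y % m = x0 % m := by
    intro m hm
    by_contra hcon
    push Not at hcon
    exact hx0' (Finset.mem_filter.2 ⟨hx0, m, hm, hcon⟩)
  have key : ∀ ms : List ℕ, (∀ m ∈ ms, ∃ y ∈ T, y ≠ x0 ∧ y % m = x0 % m) →
      ∃ xs : List ℕ, xs.length = ms.length ∧ (∀ x ∈ xs, x ∈ T) ∧
        ((xs.zip ms).all fun q => decide (q.1 ≠ x0 ∧ q.1 % q.2 = x0 % q.2)) = true := by
    intro ms
    induction ms with
    | nil => intro _; exact ⟨[], rfl, by simp, rfl⟩
    | cons m ms ih =>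
      intro h
      simp only [List.mem_cons, forall_eq_or_imp] at h
      obtain ⟨y, hy, hy1, hy2⟩ := h.1
      obtain ⟨xs, g1, g2, g3⟩ := ih h.2
      refine ⟨y :: xs, by simp [g1], ?_, ?_⟩
      · intro x hx
        rcases List.mem_cons.1 hx with hx | hx
        · rw [hx]; exact hy
        · exact g2 x hx
      · simp only [List.zip_cons_cons, List.all_cons, g3, Bool.and_true, decide_eq_true_eq]
        exact ⟨hy1, hy2⟩
  obtain ⟨xs, g1, g2, g3⟩ := key mv hx1
  refine ⟨x0 :: xs, by simp [g1], ?_, g3⟩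
  intro x hx
  rcases List.mem_cons.1 hx with hx | hx
  · rw [hx]; exact hx0
  · exact g2 x hx

/-- Sum over lists with entries in a finite set. -/
def asum (A : Finset ℕ) : ℕ → (List ℕ → ℕ) → ℕ
  | 0, f => f []
  | n + 1, f => ∑ a ∈ A, asum A n fun l => f (a :: l)

theorem asum_le (A : Finset ℕ) (n : ℕ) (f g : List ℕ → ℕ) (h : ∀ l, f l ≤ g l) :
    asum A n f ≤ asum A n g := by
  induction n generalizing f g with
  | zero => exact h []
  | succ n ih =>
    simp only [asum]
    exact Finset.sum_le_sum fun a _ => ih _ _ fun l => h _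

theorem asum_sum {ι : Type} (A : Finset ℕ) (n : ℕ) (s : Finset ι) (f : ι → List ℕ → ℕ) :
    asum A n (fun l => ∑ i ∈ s, f i l) = ∑ i ∈ s, asum A n (f i) := by
  induction n generalizing f with
  | zero => rfl
  | succ n ih =>
    simp only [asum, ih]
    rw [Finset.sum_comm]

theorem tsum_sum {ι : Type} (N : ℕ) (n : ℕ) (s : Finset ι) (f : ι → List ℕ → ℕ) :
    tsum N n (fun l => ∑ i ∈ s, f i l) = ∑ i ∈ s, tsum N n (f i) := by
  induction n generalizing f with
  | zero => rfl
  | succ n ih =>
    simp only [tsum, ih]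
    rw [Finset.sum_comm]

theorem asum_mul (A : Finset ℕ) (n c : ℕ) (f : List ℕ → ℕ) :
    asum A n (fun l => c * f l) = c * asum A n f := by
  induction n generalizing f with
  | zero => rfl
  | succ n ih => simp only [asum, ih, Finset.mul_sum]

theorem asum_exists (A : Finset ℕ) (hA : A.Nonempty) (n : ℕ) (f : List ℕ → ℕ) :
    ∃ mv : List ℕ, mv.length = n ∧ (∀ a ∈ mv, a ∈ A) ∧ f mv * A.card ^ n ≤ asum A n f := by
  induction n generalizing f with
  | zero => exact ⟨[], rfl, by simp, by simp [asum]⟩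
  | succ n ih =>
    obtain ⟨a, ha, hmin⟩ := Finset.exists_min_image A
      (fun a => asum A n fun l => f (a :: l)) hA
    obtain ⟨mv, h1, h2, h3⟩ := ih fun l => f (a :: l)
    refine ⟨a :: mv, by simp [h1], ?_, ?_⟩
    · intro b hb
      rcases List.mem_cons.1 hb with hb | hb
      · rw [hb]; exact ha
      · exact h2 b hb
    · simp only [asum]
      calc f (a :: mv) * A.card ^ (n + 1) = A.card * (f (a :: mv) * A.card ^ n) := by ring
        _ ≤ A.card * asum A n (fun l => f (a :: l)) := Nat.mul_le_mul_left _ h3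
        _ = ∑ _b ∈ A, asum A n (fun l => f (a :: l)) := by
          rw [Finset.sum_const, smul_eq_mul]
        _ ≤ _ := Finset.sum_le_sum hmin

/-- Indicator for a list of pairs in star position inside `T`. -/
def ind (T : Finset ℕ) (x0 : ℕ) (xs ms : List ℕ) : ℕ :=
  if ((xs.zip ms).all fun q => decide (q.1 ≠ x0 ∧ q.1 % q.2 = x0 % q.2)) = true ∧
    (∀ x ∈ xs, x ∈ T) then 1 else 0

theorem ind_cons (T : Finset ℕ) (x0 x m : ℕ) (xs ms : List ℕ) :
    ind T x0 (x :: xs) (m :: ms) =
      (if (x ≠ x0 ∧ x % m = x0 % m) ∧ x ∈ T then 1 else 0) * ind T x0 xs ms := by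
  unfold ind
  simp only [List.zip_cons_cons, List.all_cons, Bool.and_eq_true, decide_eq_true_eq,
    List.mem_cons, forall_eq_or_imp]
  by_cases h1 : (x ≠ x0 ∧ x % m = x0 % m) ∧ x ∈ T
  · rw [if_pos h1, one_mul]
    congr 1
    simp only [eq_iff_iff]
    tauto
  · rw [if_neg h1, zero_mul]
    apply if_neg
    tauto

/-- The double sum factorises. -/
theorem double_sum (A T : Finset ℕ) (N x0 n : ℕ) :
    asum A n (fun mv => tsum N n fun xs => ind T x0 xs mv) =
      (∑ m ∈ A, ∑ x ∈ Finset.range N,
        if (x ≠ x0 ∧ x % m = x0 % m) ∧ x ∈ T then 1 else 0) ^ n := by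
  induction n with
  | zero => simp [asum, tsum, ind]
  | succ n ih =>
    simp only [asum, tsum, ind_cons]
    have h1 : ∀ m, asum A n (fun l => ∑ a ∈ Finset.range N, tsum N n fun l_1 =>
        (if (a ≠ x0 ∧ a % m = x0 % m) ∧ a ∈ T then 1 else 0) * ind T x0 l_1 l)
        = ∑ a ∈ Finset.range N, (if (a ≠ x0 ∧ a % m = x0 % m) ∧ a ∈ T then 1 else 0) *
          asum A n (fun l => tsum N n fun l_1 => ind T x0 l_1 l) := by
      intro m
      rw [asum_sum]
      apply Finset.sum_congr rfl
      intro a _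
      simp only [tsum_mul, asum_mul]
    simp only [h1, ih]
    rw [pow_succ, mul_comm, Finset.sum_mul]
    apply Finset.sum_congr rfl
    intro m _
    rw [Finset.sum_mul]

theorem mod_eq_dvd {x y m : ℕ} (hxy : x ≠ y) (h : x % m = y % m) :
    m ∣ (max x y - min x y) := by
  rcases le_total x y with hle | hle
  · rw [max_eq_right hle, min_eq_left hle]
    exact (Nat.modEq_iff_dvd' hle).1 h
  · rw [max_eq_left hle, min_eq_right hle]
    exact (Nat.modEq_iff_dvd' hle).1 h.symm

/-- Bound of the base of the power. -/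
theorem base_bound (A T : Finset ℕ) (N x0 s d : ℕ) (hT : T.card ≤ s) (hTN : ∀ x ∈ T, x < N)
    (hx0 : x0 < N) (hA : ∀ z, 0 < z → z < N → (A.filter (· ∣ z)).card ≤ d) :
    (∑ m ∈ A, ∑ x ∈ Finset.range N,
        if (x ≠ x0 ∧ x % m = x0 % m) ∧ x ∈ T then 1 else 0) ≤ s * d := by
  rw [Finset.sum_comm]
  calc ∑ x ∈ Finset.range N, ∑ m ∈ A,
        (if (x ≠ x0 ∧ x % m = x0 % m) ∧ x ∈ T then 1 else 0)
      ≤ ∑ x ∈ Finset.range N, (if x ∈ T then d else 0) := by
        apply Finset.sum_le_sum
        intro x hx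
        by_cases hxT : x ∈ T
        · rw [if_pos hxT]
          by_cases hxx : x = x0
          · simp [hxx]
          · simp only [hxx, ne_eq, not_false_eq_true, true_and, hxT, and_true]
            rw [← Finset.card_filter]
            refine le_trans (Finset.card_le_card ?_) (hA (max x x0 - min x x0) ?_ ?_)
            · intro m hm
              rw [Finset.mem_filter] at hm ⊢
              exact ⟨hm.1, mod_eq_dvd hxx hm.2⟩
            · omega
            · have := hTN x hxT
              omega
        · simp [hxT]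
    _ = ∑ x ∈ (Finset.range N).filter (· ∈ T), d := (Finset.sum_filter _ _).symm
    _ ≤ s * d := by
        rw [Finset.sum_const, smul_eq_mul]
        apply Nat.mul_le_mul_right
        refine le_trans (Finset.card_le_card ?_) hT
        intro x hx
        exact (Finset.mem_filter.1 hx).2

/-- Common neighbours of a finite set of left vertices. -/
def TS (N : ℕ) (E : ℕ → ℕ → Bool) (S : Finset ℕ) : Finset ℕ :=
  (Finset.range N).filter fun y => ∀ c ∈ S, E c y = true

theorem choose_eq (N k : ℕ) (E : ℕ → ℕ → Bool) (l : List ℕ) (hl : Lt N l) :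
    (NL N E l).choose k = ∑ S ∈ (Finset.range N).powersetCard k,
      if (∀ x ∈ l, x ∈ TS N E S) then 1 else 0 := by
  rw [← Finset.card_filter, NL, ← Finset.card_powersetCard]
  congr 1
  ext S
  simp only [Finset.mem_powersetCard, Finset.mem_filter, TS, Finset.mem_range, List.all_eq_true]
  constructor
  · rintro ⟨h1, h2⟩
    refine ⟨⟨fun c hc => (Finset.mem_filter.1 (h1 hc)).1, h2⟩, ?_⟩
    intro x hx
    refine ⟨hl x hx, ?_⟩
    intro c hc
    exact (Finset.mem_filter.1 (h1 hc)).2 x hx
  · rintro ⟨⟨h1, h2⟩, h3⟩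
    refine ⟨?_, h2⟩
    intro c hc
    rw [Finset.mem_filter]
    exact ⟨h1 hc, fun x hx => (h3 x hx).2 c hc⟩

/-- The weight with binomials. -/
def Pc (k N r : ℕ) (E : ℕ → ℕ → Bool) (mv : List ℕ) : ℕ :=
  tsum N (r + 1) fun l => if starL l mv = true then (NL N E l).choose k else 0

theorem Pc_eq (k N r : ℕ) (E : ℕ → ℕ → Bool) (mv : List ℕ) :
    Pc k N r E mv = ∑ x0 ∈ Finset.range N, ∑ S ∈ (Finset.range N).powersetCard k,
      (if x0 ∈ TS N E S then 1 else 0) * tsum N r (fun xs => ind (TS N E S) x0 xs mv) := by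
  unfold Pc
  simp only [tsum]
  apply Finset.sum_congr rfl
  intro x0 hx0
  have hx0' := Finset.mem_range.1 hx0
  simp only [← tsum_mul]
  rw [← tsum_sum]
  apply tsum_congr
  intro l _ hl
  by_cases hst : starL (x0 :: l) mv = true
  · rw [if_pos hst, choose_eq]
    · apply Finset.sum_congr rfl
      intro S _
      unfold ind
      simp only [starL] at hst
      simp only [List.mem_cons, forall_eq_or_imp, hst, true_and]
      split_ifs <;> simp_all
    · intro a ha
      rcases List.mem_cons.1 ha with ha | ha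
      · rw [ha]; exact hx0'
      · exact hl a ha
  · rw [if_neg hst]
    symm
    apply Finset.sum_eq_zero
    intro S _
    unfold ind
    simp only [starL] at hst
    have hz : (if ((l.zip mv).all fun q => decide (q.1 ≠ x0 ∧ q.1 % q.2 = x0 % q.2)) = true ∧
        (∀ x ∈ l, x ∈ TS N E S) then 1 else 0) = 0 := if_neg (fun h => hst h.1)
    rw [hz, mul_zero]

/-- Averaging over the moduli. -/
theorem averaging (k N r s d : ℕ) (E : ℕ → ℕ → Bool) (A : Finset ℕ) (hAne : A.Nonempty)
    (hA : ∀ z, 0 < z → z < N → (A.filter (· ∣ z)).card ≤ d)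
    (hno : ∀ S ∈ (Finset.range N).powersetCard k, (TS N E S).card ≤ s) :
    ∃ mv : List ℕ, mv.length = r ∧ (∀ a ∈ mv, a ∈ A) ∧
      Pc k N r E mv * A.card ^ r ≤ N ^ k * (s * (s * d) ^ r) := by
  obtain ⟨mv, h1, h2, h3⟩ := asum_exists A hAne r (Pc k N r E)
  refine ⟨mv, h1, h2, h3.trans ?_⟩
  have e1 : asum A r (Pc k N r E) = ∑ x0 ∈ Finset.range N,
      ∑ S ∈ (Finset.range N).powersetCard k, (if x0 ∈ TS N E S then 1 else 0) *
        asum A r (fun mv => tsum N r (fun xs => ind (TS N E S) x0 xs mv)) := by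
    have : Pc k N r E = fun mv => ∑ x0 ∈ Finset.range N,
      ∑ S ∈ (Finset.range N).powersetCard k,
      (if x0 ∈ TS N E S then 1 else 0) * tsum N r (fun xs => ind (TS N E S) x0 xs mv) := by
      funext mv
      exact Pc_eq k N r E mv
    rw [this, asum_sum]
    apply Finset.sum_congr rfl
    intro x0 _
    rw [asum_sum]
    apply Finset.sum_congr rfl
    intro S _
    rw [asum_mul]
  rw [e1, Finset.sum_comm]
  calc ∑ S ∈ (Finset.range N).powersetCard k, ∑ x0 ∈ Finset.range N,
        (if x0 ∈ TS N E S then 1 else 0) *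
          asum A r (fun mv => tsum N r (fun xs => ind (TS N E S) x0 xs mv))
      ≤ ∑ S ∈ (Finset.range N).powersetCard k, s * (s * d) ^ r := by
        apply Finset.sum_le_sum
        intro S hS
        have hTs := hno S hS
        calc ∑ x0 ∈ Finset.range N, (if x0 ∈ TS N E S then 1 else 0) *
              asum A r (fun mv => tsum N r (fun xs => ind (TS N E S) x0 xs mv))
            ≤ ∑ x0 ∈ Finset.range N, (if x0 ∈ TS N E S then 1 else 0) * (s * d) ^ r := by
              apply Finset.sum_le_sum
              intro x0 hx0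
              apply Nat.mul_le_mul_left
              rw [double_sum]
              apply Nat.pow_le_pow_left
              exact base_bound A (TS N E S) N x0 s d hTs
                (fun x hx => Finset.mem_range.1 (Finset.mem_filter.1 hx).1)
                (Finset.mem_range.1 hx0) hA
          _ = (∑ x0 ∈ Finset.range N, if x0 ∈ TS N E S then 1 else 0) * (s * d) ^ r := by
              rw [Finset.sum_mul]
          _ ≤ s * (s * d) ^ r := by
              apply Nat.mul_le_mul_right
              rw [← Finset.card_filter]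
              refine le_trans (Finset.card_le_card ?_) hTs
              intro x hx
              exact (Finset.mem_filter.1 hx).2
    _ = N.choose k * (s * (s * d) ^ r) := by
        rw [Finset.sum_const, Finset.card_powersetCard, Finset.card_range, smul_eq_mul]
    _ ≤ N ^ k * (s * (s * d) ^ r) := Nat.mul_le_mul_right _ (Nat.choose_le_pow _ _)

theorem pow_le_choose (m k : ℕ) :
    m ^ k ≤ (2 * k) ^ k + 2 ^ k * k.factorial * m.choose k := by
  rcases Nat.lt_or_ge m (2 * k) with h | h
  · have := Nat.pow_le_pow_left h.le k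
    omega
  · have h1 := Nat.pow_sub_le_descFactorial m k
    rw [Nat.descFactorial_eq_factorial_mul_choose] at h1
    have h2 : m ≤ 2 * (m + 1 - k) := by omega
    have h3 := Nat.pow_le_pow_left h2 k
    rw [mul_pow] at h3
    have h4 : 2 ^ k * (m + 1 - k) ^ k ≤ 2 ^ k * (k.factorial * m.choose k) :=
      Nat.mul_le_mul_left _ h1
    rw [← mul_assoc] at h4
    omega

theorem Pw_le_Pc (k N r : ℕ) (E : ℕ → ℕ → Bool) (mv : List ℕ) :
    Pw k N r E mv ≤ (2 * k) ^ k * N ^ (r + 1) + 2 ^ k * k.factorial * Pc k N r E mv := by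
  unfold Pw Pc
  rw [← tsum_mul, mul_comm ((2 * k) ^ k), ← tsum_const, ← tsum_add]
  apply tsum_le
  intro l _ _
  unfold Fw
  split
  · exact pow_le_choose _ _
  · exact Nat.zero_le _

end Pool.Agent.Lib.MP_64f491_lc
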