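import Pool.Agent.Lib.MP_64f491_lc.Lang

/-! # Compiling the loop language to stack machines -/

namespace Pool.Agent.Lib.MP_64f491_lc

set_option linter.unusedSectionVars false
set_option linter.unusedSimpArgs false

open Function Turing

/-- Stack names. -/
inductive SK (V : Type)
  | L (i : V)
  | R (i : V)
  | T
  | inL
  | inR
  | out
  deriving DecidableEq, Fintype

/-- Stack alphabets. -/
abbrev Gam (V : Type) : SK V → Type
  | .inL => Sym
  | .inR => Sym
  | .out => Bool
  | _ => Unit

/-- Finite control register: flags and scratch. -/
abbrev Sg (B : Type) := (B → Bool) × Bool × Bool × Option Sym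

section Reach

variable {K : Type} [DecidableEq K] {Γ : K → Type} {Λ σ : Type}

/-- `c'` is reached from `c` in at most `T` steps. -/
def Rch (M : Λ → TM2.Stmt Γ Λ σ) (T : ℕ) (c c' : TM2.Cfg Γ Λ σ) : Prop :=
  ∃ t ≤ T, (flip bind (TM2.step M))^[t] (some c) = some c'

theorem Rch.refl (M : Λ → TM2.Stmt Γ Λ σ) (c : TM2.Cfg Γ Λ σ) : Rch M 0 c c :=
  ⟨0, le_rfl, rfl⟩

theorem Rch.trans {M : Λ → TM2.Stmt Γ Λ σ} {T1 T2 : ℕ} {c1 c2 c3 : TM2.Cfg Γ Λ σ}
    (h1 : Rch M T1 c1 c2) (h2 : Rch M T2 c2 c3) : Rch M (T1 + T2) c1 c3 := by
  obtain ⟨t1, ht1, e1⟩ := h1
  obtain ⟨t2, ht2, e2⟩ := h2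
  refine ⟨t2 + t1, by omega, ?_⟩
  rw [Function.iterate_add_apply, e1, e2]

theorem Rch.mono {M : Λ → TM2.Stmt Γ Λ σ} {T1 T2 : ℕ} {c1 c2 : TM2.Cfg Γ Λ σ}
    (h1 : Rch M T1 c1 c2) (h : T1 ≤ T2) : Rch M T2 c1 c2 := by
  obtain ⟨t1, ht1, e1⟩ := h1
  exact ⟨t1, ht1.trans h, e1⟩

theorem Rch.step {M : Λ → TM2.Stmt Γ Λ σ} {c c' : TM2.Cfg Γ Λ σ}
    (h : TM2.step M c = some c') : Rch M 1 c c' :=
  ⟨1, le_rfl, by simp only [Function.iterate_one, flip]; exact h⟩

end Reach

variable {V B : Type} [DecidableEq V] [DecidableEq B] {Λ : Type}

/-- Stack contents of a state, with `t` units on the auxiliary stack. -/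
def St.stk (N : ℕ) (w : List Sym) (s : St V B) (t : ℕ) : ∀ k : SK V, List (Gam V k)
  | .L i => List.replicate (s.v i) ()
  | .R i => List.replicate (N - s.v i) ()
  | .T => List.replicate t ()
  | .inL => (w.take s.p).reverse
  | .inR => w.drop s.p
  | .out => []

def St.cfg (N : ℕ) (w : List Sym) (l : Λ) (s : St V B) (t : ℕ) :
    TM2.Cfg (Gam V) Λ (Sg B) :=
  ⟨some l, (s.b, false, false, none), s.stk N w t⟩

open TM2.Stmt in
/-- Code of the elementary operations. -/
def Op.code (e : Fin 2 → Λ) (x : Λ) : Op V B → Fin 2 → TM2.Stmt (Gam V) Λ (Sg B)
  | .nop, _ => goto fun _ => x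
  | .inc i, _ =>
      pop (.R i) (fun s a => (s.1, a.isSome, s.2.2.1, s.2.2.2)) <|
      branch (fun s => s.2.1)
        (push (.L i) (fun _ => ()) <| load (fun s => (s.1, false, false, none)) <| goto fun _ => x)
        (load (fun s => (s.1, false, false, none)) <| goto fun _ => x)
  | .zero i, _ =>
      pop (.L i) (fun s a => (s.1, a.isSome, s.2.2.1, s.2.2.2)) <|
      branch (fun s => s.2.1)
        (push (.R i) (fun _ => ()) <| load (fun s => (s.1, false, false, none)) <|
          goto fun _ => e 0)
        (load (fun s => (s.1, false, false, none)) <| goto fun _ => x)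
  | .le i j g, 0 =>
      pop (.L i) (fun s a => (s.1, a.isSome, s.2.2.1, s.2.2.2)) <|
      pop (.L j) (fun s a => (s.1, s.2.1, a.isSome, s.2.2.2)) <|
      branch (fun s => s.2.1)
        (branch (fun s => s.2.2.1)
          (push (.R i) (fun _ => ()) <| push (.R j) (fun _ => ()) <| push .T (fun _ => ()) <|
            load (fun s => (s.1, false, false, none)) <| goto fun _ => e 0)
          (push (.L i) (fun _ => ()) <|
            load (fun s => (update s.1 g false, false, false, none)) <| goto fun _ => e 1))
        (branch (fun s => s.2.2.1)
          (push (.L j) (fun _ => ()) <|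
            load (fun s => (update s.1 g true, false, false, none)) <| goto fun _ => e 1)
          (load (fun s => (update s.1 g true, false, false, none)) <| goto fun _ => e 1))
  | .le i j _, 1 =>
      pop .T (fun s a => (s.1, a.isSome, s.2.2.1, s.2.2.2)) <|
      branch (fun s => s.2.1)
        (pop (.R i) (fun s _ => s) <| pop (.R j) (fun s _ => s) <|
          push (.L i) (fun _ => ()) <| push (.L j) (fun _ => ()) <|
          load (fun s => (s.1, false, false, none)) <| goto fun _ => e 1)
        (load (fun s => (s.1, false, false, none)) <| goto fun _ => x)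
  | .full i g, _ =>
      TM2.Stmt.peek (.R i) (fun s a => (update s.1 g a.isNone, s.2)) <| goto fun _ => x
  | .isz i g, _ =>
      TM2.Stmt.peek (.L i) (fun s a => (update s.1 g a.isNone, s.2)) <| goto fun _ => x
  | .set g f, _ =>
      load (fun s => (update s.1 g (f s.1), s.2)) <| goto fun _ => x
  | .adv, _ =>
      pop .inR (fun s a => (s.1, s.2.1, s.2.2.1, a)) <|
      branch (fun s => s.2.2.2.isSome)
        (push .inL (fun s => s.2.2.2.getD Sym.mark) <|
          load (fun s => (s.1, false, false, none)) <| goto fun _ => x)
        (load (fun s => (s.1, false, false, none)) <| goto fun _ => x)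
  | .rew, _ =>
      pop .inL (fun s a => (s.1, s.2.1, s.2.2.1, a)) <|
      branch (fun s => s.2.2.2.isSome)
        (push .inR (fun s => s.2.2.2.getD Sym.mark) <|
          load (fun s => (s.1, false, false, none)) <| goto fun _ => e 0)
        (load (fun s => (s.1, false, false, none)) <| goto fun _ => x)
  | .peek f g, _ =>
      TM2.Stmt.peek .inR (fun s a => (update s.1 g (f a), s.2)) <| goto fun _ => x

/-- Labels of a command. -/
def Lab : Cmd V B → Type
  | .op _ => Fin 2
  | .seq a b => Lab a ⊕ Lab b
  | .ite _ a b => Unit ⊕ (Lab a ⊕ Lab b)
  | .loop _ a => Fin 3 ⊕ Lab a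

instance Lab.fintype : (c : Cmd V B) → Fintype (Lab c)
  | .op _ => inferInstanceAs (Fintype (Fin 2))
  | .seq a b =>
      letI := Lab.fintype a
      letI := Lab.fintype b
      inferInstanceAs (Fintype (Lab a ⊕ Lab b))
  | .ite _ a b =>
      letI := Lab.fintype a
      letI := Lab.fintype b
      inferInstanceAs (Fintype (Unit ⊕ (Lab a ⊕ Lab b)))
  | .loop _ a =>
      letI := Lab.fintype a
      inferInstanceAs (Fintype (Fin 3 ⊕ Lab a))

/-- Entry label. -/
def entry : (c : Cmd V B) → Lab c
  | .op _ => (0 : Fin 2)
  | .seq a _ => Sum.inl (entry a)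
  | .ite _ _ _ => Sum.inl ()
  | .loop _ _ => Sum.inl 0

open TM2.Stmt in
/-- Code of a command, with label embedding `e` and exit label `x`. -/
def code : (c : Cmd V B) → (Lab c → Λ) → Λ → Lab c → TM2.Stmt (Gam V) Λ (Sg B)
  | .op o, e, x, l => o.code e x l
  | .seq a b, e, x, l =>
      match l with
      | .inl l => code a (fun l => e (.inl l)) (e (.inr (entry b))) l
      | .inr l => code b (fun l => e (.inr l)) x l
  | .ite f a b, e, x, l =>
      match l with
      | .inl () => branch (fun s => f s.1) (goto fun _ => e (.inr (.inl (entry a))))
          (goto fun _ => e (.inr (.inr (entry b))))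
      | .inr (.inl l) => code a (fun l => e (.inr (.inl l))) x l
      | .inr (.inr l) => code b (fun l => e (.inr (.inr l))) x l
  | .loop i a, e, x, l =>
      match l with
      | .inl 0 =>
        pop (.L i) (fun s a => (s.1, a.isSome, s.2.2.1, s.2.2.2)) <|
        branch (fun s => s.2.1)
          (push (.R i) (fun _ => ()) <| load (fun s => (s.1, false, false, none)) <|
            goto fun _ => e (.inl 0))
          (load (fun s => (s.1, false, false, none)) <| goto fun _ => e (.inl 1))
      | .inl 1 =>
        peek (.R i) (fun s a => (s.1, a.isSome, s.2.2.1, s.2.2.2)) <|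
        branch (fun s => s.2.1)
          (load (fun s => (s.1, false, false, none)) <| goto fun _ => e (.inr (entry a)))
          (load (fun s => (s.1, false, false, none)) <| goto fun _ => x)
      | .inl 2 =>
        pop (.R i) (fun s a => (s.1, a.isSome, s.2.2.1, s.2.2.2)) <|
        branch (fun s => s.2.1)
          (push (.L i) (fun _ => ()) <| load (fun s => (s.1, false, false, none)) <|
            goto fun _ => e (.inl 1))
          (load (fun s => (s.1, false, false, none)) <| goto fun _ => e (.inl 1))
      | .inr l => code a (fun l => e (.inr l)) (e (.inl 2)) l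

variable {N : ℕ} {w : List Sym}

theorem replicate_head_isSome (n : ℕ) :
    (List.replicate n ()).head?.isSome = decide (0 < n) := by
  cases n <;> simp

theorem zero_reach (M : Λ → TM2.Stmt (Gam V) Λ (Sg B)) (l x : Λ) (i : V)
    (hM : M l = (TM2.Stmt.pop (.L i) (fun s a => (s.1, a.isSome, s.2.2.1, s.2.2.2)) <|
        TM2.Stmt.branch (fun s => s.2.1)
          (TM2.Stmt.push (.R i) (fun _ => ()) <|
            TM2.Stmt.load (fun s => (s.1, false, false, none)) <|
            TM2.Stmt.goto fun _ => l)
          (TM2.Stmt.load (fun s => (s.1, false, false, none)) <| TM2.Stmt.goto fun _ => x)))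
    (n : ℕ) (hn : n ≤ N) (s : St V B) (t : ℕ) :
    Rch M (n + 1) (St.cfg N w l { s with v := update s.v i n } t)
      (St.cfg N w x { s with v := update s.v i 0 } t) := by
  induction n with
  | zero =>
    apply Rch.step
    simp only [St.cfg, TM2.step, hM, TM2.stepAux, St.stk, update_self, List.replicate_zero,
      List.head?_nil, Option.isSome_none, cond_false, List.tail_nil, Option.some.injEq,
      TM2.Cfg.mk.injEq, true_and]
    funext k
    by_cases hk : k = SK.L i
    · subst hk; simp [St.stk]
    · simp [Function.update_of_ne hk]
  | succ n ih =>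
    have h1 : Rch M 1 (St.cfg N w l { s with v := update s.v i (n + 1) } t)
        (St.cfg N w l { s with v := update s.v i n } t) := by
      apply Rch.step
      simp only [St.cfg, TM2.step, hM, TM2.stepAux, St.stk, update_self, List.replicate_succ,
        List.head?_cons, Option.isSome_some, cond_true, List.tail_cons, Option.some.injEq,
        TM2.Cfg.mk.injEq, true_and]
      funext k
      by_cases hk : k = SK.R i
      · subst hk
        simp only [update_self, ne_eq, reduceCtorEq, not_false_eq_true, update_of_ne, St.stk]
        rw [← List.replicate_succ]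
        congr 1
        omega
      · rw [Function.update_of_ne hk]
        by_cases hk2 : k = SK.L i
        · subst hk2; simp [St.stk]
        · rw [Function.update_of_ne hk2]
          cases k with
          | L j =>
            have : j ≠ i := fun h => hk2 (by rw [h])
            simp [St.stk, Function.update_of_ne this]
          | R j =>
            have : j ≠ i := fun h => hk (by rw [h])
            simp [St.stk, Function.update_of_ne this]
          | _ => rfl
    have h2 := h1.trans (ih (by omega))
    exact h2.mono (by omega)

theorem le_loop0 (M : Λ → TM2.Stmt (Gam V) Λ (Sg B)) (e : Fin 2 → Λ) (x : Λ) (i j : V) (g : B)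
    (hij : i ≠ j) (hM : M (e 0) = (Op.le i j g).code e x 0) (m : ℕ) :
    ∀ (a b t : ℕ) (s : St V B), min a b = m → a ≤ N → b ≤ N →
      Rch M (m + 1) (St.cfg N w (e 0) { s with v := update (update s.v i a) j b } t)
        (St.cfg N w (e 1) { s with v := update (update s.v i (a - m)) j (b - m),
                                   b := update s.b g (decide (a ≤ b)) } (t + m)) := by
  induction m with
  | zero =>
    intro a b t s hm ha hb
    apply Rch.step
    have hji : j ≠ i := hij.symm
    simp only [St.cfg, TM2.step, hM, Op.code, TM2.stepAux, Nat.sub_zero, add_zero]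
    rcases Nat.eq_zero_or_pos a with h0 | h0
    · subst h0
      rcases Nat.eq_zero_or_pos b with h1 | h1
      · subst h1
        simp only [St.stk, update_self, List.replicate_zero, List.head?_nil, Option.isSome_none,
          cond_false, List.tail_nil, Option.some.injEq, TM2.Cfg.mk.injEq, true_and, ne_eq, hij,
          not_false_eq_true, update_of_ne, reduceCtorEq, SK.L.injEq, hji]
        refine ⟨by simp, ?_⟩
        funext k
        rcases k with c | c | _ | _ | _ | _
        · by_cases hcj : c = j
          · subst hcj; simp [St.stk, List.replicate_succ, hij, hij.symm]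
          · by_cases hci : c = i
            · subst hci; simp [Function.update_of_ne, hcj, St.stk, List.replicate_succ]
            · simp [Function.update_of_ne, hcj, hci, St.stk]
        · simp [St.stk]
        · simp [St.stk]
        · simp [St.stk]
        · simp [St.stk]
        · simp [St.stk]
      · obtain ⟨b', rfl⟩ : ∃ b', b = b' + 1 := ⟨b - 1, by omega⟩
        simp only [St.stk, update_self, List.replicate_zero, List.head?_nil, Option.isSome_none,
          cond_false, List.tail_nil, Option.some.injEq, TM2.Cfg.mk.injEq, true_and, ne_eq, hij,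
          not_false_eq_true, update_of_ne, reduceCtorEq, SK.L.injEq, hji, List.replicate_succ,
          List.head?_cons, Option.isSome_some, cond_true, List.tail_cons]
        refine ⟨by simp, ?_⟩
        funext k
        rcases k with c | c | _ | _ | _ | _
        · by_cases hcj : c = j
          · subst hcj; simp [St.stk, List.replicate_succ, hij, hij.symm]
          · by_cases hci : c = i
            · subst hci; simp [Function.update_of_ne, hcj, St.stk, List.replicate_succ]
            · simp [Function.update_of_ne, hcj, hci, St.stk]
        · simp [St.stk]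
        · simp [St.stk]
        · simp [St.stk]
        · simp [St.stk]
        · simp [St.stk]
    · obtain ⟨a', rfl⟩ : ∃ a', a = a' + 1 := ⟨a - 1, by omega⟩
      have hb0 : b = 0 := by omega
      subst hb0
      simp only [St.stk, update_self, List.replicate_zero, List.head?_nil, Option.isSome_none,
        cond_false, List.tail_nil, Option.some.injEq, TM2.Cfg.mk.injEq, true_and, ne_eq, hij,
        not_false_eq_true, update_of_ne, reduceCtorEq, SK.L.injEq, hji, List.replicate_succ,
        List.head?_cons, Option.isSome_some, cond_true, List.tail_cons]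
      refine ⟨by simp, ?_⟩
      funext k
      rcases k with c | c | _ | _ | _ | _
      · by_cases hcj : c = j
        · subst hcj; simp [St.stk, List.replicate_succ, hij, hij.symm]
        · by_cases hci : c = i
          · subst hci; simp [Function.update_of_ne, hcj, St.stk, List.replicate_succ]
          · simp [Function.update_of_ne, hcj, hci, St.stk]
      · simp [St.stk]
      · simp [St.stk]
      · simp [St.stk]
      · simp [St.stk]
      · simp [St.stk]
  | succ m ih =>
    intro a b t s hm ha hb
    obtain ⟨a', rfl⟩ : ∃ a', a = a' + 1 := ⟨a - 1, by omega⟩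
    obtain ⟨b', rfl⟩ : ∃ b', b = b' + 1 := ⟨b - 1, by omega⟩
    have hji : j ≠ i := hij.symm
    have h1 : Rch M 1 (St.cfg N w (e 0) { s with v := update (update s.v i (a' + 1)) j (b' + 1) } t)
        (St.cfg N w (e 0) { s with v := update (update s.v i a') j b' } (t + 1)) := by
      apply Rch.step
      simp only [St.cfg, TM2.step, hM, Op.code, TM2.stepAux]
      simp only [St.stk, update_self, Option.some.injEq, TM2.Cfg.mk.injEq, true_and, ne_eq, hij,
        not_false_eq_true, update_of_ne, reduceCtorEq, SK.L.injEq, SK.R.injEq, hji,
        List.replicate_succ, List.head?_cons, Option.isSome_some, cond_true, List.tail_cons]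
      funext k
      have e1 : N - a' = (N - (a' + 1)) + 1 := by omega
      have e2 : N - b' = (N - (b' + 1)) + 1 := by omega
      rcases k with c | c | _ | _ | _ | _
      · simp only [ne_eq, reduceCtorEq, not_false_eq_true, update_of_ne, St.stk]
        by_cases hcj : c = j
        · subst hcj; simp
        · by_cases hci : c = i
          · subst hci; simp [Function.update_of_ne, hcj]
          · simp [Function.update_of_ne, hcj, hci, St.stk]
      · by_cases hcj : c = j
        · subst hcj
          simp [St.stk, e2, List.replicate_succ]
        · by_cases hci : c = i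
          · subst hci
            simp [Function.update_of_ne, hcj, St.stk, e1, List.replicate_succ]
          · simp [Function.update_of_ne, hcj, hci, St.stk]
      · simp [St.stk, List.replicate_succ]
      · simp [St.stk]
      · simp [St.stk]
      · simp [St.stk]
    have h2 := h1.trans (ih a' b' (t + 1) s (by omega) (by omega) (by omega))
    have e1 : a' + 1 - (m + 1) = a' - m := by omega
    have e2 : b' + 1 - (m + 1) = b' - m := by omega
    have e3 : t + (m + 1) = t + 1 + m := by omega
    have e4 : decide (a' + 1 ≤ b' + 1) = decide (a' ≤ b') := by simp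
    rw [e1, e2, e3, e4]
    exact h2.mono (by omega)

theorem le_loop1 (M : Λ → TM2.Stmt (Gam V) Λ (Sg B)) (e : Fin 2 → Λ) (x : Λ) (i j : V) (g : B)
    (hij : i ≠ j) (hM : M (e 1) = (Op.le i j g).code e x 1) (t : ℕ) :
    ∀ (a b : ℕ) (s : St V B), a + t ≤ N → b + t ≤ N →
      Rch M (t + 1) (St.cfg N w (e 1) { s with v := update (update s.v i a) j b } t)
        (St.cfg N w x { s with v := update (update s.v i (a + t)) j (b + t) } 0) := by
  induction t with
  | zero =>
    intro a b s ha hb
    apply Rch.step
    simp only [St.cfg, TM2.step, hM, Op.code, TM2.stepAux]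
    simp only [St.stk, update_self, Option.some.injEq, TM2.Cfg.mk.injEq, true_and,
      List.replicate_zero, List.head?_nil, Option.isSome_none, cond_false, List.tail_nil, add_zero]
    funext k
    rcases k with c | c | _ | _ | _ | _ <;> simp [St.stk]
  | succ t ih =>
    intro a b s ha hb
    have hji : j ≠ i := hij.symm
    have h1 : Rch M 1 (St.cfg N w (e 1) { s with v := update (update s.v i a) j b } (t + 1))
        (St.cfg N w (e 1) { s with v := update (update s.v i (a + 1)) j (b + 1) } t) := by
      apply Rch.step
      simp only [St.cfg, TM2.step, hM, Op.code, TM2.stepAux]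
      simp only [St.stk, update_self, Option.some.injEq, TM2.Cfg.mk.injEq, true_and, ne_eq, hij,
        not_false_eq_true, update_of_ne, reduceCtorEq, SK.L.injEq, SK.R.injEq, hji,
        List.replicate_succ, List.head?_cons, Option.isSome_some, cond_true, List.tail_cons]
      funext k
      have e1 : N - a = (N - (a + 1)) + 1 := by omega
      have e2 : N - b = (N - (b + 1)) + 1 := by omega
      rcases k with c | c | _ | _ | _ | _
      · by_cases hcj : c = j
        · subst hcj; simp [St.stk, List.replicate_succ]
        · by_cases hci : c = i
          · subst hci; simp [Function.update_of_ne, hcj, St.stk, List.replicate_succ]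
          · simp [Function.update_of_ne, hcj, hci, St.stk]
      · by_cases hcj : c = j
        · subst hcj
          simp [St.stk, e2, List.replicate_succ, hij]
        · by_cases hci : c = i
          · subst hci
            simp [Function.update_of_ne, hcj, St.stk, e1, List.replicate_succ]
          · simp [Function.update_of_ne, hcj, hci, St.stk]
      · simp [St.stk]
      · simp [St.stk]
      · simp [St.stk]
      · simp [St.stk]
    have h2 := h1.trans (ih (a + 1) (b + 1) s (by omega) (by omega))
    have e1 : a + (t + 1) = a + 1 + t := by omega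
    have e2 : b + (t + 1) = b + 1 + t := by omega
    rw [e1, e2]
    exact h2.mono (by omega)

theorem rew_reach (M : Λ → TM2.Stmt (Gam V) Λ (Sg B)) (e : Fin 2 → Λ) (x : Λ)
    (hM : M (e 0) = (Op.rew : Op V B).code e x 0) (p : ℕ) :
    ∀ (s : St V B) (t : ℕ), p ≤ w.length →
      Rch M (p + 1) (St.cfg N w (e 0) { s with p := p } t)
        (St.cfg N w x { s with p := 0 } t) := by
  induction p with
  | zero =>
    intro s t hp
    apply Rch.step
    simp only [St.cfg, TM2.step, hM, Op.code, TM2.stepAux]
    simp only [St.stk, update_self, Option.some.injEq, TM2.Cfg.mk.injEq, true_and,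
      List.take_zero, List.reverse_nil, List.head?_nil, Option.isSome_none, cond_false,
      List.tail_nil]
    funext k
    rcases k with c | c | _ | _ | _ | _ <;> simp [St.stk]
  | succ p ih =>
    intro s t hp
    have h1 : Rch M 1 (St.cfg N w (e 0) { s with p := p + 1 } t)
        (St.cfg N w (e 0) { s with p := p } t) := by
      apply Rch.step
      have hlt : p < w.length := by omega
      have htake : (w.take (p + 1)).reverse = w[p] :: (w.take p).reverse := by
        rw [List.take_succ_eq_append_getElem hlt, List.reverse_append]; simp
      have hdrop : w.drop p = w[p] :: w.drop (p + 1) := List.drop_eq_getElem_cons hlt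
      simp only [St.cfg, TM2.step, hM, Op.code, TM2.stepAux]
      simp only [St.stk, update_self, Option.some.injEq, TM2.Cfg.mk.injEq, true_and, htake,
        List.head?_cons, Option.isSome_some, cond_true, List.tail_cons, Option.getD_some,
        ne_eq, reduceCtorEq, not_false_eq_true, update_of_ne]
      funext k
      rcases k with c | c | _ | _ | _ | _ <;> simp [St.stk]
    have h2 := h1.trans (ih s t (by omega))
    exact h2.mono (by omega)

/-- Correctness of the code of an elementary operation. -/
theorem op_reach (o : Op V B) (ho : o.WF) (M : Λ → TM2.Stmt (Gam V) Λ (Sg B)) (e : Fin 2 → Λ)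
    (x : Λ) (hM : ∀ l, M (e l) = o.code e x l) (s : St V B) (hs : s.ok N w) :
    Rch M (o.cost N w.length) (s.cfg N w (e 0) 0) ((o.exec N w s).cfg N w x 0) := by
  obtain ⟨hv, hp⟩ := hs
  cases o with
  | nop =>
    apply Rch.step
    simp only [St.cfg, TM2.step, hM, Op.code, TM2.stepAux, Op.exec]
  | inc i =>
    apply Rch.step
    have h := hv i
    simp only [St.cfg, TM2.step, hM, Op.code, TM2.stepAux, Op.exec]
    rcases Nat.lt_or_ge (s.v i) N with h1 | h1
    · obtain ⟨m, hm⟩ : ∃ m, N - s.v i = m + 1 := ⟨N - s.v i - 1, by omega⟩
      have hmin : min (s.v i + 1) N = s.v i + 1 := by omega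
      simp only [St.stk, update_self, Option.some.injEq, TM2.Cfg.mk.injEq, true_and, hm,
        List.replicate_succ, List.head?_cons, Option.isSome_some, cond_true, List.tail_cons,
        ne_eq, reduceCtorEq, not_false_eq_true, update_of_ne, hmin]
      funext k
      rcases k with c | c | _ | _ | _ | _
      · by_cases hc : c = i
        · subst hc; simp [St.stk, List.replicate_succ]
        · simp [St.stk, Function.update_of_ne, hc]
      · by_cases hc : c = i
        · subst hc
          have : N - (s.v c + 1) = m := by omega
          simp [St.stk, this]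
        · simp [St.stk, Function.update_of_ne, hc]
      · simp [St.stk]
      · simp [St.stk]
      · simp [St.stk]
      · simp [St.stk]
    · have h2 : s.v i = N := by omega
      have hm : N - s.v i = 0 := by omega
      have hmin : min (s.v i + 1) N = s.v i := by omega
      simp only [St.stk, update_self, Option.some.injEq, TM2.Cfg.mk.injEq, true_and, hm,
        List.replicate_zero, List.head?_nil, Option.isSome_none, cond_false, List.tail_nil,
        hmin, update_eq_self]
      funext k
      rcases k with c | c | _ | _ | _ | _
      · simp [St.stk]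
      · by_cases hc : c = i
        · subst hc; simp [St.stk, hm]
        · simp [St.stk, Function.update_of_ne, hc]
      · simp [St.stk]
      · simp [St.stk]
      · simp [St.stk]
      · simp [St.stk]
  | zero i =>
    have := zero_reach (N := N) (w := w) M (e 0) x i (by rw [hM]; rfl) (s.v i) (hv i) s 0
    rw [update_eq_self] at this
    exact this.mono (by simp only [Op.cost]; have := hv i; omega)
  | le i j g =>
    have h0 := le_loop0 (N := N) (w := w) M e x i j g ho (hM 0) (min (s.v i) (s.v j))
      (s.v i) (s.v j) 0 s rfl (hv i) (hv j)
    have h1 := le_loop1 (N := N) (w := w) M e x i j g ho (hM 1) (min (s.v i) (s.v j))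
      (s.v i - min (s.v i) (s.v j)) (s.v j - min (s.v i) (s.v j))
      { s with b := update s.b g (decide (s.v i ≤ s.v j)) }
      (by have := hv i; omega) (by have := hv j; omega)
    have e1 : s.v i - min (s.v i) (s.v j) + min (s.v i) (s.v j) = s.v i := by omega
    have e2 : s.v j - min (s.v i) (s.v j) + min (s.v i) (s.v j) = s.v j := by omega
    rw [e1, e2] at h1
    have e3 : update (update s.v i (s.v i)) j (s.v j) = s.v := by simp
    rw [zero_add] at h0
    simp only [e3] at h0 h1
    have h2 := h0.trans h1
    refine h2.mono ?_
    simp only [Op.cost]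
    have := hv i
    omega
  | full i g =>
    apply Rch.step
    simp only [St.cfg, TM2.step, hM, Op.code, TM2.stepAux, Op.exec, St.stk]
    have : (List.replicate (N - s.v i) ()).head?.isNone = decide (N ≤ s.v i) := by
      rcases Nat.lt_or_ge (s.v i) N with h1 | h1
      · obtain ⟨m, hm⟩ : ∃ m, N - s.v i = m + 1 := ⟨N - s.v i - 1, by omega⟩
        rw [hm]
        simp [List.replicate_succ, h1]
      · have hm : N - s.v i = 0 := by omega
        rw [hm]
        simp [h1]
    rw [this]
    rfl
  | isz i g =>
    apply Rch.step
    simp only [St.cfg, TM2.step, hM, Op.code, TM2.stepAux, Op.exec, St.stk]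
    have : (List.replicate (s.v i) ()).head?.isNone = decide (s.v i = 0) := by
      cases s.v i <;> simp [List.replicate_succ]
    rw [this]
    rfl
  | set g f =>
    apply Rch.step
    simp only [St.cfg, TM2.step, hM, Op.code, TM2.stepAux, Op.exec]
    rfl
  | adv =>
    apply Rch.step
    simp only [St.cfg, TM2.step, hM, Op.code, TM2.stepAux, Op.exec]
    rcases Nat.lt_or_ge s.p w.length with h1 | h1
    · have htake : (w.take (s.p + 1)).reverse = w[s.p] :: (w.take s.p).reverse := by
        rw [List.take_succ_eq_append_getElem h1, List.reverse_append]; simp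
      have hdrop : w.drop s.p = w[s.p] :: w.drop (s.p + 1) := List.drop_eq_getElem_cons h1
      have hmin : min (s.p + 1) w.length = s.p + 1 := by omega
      simp only [St.stk, update_self, Option.some.injEq, TM2.Cfg.mk.injEq, true_and, hdrop,
        List.head?_cons, Option.isSome_some, cond_true, List.tail_cons, Option.getD_some,
        ne_eq, reduceCtorEq, not_false_eq_true, update_of_ne, hmin]
      funext k
      rcases k with c | c | _ | _ | _ | _ <;> simp [St.stk, htake]
    · have hpe : s.p = w.length := by omega
      have hdrop : w.drop s.p = [] := by rw [hpe]; simp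
      have hmin : min (s.p + 1) w.length = s.p := by omega
      simp only [St.stk, update_self, Option.some.injEq, TM2.Cfg.mk.injEq, true_and, hdrop,
        List.head?_nil, Option.isSome_none, cond_false, List.tail_nil, hmin]
      funext k
      rcases k with c | c | _ | _ | _ | _ <;> simp [St.stk, hdrop]
  | rew =>
    have := rew_reach (N := N) (w := w) M e x (hM 0) s.p s 0 hp
    exact this.mono (by simp only [Op.cost]; omega)
  | peek f g =>
    apply Rch.step
    simp only [St.cfg, TM2.step, hM, Op.code, TM2.stepAux, Op.exec, St.stk]
    have : (w.drop s.p).head? = w[s.p]? := by simp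
    rw [this]
    rfl

/-- Correctness of compiled code. -/
theorem cmd_reach (c : Cmd V B) (hc : c.WF) (M : Λ → TM2.Stmt (Gam V) Λ (Sg B))
    (e : Lab c → Λ) (x : Λ) (hM : ∀ l, M (e l) = code c e x l) (s : St V B) (hs : s.ok N w) :
    Rch M (c.cost N w s) (s.cfg N w (e (entry c)) 0) ((c.exec N w s).cfg N w x 0) := by
  induction c generalizing x s with
  | op o => exact op_reach o hc M e x hM s hs
  | seq a b iha ihb =>
    have h1 := iha hc.1 (fun l => e (.inl l)) (e (.inr (entry b))) (fun l => hM (.inl l)) s hs
    have h2 := ihb hc.2 (fun l => e (.inr l)) x (fun l => hM (.inr l)) _ (Cmd.exec_ok a s hs)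
    exact h1.trans h2
  | ite f a b iha ihb =>
    by_cases hf : f s.b = true
    · have h0 : Rch M 1 (s.cfg N w (e (entry (.ite f a b))) 0)
          (s.cfg N w (e (.inr (.inl (entry a)))) 0) := by
        apply Rch.step
        simp only [St.cfg, TM2.step, entry, hM, code, TM2.stepAux, hf, cond_true]
      have h1 := iha hc.1 (fun l => e (.inr (.inl l))) x (fun l => hM (.inr (.inl l))) s hs
      have h2 := h0.trans h1
      simp only [Cmd.exec, Cmd.cost, hf, if_true]
      exact h2
    · have hf' : f s.b = false := by simpa using hf
      have h0 : Rch M 1 (s.cfg N w (e (entry (.ite f a b))) 0)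
          (s.cfg N w (e (.inr (.inr (entry b)))) 0) := by
        apply Rch.step
        simp only [St.cfg, TM2.step, entry, hM, code, TM2.stepAux, hf', cond_false]
      have h1 := ihb hc.2 (fun l => e (.inr (.inr l))) x (fun l => hM (.inr (.inr l))) s hs
      have h2 := h0.trans h1
      simp only [Cmd.exec, Cmd.cost, hf', Bool.false_eq_true, if_false]
      exact h2
  | loop i a iha =>
    obtain ⟨hi, ha⟩ := hc
    set F : St V B → St V B := fun s => (Op.inc i).exec N w (a.exec N w s) with hF
    have hz := zero_reach (N := N) (w := w) M (e (.inl 0)) (e (.inl 1)) i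
      (by rw [hM]; rfl) (s.v i) (hs.1 i) s 0
    rw [update_eq_self] at hz
    have hz' : Rch M (s.v i + 1) (s.cfg N w (e (.inl 0)) 0)
        (((Op.zero i).exec N w s).cfg N w (e (.inl 1)) 0) := hz
    have hs0 : ((Op.zero i).exec N w s).ok N w := Op.exec_ok _ _ hs
    have key : ∀ t ≤ N, Rch M (∑ u ∈ Finset.range t,
          (a.cost N w (F^[u] ((Op.zero i).exec N w s)) + 2))
        (((Op.zero i).exec N w s).cfg N w (e (.inl 1)) 0)
        ((F^[t] ((Op.zero i).exec N w s)).cfg N w (e (.inl 1)) 0) := by
      intro t
      induction t with
      | zero => intro _; simpa using Rch.refl M _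
      | succ t ih =>
        intro ht
        have h1 := ih (by omega)
        rw [Finset.sum_range_succ, Function.iterate_succ_apply']
        refine h1.trans ?_
        have hcnt := loop_counter (N := N) (w := w) hi t (by omega) s
        have hok := iterate_ok (N := N) (w := w) (f := F)
          (fun s hs => Op.exec_ok _ _ (Cmd.exec_ok _ _ hs)) t _ hs0
        change (F^[t] ((Op.zero i).exec N w s)).v i = t at hcnt
        generalize F^[t] ((Op.zero i).exec N w s) = s' at *
        have g1 : Rch M 1 (s'.cfg N w (e (.inl 1)) 0) (s'.cfg N w (e (.inr (entry a))) 0) := by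
          apply Rch.step
          obtain ⟨m, hm⟩ : ∃ m, N - s'.v i = m + 1 := ⟨N - s'.v i - 1, by omega⟩
          simp only [St.cfg, TM2.step, hM, code, TM2.stepAux, St.stk, hm, List.replicate_succ,
            List.head?_cons, Option.isSome_some, cond_true]
        have g2 := iha ha (fun l => e (.inr l)) (e (.inl 2)) (fun l => hM (.inr l)) s' hok
        have g3 : Rch M 1 ((a.exec N w s').cfg N w (e (.inl 2)) 0)
            ((F s').cfg N w (e (.inl 1)) 0) := by
          have hok2 := Cmd.exec_ok (N := N) (w := w) a s' hok
          have hcnt2 : (a.exec N w s').v i = t := by rw [Cmd.exec_v a s' hi, hcnt]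
          simp only [hF]
          generalize a.exec N w s' = s2 at *
          apply Rch.step
          obtain ⟨m, hm⟩ : ∃ m, N - s2.v i = m + 1 := ⟨N - s2.v i - 1, by omega⟩
          have hmin : min (s2.v i + 1) N = s2.v i + 1 := by omega
          simp only [St.cfg, TM2.step, hM, code, TM2.stepAux, Op.exec]
          simp only [St.stk, update_self, Option.some.injEq, TM2.Cfg.mk.injEq, true_and, hm,
            List.replicate_succ, List.head?_cons, Option.isSome_some, cond_true, List.tail_cons,
            ne_eq, reduceCtorEq, not_false_eq_true, update_of_ne, hmin]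
          funext k
          rcases k with c | c | _ | _ | _ | _
          · by_cases hc : c = i
            · subst hc; simp [St.stk, List.replicate_succ]
            · simp [St.stk, Function.update_of_ne, hc]
          · by_cases hc : c = i
            · subst hc
              have : N - (s2.v c + 1) = m := by omega
              simp [St.stk, this]
            · simp [St.stk, Function.update_of_ne, hc]
          · simp [St.stk]
          · simp [St.stk]
          · simp [St.stk]
          · simp [St.stk]
        exact ((g1.trans g2).trans g3).mono (by omega)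
    have hlast : Rch M 1 ((F^[N] ((Op.zero i).exec N w s)).cfg N w (e (.inl 1)) 0)
        ((F^[N] ((Op.zero i).exec N w s)).cfg N w x 0) := by
      have hcnt := loop_counter (N := N) (w := w) hi N le_rfl s
      change (F^[N] ((Op.zero i).exec N w s)).v i = N at hcnt
      generalize F^[N] ((Op.zero i).exec N w s) = s' at *
      apply Rch.step
      have hm : N - s'.v i = 0 := by omega
      simp only [St.cfg, TM2.step, hM, code, TM2.stepAux, St.stk, hm, List.replicate_zero,
        List.head?_nil, Option.isSome_none, cond_false]
    have hall := (hz'.trans (key N le_rfl)).trans hlast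
    simp only [Cmd.exec, Cmd.cost]
    refine hall.mono ?_
    have := hs.1 i
    simp only [hF]
    omega

end Pool.Agent.Lib.MP_64f491_lc
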