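import Mathlib

/-! # One-Sided k-Biclique: instances, encoding, and solvability by Turing machines -/

namespace Pool.Agent.Lib.MP_64f491_lc

/-- The four input symbols. -/
inductive Sym
  | mark | sep | zero | one
  deriving DecidableEq, Fintype

/-- A finite bipartite graph with sides `L = Fin l` and `R = Fin r`; `adj x y` tells whether the
vertex `x` of `L` is adjacent to the vertex `y` of `R`. -/
structure Inst where
  l : ℕ
  r : ℕ
  adj : Fin l → Fin r → Bool

namespace Inst

/-- The total number of vertices. -/
def n (G : Inst) : ℕ := G.l + G.r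

/-- The input word: `l` marks, then for every vertex `y` of `R` a separator followed by the `l`
adjacency bits of `y`. -/
def encode (G : Inst) : List Sym :=
  List.replicate G.l Sym.mark ++
    (List.ofFn fun y : Fin G.r =>
      Sym.sep :: List.ofFn fun x : Fin G.l => if G.adj x y then Sym.one else Sym.zero).flatten

/-- The common neighbours in `R` of a set `S` of vertices of `L`. -/
def common (G : Inst) (S : Finset (Fin G.l)) : Finset (Fin G.r) :=
  Finset.univ.filter fun y => ∀ x ∈ S, G.adj x y = true

/-- Yes instances: some `k` vertices of `L` have at least `⌈n^(6/(k+6))⌉` common neighbours. -/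
def IsYes (G : Inst) (k : ℕ) : Prop :=
  ∃ S : Finset (Fin G.l), S.card = k ∧
    ⌈(G.n : ℝ) ^ ((6 : ℝ) / ((k : ℝ) + 6))⌉₊ ≤ (G.common S).card

/-- No instances: every `k` vertices of `L` have at most `(k+6)!` common neighbours. -/
def IsNo (G : Inst) (k : ℕ) : Prop :=
  ∀ S : Finset (Fin G.l), S.card = k → (G.common S).card ≤ (k + 6).factorial

end Inst

/-- `SolvedWithin k T`: some deterministic multi-stack Turing machine (Mathlib's `Turing.FinTM2`,
with finite stack alphabets), started on the encoding of any bipartite graph `G`, halts within
`T n` steps, `n` the number of vertices of `G`, with a one-bit output `b` that is `false` if `G` is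
a No instance, and `true` if `G` is a Yes instance and not also a No instance. -/
def SolvedWithin (k : ℕ) (T : ℕ → ℕ) : Prop :=
  ∃ M : Turing.TM2ComputableAux Sym Bool, (∀ i, Finite (M.tm.Γ i)) ∧ ∀ G : Inst, ∃ b : Bool,
    Nonempty (Turing.TM2OutputsInTime M.tm (G.encode.map M.inputAlphabet.invFun)
      (some [M.outputAlphabet.invFun b]) (T G.n)) ∧
    (G.IsNo k → b = false) ∧ (G.IsYes k → ¬ G.IsNo k → b = true)

end Pool.Agent.Lib.MP_64f491_lc
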