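import Pool.Agent.Lib.MP_64f491_lc.Enc

/-! # The adjacency test -/

namespace Pool.Agent.Lib.MP_64f491_lc

set_option linter.unusedSectionVars false
set_option linter.unusedSimpArgs false

open Function

/-- Counters of the program. -/
inductive Vr (r k D : ℕ)
  | x (i : Fin (r + 1))
  | m (i : Fin r)
  | m' (i : Fin r)
  | c (i : Fin k)
  | A (i : Fin D)
  | Z (i : Fin D)
  | W (i : Fin D)
  | y | cnt | qc | sv | nz | ta | tb | tc | cc
  deriving DecidableEq, Fintype

/-- Flags of the program. -/
inductive Fl
  | e | f1 | f2 | g | h | st | done | acc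
  deriving DecidableEq, Fintype

variable {r k D : ℕ} {N : ℕ} {w : List Sym}

/-- A block of commands. -/
def blk {V B : Type} : List (Cmd V B) → Cmd V B
  | [] => .op .nop
  | c :: cs => .seq c (blk cs)

section
variable {V B : Type} [DecidableEq V] [DecidableEq B]

@[simp] theorem exec_blk_nil (s : St V B) : (blk ([] : List (Cmd V B))).exec N w s = s := rfl
@[simp] theorem exec_blk_cons (c : Cmd V B) (cs : List (Cmd V B)) (s : St V B) :
    (blk (c :: cs)).exec N w s = (blk cs).exec N w (c.exec N w s) := rfl
@[simp] theorem cost_blk_nil (s : St V B) : (blk ([] : List (Cmd V B))).cost N w s = 1 := rfl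
@[simp] theorem cost_blk_cons (c : Cmd V B) (cs : List (Cmd V B)) (s : St V B) :
    (blk (c :: cs)).cost N w s = c.cost N w s + (blk cs).cost N w (c.exec N w s) := rfl
@[simp] theorem wv_blk_nil : (blk ([] : List (Cmd V B))).wv = ∅ := rfl
@[simp] theorem wv_blk_cons (c : Cmd V B) (cs : List (Cmd V B)) :
    (blk (c :: cs)).wv = c.wv ∪ (blk cs).wv := rfl
@[simp] theorem wb_blk_nil : (blk ([] : List (Cmd V B))).wb = ∅ := rfl
@[simp] theorem wb_blk_cons (c : Cmd V B) (cs : List (Cmd V B)) :
    (blk (c :: cs)).wb = c.wb ∪ (blk cs).wb := rfl
@[simp] theorem deg_blk_nil : (blk ([] : List (Cmd V B))).deg = 0 := rfl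
@[simp] theorem deg_blk_cons (c : Cmd V B) (cs : List (Cmd V B)) :
    (blk (c :: cs)).deg = max c.deg (blk cs).deg := rfl
@[simp] theorem WF_blk_nil : (blk ([] : List (Cmd V B))).WF := trivial
@[simp] theorem WF_blk_cons (c : Cmd V B) (cs : List (Cmd V B)) :
    (blk (c :: cs)).WF ↔ c.WF ∧ (blk cs).WF := Iff.rfl

end

/-- Move the head to the next separator (or to the end). -/
def seek : Cmd (Vr r k D) Fl :=
  .loop .ta (blk [.op (.peek (fun o => decide (o = some Sym.sep)) .f2),
    .ite (fun b => b .f2) (.op .nop) (.op .adv)])

@[simp] theorem seek_wv : (seek : Cmd (Vr r k D) Fl).wv = {.ta} := by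
  simp [seek, Cmd.wv, Op.wv]

@[simp] theorem seek_wb : (seek : Cmd (Vr r k D) Fl).wb = {.f2} := by
  simp [seek, Cmd.wb, Op.wb]

@[simp] theorem seek_deg : (seek : Cmd (Vr r k D) Fl).deg = 1 := by
  simp [seek, Cmd.deg, Op.deg]

@[simp] theorem seek_WF : (seek : Cmd (Vr r k D) Fl).WF := by
  simp [seek, Cmd.WF, Op.WF, Cmd.wv, Op.wv]

theorem seek_spec (s : St (Vr r k D) Fl) (hok : s.ok N w) (d : ℕ) (hd : d ≤ N)
    (hp : s.p + d ≤ w.length) (hrun : ∀ q, q < d → w[s.p + q]? ≠ some Sym.sep)
    (hend : w[s.p + d]? = some Sym.sep ∨ s.p + d = w.length) :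
    (seek.exec N w s).p = s.p + d := by
  have key := loop_inv (N := N) (w := w) (i := Vr.ta)
    (a := blk [.op (.peek (fun o => decide (o = some Sym.sep)) .f2),
      .ite (fun b => b .f2) (.op .nop) (.op .adv)])
    (by simp [Cmd.wv, Op.wv]) (fun t s' => s'.p = s.p + min t d) s hok (by simp [Op.exec])
    (by
      intro t ht s' hok' hti hfv hfb hI
      simp only [exec_blk_cons, exec_blk_nil, Cmd.exec, Op.exec]
      simp only [hI, update_self]
      rcases Nat.lt_or_ge t d with h | h
      · have e1 : min t d = t := by omega
        have e2 : min (t + 1) d = t + 1 := by omega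
        rw [e1, e2]
        have := hrun t h
        simp only [this, decide_false, Bool.false_eq_true, if_false]
        omega
      · have e1 : min t d = d := by omega
        have e2 : min (t + 1) d = d := by omega
        rw [e1, e2]
        rcases hend with h1 | h1
        · simp only [h1, decide_true, if_true]
        · by_cases h2 : w[s.p + d]? = some Sym.sep
          · simp only [h2, decide_true, if_true]
          · simp only [h2, decide_false, Bool.false_eq_true, if_false]
            omega)
  rw [show min N d = d by omega] at key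
  exact key

/-- Test adjacency of the `L`-vertex in counter `i` and the `R`-vertex in counter `j`. -/
def edge (i j : Vr r k D) : Cmd (Vr r k D) Fl :=
  blk [.op .rew,
    .loop .tb (blk [.op (.le .tb j .f1), .ite (fun b => b .f1) (blk [seek, .op .adv]) (.op .nop)]),
    .loop .tb (blk [.op (.le i .tb .f1), .ite (fun b => b .f1) (.op .nop)
      (blk [.op (.peek (fun o => decide (o = some Sym.one ∨ o = some Sym.zero)) .f2),
        .ite (fun b => b .f2) (.op .adv) (.op .nop)])]),
    .op (.peek (fun o => decide (o = some Sym.one)) .e)]

theorem edge_wv (i j : Vr r k D) : (edge i j).wv = {.ta, .tb} := by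
  ext v
  simp [edge, Cmd.wv, Op.wv]
  tauto

theorem edge_wb (i j : Vr r k D) : (edge i j).wb = {.e, .f1, .f2} := by
  ext v
  simp [edge, Cmd.wb, Op.wb]
  tauto

theorem edge_deg (i j : Vr r k D) : (edge i j).deg = 2 := by
  simp [edge, Cmd.deg, Op.deg]

theorem edge_WF (i j : Vr r k D) (hi : i ≠ .tb) (hj : j ≠ .tb) : (edge i j).WF := by
  simp [edge, Cmd.WF, Op.WF, Cmd.wv, Op.wv, hi, hj.symm]

/-- Head position after passing `u` separators. -/
def posOf (l r' : ℕ) (u : ℕ) : ℕ :=
  if u = 0 then 0 else if u ≤ r' then l + (u - 1) * (l + 1) + 1 else l + r' * (l + 1)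

theorem posOf_step (l r' : ℕ) (E : ℕ → ℕ → Bool) (hN : N = l + r')
    (hw : w = encW l r' E) (u : ℕ) (s : St (Vr r k D) Fl) (hok : s.ok N w)
    (hs : s.p = posOf l r' u) :
    ((Op.adv : Op (Vr r k D) Fl).exec N w (seek.exec N w s)).p = posOf l r' (u + 1) := by
  have hlen : w.length = l + r' * (l + 1) := by rw [hw, encW_length]
  rcases Nat.lt_or_ge u r' with h | h
  · -- there is a further separator
    have hpos : s.p + l = l + u * (l + 1) := by
      rw [hs]
      unfold posOf
      rcases Nat.eq_zero_or_pos u with h0 | h0
      · subst h0; simp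
      · obtain ⟨u', rfl⟩ : ∃ u', u = u' + 1 := ⟨u - 1, by omega⟩
        simp only [Nat.add_eq_zero_iff, one_ne_zero, and_false, if_false, h.le, if_true]
        rw [show u' + 1 - 1 = u' by omega]
        ring
    have hsep : w[s.p + l]? = some Sym.sep := by rw [hpos, hw]; exact encW_sep l r' E h
    have hple : s.p + l < w.length := by
      by_contra hcon
      rw [List.getElem?_eq_none (by omega)] at hsep
      cases hsep
    have := seek_spec (N := N) (w := w) s hok l (by omega) hple.le (by
      intro q hq
      rcases Nat.eq_zero_or_pos u with h0 | h0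
      · subst h0
        have : s.p = 0 := by rw [hs]; simp [posOf]
        rw [this, zero_add, hw, encW_mark l r' E hq]
        simp
      · have e1 : s.p + q = l + (u - 1) * (l + 1) + 1 + q := by
          rw [hs]
          unfold posOf
          rw [if_neg (by omega), if_pos h.le]
        rw [e1, hw, encW_bit l r' E hq (by omega : u - 1 < r')]
        cases E q (u - 1) <;> simp [bitSym]) (Or.inl hsep)
    simp only [Op.exec, this]
    rw [show min (s.p + l + 1) w.length = s.p + l + 1 by omega, hpos]
    unfold posOf
    rw [if_neg (by omega), if_pos (by omega)]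
    simp
  · -- run to the end
    rcases Nat.lt_or_ge r' u with h' | h'
    · have hp : s.p = w.length := by
        rw [hs, hlen]; unfold posOf
        rw [if_neg (by omega), if_neg (by omega)]
      have := seek_spec (N := N) (w := w) s hok 0 (by omega) (by omega) (by intro q hq; omega)
        (Or.inr (by omega))
      simp only [Op.exec, this]
      unfold posOf
      rw [if_neg (by omega), if_neg (by omega)]
      omega
    · have hu : u = r' := by omega
      subst hu
      have hpos : s.p + l = w.length := by
        rw [hs, hlen]
        unfold posOf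
        rcases Nat.eq_zero_or_pos u with h0 | h0
        · subst h0; simp
        · obtain ⟨u', rfl⟩ : ∃ u', u = u' + 1 := ⟨u - 1, by omega⟩
          simp only [Nat.add_eq_zero_iff, one_ne_zero, and_false, if_false, le_refl, if_true]
          rw [show u' + 1 - 1 = u' by omega]
          ring
      have := seek_spec (N := N) (w := w) s hok l (by omega) hpos.le (by
        intro q hq
        rcases Nat.eq_zero_or_pos u with h0 | h0
        · subst h0
          have : s.p = 0 := by rw [hs]; simp [posOf]
          rw [this, zero_add, hw, encW_mark l 0 E hq]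
          simp
        · have e1 : s.p + q = l + (u - 1) * (l + 1) + 1 + q := by
            rw [hs]
            unfold posOf
            rw [if_neg (by omega), if_pos le_rfl]
          rw [e1, hw, encW_bit l u E hq (by omega : u - 1 < u)]
          cases E q (u - 1) <;> simp [bitSym]) (Or.inr hpos)
      simp only [Op.exec, this]
      rw [show min (s.p + l + 1) w.length = w.length by omega, hlen]
      unfold posOf
      rw [if_neg (by omega), if_neg (by omega)]

/-- The word `w` encodes the bipartite graph with adjacency function `E`. -/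
structure Good (N : ℕ) (w : List Sym) (E : ℕ → ℕ → Bool) : Prop where
  ex : ∃ l r', N = l + r' ∧ w = encW l r' E ∧ ∀ x y, E x y = true → x < l ∧ y < r'

theorem edge_spec {E : ℕ → ℕ → Bool} (hG : Good N w E) (i j : Vr r k D)
    (hi : i ≠ .ta ∧ i ≠ .tb) (hj : j ≠ .ta ∧ j ≠ .tb) (s : St (Vr r k D) Fl) (hok : s.ok N w)
    (hjN : s.v j < N) :
    ((edge i j).exec N w s).b .e = E (s.v i) (s.v j) := by
  obtain ⟨l, r', hN, hw, hE⟩ := hG.ex
  have hlen : w.length = l + r' * (l + 1) := by rw [hw, encW_length]
  set s1 := (Op.rew : Op (Vr r k D) Fl).exec N w s with hs1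
  have hok1 : s1.ok N w := Op.exec_ok _ _ hok
  have h1 := loop_inv (N := N) (w := w) (i := Vr.tb)
    (a := blk [.op (.le .tb j .f1), .ite (fun b => b .f1) (blk [seek, .op .adv]) (.op .nop)])
    (by simp [Cmd.wv, Op.wv]) (fun t s' => s'.p = posOf l r' (min t (s.v j + 1))) s1 hok1
    (by simp [hs1, Op.exec, posOf])
    (by
      intro t ht s' hok' hti hfv hfb hI
      have hvj : s'.v j = s.v j := by
        rw [hfv j (by simp [Cmd.wv, Op.wv, hj.1]) hj.2]
        simp [hs1, Op.exec]
      simp only [exec_blk_cons, exec_blk_nil, Cmd.exec, Op.exec, update_self, hti, hvj]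
      rcases Nat.lt_or_ge (s.v j) t with h | h
      · have e1 : min t (s.v j + 1) = s.v j + 1 := by omega
        have e2 : min (t + 1) (s.v j + 1) = s.v j + 1 := by omega
        rw [e2]
        rw [e1] at hI
        simp only [show ¬ (t ≤ s.v j) by omega, decide_false, Bool.false_eq_true, if_false]
        exact hI
      · have e1 : min t (s.v j + 1) = t := by omega
        have e2 : min (t + 1) (s.v j + 1) = t + 1 := by omega
        rw [e2]
        rw [e1] at hI
        simp only [h, decide_true, if_true]
        exact posOf_step l r' E hN hw t _ ⟨hok'.1, hok'.2⟩ hI)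
  rw [show min N (s.v j + 1) = s.v j + 1 by omega] at h1
  set s2 := (Cmd.loop Vr.tb (blk [.op (.le .tb j .f1), .ite (fun b => b .f1)
    (blk [seek, .op .adv]) (.op .nop)])).exec N w s1 with hs2
  have hok2 : s2.ok N w := Cmd.exec_ok _ _ hok1
  have hvi2 : s2.v i = s.v i := by
    rw [hs2, Cmd.exec_v _ _ (by simp [Cmd.wv, Op.wv, hi.1, hi.2])]
    simp [hs1, Op.exec]
  have hviN : s.v i ≤ N := hok.1 i
  by_cases hy : s.v j < r'
  · have hp2 : s2.p = l + s.v j * (l + 1) + 1 := by
      rw [h1]; unfold posOf
      rw [if_neg (by omega), if_pos (by omega)]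
      simp
    have hend : ∀ o : Option Sym, w[s2.p + l]? = o → o ≠ some Sym.one ∧ o ≠ some Sym.zero := by
      intro o ho
      subst ho
      rcases Nat.lt_or_ge (s.v j + 1) r' with h | h
      · have := encW_sep l r' E h
        rw [← hw, show l + (s.v j + 1) * (l + 1) = s2.p + l by rw [hp2]; ring] at this
        rw [this]; simp
      · have : s.v j + 1 = r' := by omega
        rw [List.getElem?_eq_none]
        · simp
        · rw [hlen, hp2, ← this]
          apply le_of_eq
          ring
    have hple : s2.p + l ≤ w.length := by
      rw [hp2, hlen]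
      have : (s.v j + 1) * (l + 1) ≤ r' * (l + 1) := Nat.mul_le_mul_right _ hy
      nlinarith
    have h2 := loop_inv (N := N) (w := w) (i := Vr.tb)
      (a := blk [.op (.le i .tb .f1), .ite (fun b => b .f1) (.op .nop)
        (blk [.op (.peek (fun o => decide (o = some Sym.one ∨ o = some Sym.zero)) .f2),
          .ite (fun b => b .f2) (.op .adv) (.op .nop)])])
      (by simp [Cmd.wv, Op.wv]) (fun t s' => s'.p = s2.p + min (min t (s.v i)) l) s2 hok2
      (by simp [Op.exec])
      (by
        intro t ht s' hok' hti hfv hfb hI
        have hvi : s'.v i = s.v i := by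
          rw [hfv i (by simp [Cmd.wv, Op.wv]) hi.2, hvi2]
        simp only [exec_blk_cons, exec_blk_nil, Cmd.exec, Op.exec, update_self, hti, hvi]
        rcases Nat.lt_or_ge t (s.v i) with h | h
        · simp only [show ¬ (s.v i ≤ t) by omega, decide_false, Bool.false_eq_true, if_false]
          rcases Nat.lt_or_ge t l with h' | h'
          · have e1 : min (min t (s.v i)) l = t := by omega
            have e2 : min (min (t + 1) (s.v i)) l = t + 1 := by omega
            rw [e1] at hI
            have hb : w[s'.p]? = some (bitSym (E t (s.v j))) := by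
              rw [hI, hp2, hw]
              exact encW_bit l r' E h' hy
            have hb' : decide (w[s'.p]? = some Sym.one ∨ w[s'.p]? = some Sym.zero) = true := by
              rw [hb]
              cases E t (s.v j) <;> simp [bitSym]
            rw [hb', if_pos rfl, e2, hI]
            simp only
            omega
          · have e1 : min (min t (s.v i)) l = l := by omega
            have e2 : min (min (t + 1) (s.v i)) l = l := by omega
            rw [e1] at hI
            have hb := hend _ rfl
            rw [← hI] at hb
            have hb' : decide (w[s'.p]? = some Sym.one ∨ w[s'.p]? = some Sym.zero) = false := by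
              simp [hb.1, hb.2]
            rw [hb', if_neg (by simp), e2, hI]
        · simp only [h, decide_true, if_true]
          rw [hI]
          congr 2
          omega)
    rw [show min N (s.v i) = s.v i by omega] at h2
    set s3 := (Cmd.loop Vr.tb (blk [.op (.le i .tb .f1), .ite (fun b => b .f1) (.op .nop)
        (blk [.op (.peek (fun o => decide (o = some Sym.one ∨ o = some Sym.zero)) .f2),
          .ite (fun b => b .f2) (.op .adv) (.op .nop)])])).exec N w s2 with hs3
    have hfin : ((edge i j).exec N w s).b .e = decide (w[s3.p]? = some Sym.one) := by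
      exact Function.update_self (f := s3.b) Fl.e (decide (w[s3.p]? = some Sym.one))
    rw [hfin, h2]
    rcases Nat.lt_or_ge (s.v i) l with h | h
    · rw [show min (s.v i) l = s.v i by omega, hp2, hw, encW_bit l r' E h hy]
      cases E (s.v i) (s.v j) <;> simp [bitSym]
    · rw [show min (s.v i) l = l by omega]
      have hb := hend _ rfl
      have : E (s.v i) (s.v j) = false := by
        by_contra hcon
        have := (hE _ _ (by simpa using hcon)).1
        omega
      rw [this]
      simp [hb.1]
  · have hp2 : s2.p = w.length := by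
      rw [h1, hlen]; unfold posOf
      rw [if_neg (by omega), if_neg (by omega)]
    have hnone : w[w.length]? = none := by simp
    have h2 := loop_inv (N := N) (w := w) (i := Vr.tb)
      (a := blk [.op (.le i .tb .f1), .ite (fun b => b .f1) (.op .nop)
        (blk [.op (.peek (fun o => decide (o = some Sym.one ∨ o = some Sym.zero)) .f2),
          .ite (fun b => b .f2) (.op .adv) (.op .nop)])])
      (by simp [Cmd.wv, Op.wv]) (fun t s' => s'.p = w.length) s2 hok2
      (by simp [Op.exec, hp2])
      (by
        intro t ht s' hok' hti hfv hfb hI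
        simp only [exec_blk_cons, exec_blk_nil, Cmd.exec, Op.exec, update_self, hI]
        split
        · rfl
        · simp only [hnone, reduceCtorEq, or_self, decide_false, Bool.false_eq_true, if_false])
    set s3 := (Cmd.loop Vr.tb (blk [.op (.le i .tb .f1), .ite (fun b => b .f1) (.op .nop)
        (blk [.op (.peek (fun o => decide (o = some Sym.one ∨ o = some Sym.zero)) .f2),
          .ite (fun b => b .f2) (.op .adv) (.op .nop)])])).exec N w s2 with hs3
    have hfin : ((edge i j).exec N w s).b .e = decide (w[s3.p]? = some Sym.one) := by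
      exact Function.update_self (f := s3.b) Fl.e (decide (w[s3.p]? = some Sym.one))
    rw [hfin, h2, hnone]
    have : E (s.v i) (s.v j) = false := by
      by_contra hcon
      have := (hE _ _ (by simpa using hcon)).2
      omega
    rw [this]
    simp

end Pool.Agent.Lib.MP_64f491_lc
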