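import Pool.Agent.Lib.MP_64f491_lc.Compile

/-! # From a command of the loop language to a bundled Turing machine -/

namespace Pool.Agent.Lib.MP_64f491_lc

set_option linter.unusedSectionVars false
set_option linter.unusedSimpArgs false

open Function Turing

variable {V B : Type} [DecidableEq V] [DecidableEq B] [Fintype V] [Fintype B]

/-- Symbols that are counted to obtain the bound `N`. -/
def isMS : Sym → Bool
  | .mark => true
  | .sep => true
  | _ => false

section Aux
variable {Λ : Type}

/-- Push one unit on every stack `R i`, `i` in the list. -/
def pushAll (l : List V) (q : TM2.Stmt (Gam V) Λ (Sg B)) : TM2.Stmt (Gam V) Λ (Sg B) :=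
  l.foldr (fun i q => TM2.Stmt.push (.R i) (fun _ => ()) q) q

theorem stepAux_pushAll (l : List V) (hl : l.Nodup) (q : TM2.Stmt (Gam V) Λ (Sg B)) (v : Sg B)
    (S : ∀ k, List (Gam V k)) :
    TM2.stepAux (pushAll l q) v S = TM2.stepAux q v (fun k => match k with
      | .R i => if i ∈ l then () :: S (.R i) else S (.R i)
      | .L i => S (.L i)
      | .T => S .T
      | .inL => S .inL
      | .inR => S .inR
      | .out => S .out) := by
  induction l generalizing S with
  | nil =>
    simp only [pushAll, List.foldr_nil, List.not_mem_nil, if_false]
    congr 1
    funext k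
    cases k <;> rfl
  | cons a l ih =>
    have hnd := List.nodup_cons.1 hl
    have := ih hnd.2 (update S (.R a) (() :: S (.R a)))
    simp only [pushAll, List.foldr_cons, TM2.stepAux] at this ⊢
    rw [this]
    congr 1
    funext k
    cases k with
    | R i =>
      by_cases hia : i = a
      · subst hia
        simp [hnd.1]
      · simp [hia]
    | _ => simp

/-- Pop every stack in the list, remembering whether some stack was non-empty. -/
def popAll (l : List (SK V)) (q : TM2.Stmt (Gam V) Λ (Sg B)) : TM2.Stmt (Gam V) Λ (Sg B) :=
  l.foldr (fun k q => TM2.Stmt.pop k (fun s a => (s.1, s.2.1 || a.isSome, s.2.2)) q) q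

theorem stepAux_popAll (l : List (SK V)) (hl : l.Nodup) (q : TM2.Stmt (Gam V) Λ (Sg B))
    (v : Sg B) (S : ∀ k, List (Gam V k)) :
    TM2.stepAux (popAll l q) v S =
      TM2.stepAux q (v.1, v.2.1 || l.any (fun k => (S k).head?.isSome), v.2.2)
        (fun k => if k ∈ l then (S k).tail else S k) := by
  induction l generalizing S v with
  | nil => simp [popAll]
  | cons a l ih =>
    have hnd := List.nodup_cons.1 hl
    have := ih hnd.2 (v.1, v.2.1 || (S a).head?.isSome, v.2.2) (update S a (S a).tail)
    simp only [popAll, List.foldr_cons, TM2.stepAux] at this ⊢
    rw [this]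
    congr 1
    · have : (l.any fun k => (update S a (S a).tail k).head?.isSome)
          = l.any (fun k => (S k).head?.isSome) := by
        rw [Bool.eq_iff_iff, List.any_eq_true, List.any_eq_true]
        constructor
        · rintro ⟨k, hk, h⟩
          refine ⟨k, hk, ?_⟩
          have : k ≠ a := fun h => hnd.1 (h ▸ hk)
          rwa [update_of_ne this] at h
        · rintro ⟨k, hk, h⟩
          refine ⟨k, hk, ?_⟩
          have : k ≠ a := fun h => hnd.1 (h ▸ hk)
          rwa [update_of_ne this]
      rw [this]
      simp [Bool.or_assoc]
    · funext k
      by_cases hka : k = a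
      · subst hka
        simp [hnd.1]
      · simp [hka]

end Aux

/-- Stacks to be emptied at the end. -/
noncomputable def junk (V : Type) [DecidableEq V] [Fintype V] : List (SK V) :=
  (Finset.univ.erase SK.out).toList

/-- Labels of the whole machine. -/
abbrev MLab (c : Cmd V B) : Type := Fin 2 ⊕ (Lab c ⊕ Fin 2)

instance (c : Cmd V B) : Fintype (MLab c) :=
  letI := Lab.fintype c
  inferInstance

open TM2.Stmt in
/-- The machine's program. -/
noncomputable def mcode (c : Cmd V B) (acc : B) : MLab c → TM2.Stmt (Gam V) (MLab c) (Sg B)
  | .inl 0 =>
      pop .inR (fun s a => (s.1, s.2.1, s.2.2.1, a)) <|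
      branch (fun s => s.2.2.2.isSome)
        (branch (fun s => isMS (s.2.2.2.getD Sym.mark))
          (pushAll Finset.univ.toList <| push .inL (fun s => s.2.2.2.getD Sym.mark) <|
            load (fun s => (s.1, false, false, none)) <| goto fun _ => .inl 0)
          (push .inL (fun s => s.2.2.2.getD Sym.mark) <|
            load (fun s => (s.1, false, false, none)) <| goto fun _ => .inl 0))
        (load (fun s => (s.1, false, false, none)) <| goto fun _ => .inl 1)
  | .inl 1 => (Op.rew : Op V B).code (fun _ => .inl 1) (.inr (.inl (entry c))) 0
  | .inr (.inl l) => code c (fun l => .inr (.inl l)) (.inr (.inr 0)) l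
  | .inr (.inr 0) => push .out (fun s => s.1 acc) <| goto fun _ => .inr (.inr 1)
  | .inr (.inr 1) =>
      popAll (junk V) <|
      branch (fun s => s.2.1)
        (load (fun s => (s.1, false, false, none)) <| goto fun _ => .inr (.inr 1))
        (load (fun _ => (fun _ => false, false, false, none)) <| halt)

instance gamFintype (V : Type) : (k : SK V) → Fintype (Gam V k)
  | .inL => inferInstanceAs (Fintype Sym)
  | .inR => inferInstanceAs (Fintype Sym)
  | .out => inferInstanceAs (Fintype Bool)
  | .L _ => inferInstanceAs (Fintype Unit)
  | .R _ => inferInstanceAs (Fintype Unit)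
  | .T => inferInstanceAs (Fintype Unit)

/-- The bundled machine of a command. -/
noncomputable def mach (c : Cmd V B) (acc : B) : FinTM2 where
  K := SK V
  k₀ := .inR
  k₁ := .out
  Γ := Gam V
  Λ := MLab c
  main := .inl 0
  σ := Sg B
  initialState := (fun _ => false, false, false, none)
  Γk₀Fin := gamFintype V .inR
  m := mcode c acc

/-- Initial state of the loop language. -/
def St.init : St V B := ⟨fun _ => 0, fun _ => false, 0⟩

/-- Stack contents during the scan of the input. -/
def scanStk (pre suf : List Sym) : ∀ k : SK V, List (Gam V k)
  | .L _ => []
  | .R _ => List.replicate (pre.countP isMS) ()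
  | .T => []
  | .inL => pre.reverse
  | .inR => suf
  | .out => []

theorem scan_reach (c : Cmd V B) (acc : B) (suf : List Sym) : ∀ pre : List Sym,
    Rch (mcode c acc) (suf.length + 1)
      ⟨some (.inl 0), (fun _ => false, false, false, none), scanStk pre suf⟩
      ⟨some (.inl 1), (fun _ => false, false, false, none), scanStk (pre ++ suf) []⟩ := by
  induction suf with
  | nil =>
    intro pre
    apply Rch.step
    simp only [TM2.step, mcode, TM2.stepAux, scanStk, List.head?_nil, Option.isSome_none,
      cond_false, List.tail_nil, Option.some.injEq, TM2.Cfg.mk.injEq, true_and, List.append_nil]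
    funext k
    rcases k with c | c | _ | _ | _ | _ <;> simp [scanStk]
  | cons a suf ih =>
    intro pre
    have h1 : Rch (mcode c acc) 1
        ⟨some (.inl 0), (fun _ => false, false, false, none), scanStk pre (a :: suf)⟩
        ⟨some (.inl 0), (fun _ => false, false, false, none), scanStk (pre ++ [a]) suf⟩ := by
      apply Rch.step
      simp only [TM2.step, mcode, TM2.stepAux, scanStk, List.head?_cons, Option.isSome_some,
        cond_true, List.tail_cons, Option.getD_some]
      by_cases ha : isMS a = true
      · rw [ha, cond_true, stepAux_pushAll _ (Finset.nodup_toList _)]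
        simp only [TM2.stepAux, Option.some.injEq, TM2.Cfg.mk.injEq, true_and,
          Option.getD_some]
        funext k
        rcases k with c | c | _ | _ | _ | _
        · simp [scanStk]
        · simp [scanStk, List.countP_append, ha, List.replicate_succ]
        · simp [scanStk]
        · simp [scanStk]
        · simp [scanStk]
        · simp [scanStk]
      · have ha' : isMS a = false := by simpa using ha
        rw [ha', cond_false]
        simp only [TM2.stepAux, Option.some.injEq, TM2.Cfg.mk.injEq, true_and,
          Option.getD_some]
        funext k
        rcases k with c | c | _ | _ | _ | _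
        · simp [scanStk]
        · simp [scanStk, List.countP_append, ha']
        · simp [scanStk]
        · simp [scanStk]
        · simp [scanStk]
        · simp [scanStk]
    have h2 := h1.trans (ih (pre ++ [a]))
    rw [List.append_assoc, List.singleton_append] at h2
    exact h2.mono (by simp only [List.length_cons]; omega)

theorem clean_reach (c : Cmd V B) (acc : B) (n : ℕ) : ∀ (f : B → Bool)
    (S : ∀ k, List (Gam V k)), (∀ k, k ≠ SK.out → (S k).length ≤ n) →
    Rch (mcode c acc) (n + 1)
      ⟨some (.inr (.inr 1)), (f, false, false, none), S⟩
      ⟨none, (fun _ => false, false, false, none), fun k => match k with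
        | .out => S .out
        | .L _ => []
        | .R _ => []
        | .T => []
        | .inL => []
        | .inR => []⟩ := by
  have hmem : ∀ k : SK V, k ∈ junk V ↔ k ≠ SK.out := by
    intro k; simp [junk]
  have hnd : (junk V).Nodup := Finset.nodup_toList _
  induction n with
  | zero =>
    intro f S hS
    apply Rch.step
    have hany : ((junk V).any fun k => (S k).head?.isSome) = false := by
      rw [List.any_eq_false]
      intro k hk
      have := hS k ((hmem k).1 hk)
      have : S k = [] := List.length_eq_zero_iff.1 (by omega)
      simp [this]
    simp only [TM2.step, mcode, stepAux_popAll _ hnd, TM2.stepAux, hany, Bool.or_false,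
      cond_false, Option.some.injEq, TM2.Cfg.mk.injEq, true_and]
    funext k
    by_cases hk : k = SK.out
    · subst hk
      have : SK.out ∉ junk V := by simp [junk]
      simp [this]
    · have h0 := hS k hk
      have h1 : S k = [] := List.length_eq_zero_iff.1 (by omega)
      have h2 : k ∈ junk V := (hmem k).2 hk
      cases k <;> simp_all
  | succ n ih =>
    intro f S hS
    by_cases hany : ((junk V).any fun k => (S k).head?.isSome) = true
    · have h1 : Rch (mcode c acc) 1 ⟨some (.inr (.inr 1)), (f, false, false, none), S⟩
          ⟨some (.inr (.inr 1)), (f, false, false, none),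
            fun k => if k ∈ junk V then (S k).tail else S k⟩ := by
        apply Rch.step
        simp only [TM2.step, mcode, stepAux_popAll _ hnd, TM2.stepAux, hany, Bool.or_true,
          cond_true]
      have h2 := h1.trans (ih f (fun k => if k ∈ junk V then (S k).tail else S k) (by
        intro k hk
        have := hS k hk
        simp only [(hmem k).2 hk, if_true, List.length_tail]
        omega))
      have hout : SK.out ∉ junk V := by simp [junk]
      simp only [hout, if_false] at h2
      exact h2.mono (by omega)
    · have hany' : ((junk V).any fun k => (S k).head?.isSome) = false := by simpa using hany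
      refine Rch.mono (T1 := 1) (Rch.step ?_) (by omega)
      simp only [TM2.step, mcode, stepAux_popAll _ hnd, TM2.stepAux, hany', Bool.or_false,
        cond_false, Option.some.injEq, TM2.Cfg.mk.injEq, true_and]
      funext k
      by_cases hk : k = SK.out
      · subst hk
        have : SK.out ∉ junk V := by simp [junk]
        simp [this]
      · have h2 : k ∈ junk V := (hmem k).2 hk
        have h3 := (List.any_eq_false.1 hany') k h2
        have h1 : S k = [] := by
          cases hSk : S k with
          | nil => rfl
          | cons a l => rw [hSk] at h3; simp at h3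
        cases k <;> simp_all

/-- The machine of a well-formed command computes the value of the flag `acc`. -/
theorem mach_outputs (c : Cmd V B) (hc : c.WF) (acc : B) (w : List Sym) :
    Nonempty (TM2OutputsInTime (mach c acc) w
      (some [(c.exec (w.countP isMS) w (St.init : St V B)).b acc])
      (c.cost (w.countP isMS) w (St.init : St V B) + 4 * w.length + 5)) := by
  set N := w.countP isMS with hN
  have hNw : N ≤ w.length := List.countP_le_length
  set s1 := c.exec N w (St.init : St V B) with hs1
  have hok0 : (St.init : St V B).ok N w := ⟨fun _ => Nat.zero_le _, Nat.zero_le _⟩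
  have hok1 : s1.ok N w := Cmd.exec_ok c _ hok0
  have h1 := scan_reach c acc w []
  rw [List.nil_append] at h1
  have e1 : (⟨some (.inl 1), (fun _ => false, false, false, none), scanStk w []⟩ :
      TM2.Cfg (Gam V) (MLab c) (Sg B)) =
      St.cfg N w (.inl 1) { (St.init : St V B) with p := w.length } 0 := by
    simp only [St.cfg, TM2.Cfg.mk.injEq, true_and, St.init]
    funext k
    rcases k with c | c | _ | _ | _ | _ <;> simp [scanStk, St.stk, hN]
  rw [e1] at h1
  have h2 := rew_reach (N := N) (w := w) (mcode c acc) (fun _ => .inl 1)
    (.inr (.inl (entry c))) (by rfl) w.length (St.init : St V B) 0 le_rfl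
  have e2 : ({ (St.init : St V B) with p := 0 } : St V B) = St.init := rfl
  rw [e2] at h2
  have h3 := cmd_reach (N := N) (w := w) c hc (mcode c acc) (fun l => .inr (.inl l))
    (.inr (.inr 0)) (fun l => rfl) St.init hok0
  have h4 : Rch (mcode c acc) 1 (s1.cfg N w (.inr (.inr 0)) 0)
      ⟨some (.inr (.inr 1)), (s1.b, false, false, none),
        update (s1.stk N w 0) .out [s1.b acc]⟩ := by
    apply Rch.step
    simp only [St.cfg, TM2.step, mcode, TM2.stepAux]
    rfl
  have h5 := clean_reach c acc w.length s1.b (update (s1.stk N w 0) .out [s1.b acc]) (by
    intro k hk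
    rw [update_of_ne hk]
    have hv := hok1.1
    rcases k with i | i | _ | _ | _ | _
    · simp only [St.stk, List.length_replicate]; exact (hv i).trans hNw
    · simp only [St.stk, List.length_replicate]; omega
    · simp [St.stk]
    · simp only [St.stk, List.length_reverse, List.length_take]; omega
    · simp only [St.stk, List.length_drop]; omega
    · exact absurd rfl hk)
  have h := (((h1.trans h2).trans h3).trans h4).trans h5
  obtain ⟨t, ht, he⟩ := h
  have ei : (⟨some (.inl 0), (fun _ => false, false, false, none), scanStk [] w⟩ :
      TM2.Cfg (Gam V) (MLab c) (Sg B)) = initList (mach c acc) w := by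
    simp only [initList, mach]
    congr 1
    funext k
    rcases k with c | c | _ | _ | _ | _ <;> simp [scanStk]
  have ef : (⟨none, (fun _ => false, false, false, none), fun k => match k with
        | .out => (update (s1.stk N w 0) .out [s1.b acc] : ∀ k, List (Gam V k)) .out
        | .L _ => []
        | .R _ => []
        | .T => []
        | .inL => []
        | .inR => []⟩ : TM2.Cfg (Gam V) (MLab c) (Sg B)) = haltList (mach c acc) [s1.b acc] := by
    simp only [haltList, mach]
    congr 1
    funext k
    rcases k with c | c | _ | _ | _ | _ <;> simp
  rw [ei, ef] at he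
  exact ⟨⟨⟨t, he⟩, by change t ≤ _; omega⟩⟩

end Pool.Agent.Lib.MP_64f491_lc
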