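import Pool.Agent.Lib.MP_64f491_lc.Rules
import Pool.Agent.Lib.MP_64f491_lc.Machine

/-! # Positions of symbols in the input word -/

namespace Pool.Agent.Lib.MP_64f491_lc

set_option linter.unusedSectionVars false
set_option linter.unusedSimpArgs false

/-- The bit symbol. -/
def bitSym (b : Bool) : Sym := if b then Sym.one else Sym.zero

/-- The encoding in terms of a function on natural numbers. -/
def encW (l r : ℕ) (E : ℕ → ℕ → Bool) : List Sym :=
  List.replicate l Sym.mark ++
    (List.range r).flatMap fun y => Sym.sep :: (List.range l).map fun x => bitSym (E x y)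

theorem encW_succ (l r : ℕ) (E : ℕ → ℕ → Bool) :
    encW l (r + 1) E = encW l r E ++
      (Sym.sep :: (List.range l).map fun x => bitSym (E x r)) := by
  simp [encW, List.range_succ, List.flatMap_append]

theorem encW_length (l r : ℕ) (E : ℕ → ℕ → Bool) : (encW l r E).length = l + r * (l + 1) := by
  induction r with
  | zero => simp [encW]
  | succ r ih => rw [encW_succ, List.length_append, ih]; simp; ring

theorem encW_mark (l r : ℕ) (E : ℕ → ℕ → Bool) {p : ℕ} (hp : p < l) :
    (encW l r E)[p]? = some Sym.mark := by
  rw [encW, List.getElem?_append_left (by simpa using hp)]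
  simp [hp]

theorem encW_sep (l r : ℕ) (E : ℕ → ℕ → Bool) {y : ℕ} (hy : y < r) :
    (encW l r E)[l + y * (l + 1)]? = some Sym.sep := by
  induction r with
  | zero => omega
  | succ r ih =>
    rw [encW_succ]
    rcases Nat.lt_or_ge y r with h | h
    · rw [List.getElem?_append_left, ih h]
      rw [encW_length]
      have : (y + 1) * (l + 1) ≤ r * (l + 1) := Nat.mul_le_mul_right _ h
      nlinarith
    · have : y = r := by omega
      subst this
      rw [List.getElem?_append_right (by rw [encW_length]), encW_length]
      simp

theorem encW_bit (l r : ℕ) (E : ℕ → ℕ → Bool) {x y : ℕ} (hx : x < l) (hy : y < r) :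
    (encW l r E)[l + y * (l + 1) + 1 + x]? = some (bitSym (E x y)) := by
  induction r with
  | zero => omega
  | succ r ih =>
    rw [encW_succ]
    rcases Nat.lt_or_ge y r with h | h
    · rw [List.getElem?_append_left, ih h]
      rw [encW_length]
      have : (y + 1) * (l + 1) ≤ r * (l + 1) := Nat.mul_le_mul_right _ h
      nlinarith
    · have : y = r := by omega
      subst this
      rw [List.getElem?_append_right (by rw [encW_length]; omega), encW_length]
      have : l + y * (l + 1) + 1 + x - (l + y * (l + 1)) = x + 1 := by omega
      rw [this, List.getElem?_cons_succ]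
      simp [hx]

theorem encW_countP (l r : ℕ) (E : ℕ → ℕ → Bool) : (encW l r E).countP isMS = l + r := by
  induction r with
  | zero => simp [encW, List.countP_replicate, isMS]
  | succ r ih =>
    rw [encW_succ, List.countP_append, ih]
    have : ((List.range l).map fun x => bitSym (E x r)).countP isMS = 0 := by
      rw [List.countP_eq_zero]
      intro a ha
      rw [List.mem_map] at ha
      obtain ⟨x, _, rfl⟩ := ha
      cases E x r <;> simp [bitSym, isMS]
    rw [List.countP_cons, this]
    simp [isMS]
    ring

theorem encW_length_le (l r : ℕ) (E : ℕ → ℕ → Bool) :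
    (encW l r E).length ≤ (l + r + 1) ^ 2 := by
  rw [encW_length]
  nlinarith [Nat.zero_le l, Nat.zero_le r, Nat.zero_le (l * r)]

/-- Extension of the adjacency function to natural numbers. -/
def Inst.E (G : Inst) (x y : ℕ) : Bool :=
  if h : x < G.l ∧ y < G.r then G.adj ⟨x, h.1⟩ ⟨y, h.2⟩ else false

theorem Inst.E_bound (G : Inst) {x y : ℕ} (h : G.E x y = true) : x < G.l ∧ y < G.r := by
  unfold Inst.E at h
  split at h
  · assumption
  · cases h

theorem Inst.encode_eq (G : Inst) : G.encode = encW G.l G.r G.E := by
  unfold Inst.encode encW
  congr 1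
  rw [List.flatMap_def]
  congr 1
  apply List.ext_getElem
  · simp
  · intro i h1 h2
    simp only [List.length_ofFn] at h1
    simp only [List.getElem_ofFn, List.getElem_map, List.getElem_range, List.cons.injEq, true_and]
    apply List.ext_getElem
    · simp
    · intro j h3 h4
      simp only [List.length_ofFn] at h3
      simp only [List.getElem_ofFn, List.getElem_map, List.getElem_range]
      simp [Inst.E, h1, h3, bitSym]

end Pool.Agent.Lib.MP_64f491_lc
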