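import Pool.Agent.Lib.MP_64f491_lc.Solve

/-! # One-Sided k-Biclique in time O(n^(k-2)): the machine -/

namespace Pool.Agent.Lib.MP_64f491_lc

open Turing

theorem outputs_of_le {tm : FinTM2} {l l' : List (tm.Γ tm.k₀)} {o : Option (List (tm.Γ tm.k₁))}
    {m m' : ℕ} (hl : l' = l) (h : TM2OutputsInTime tm l o m) (hm : m ≤ m') :
    Nonempty (TM2OutputsInTime tm l' o m') := by
  subst hl
  exact ⟨⟨h.toEvalsTo, h.steps_le_m.trans hm⟩⟩

/-- For every `k ≥ 1000`, One-Sided `k`-Biclique is solved in time `O(n^(k-2))`. -/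
theorem faster (k : ℕ) (hk : 1000 ≤ k) :
    ∃ C : ℕ, SolvedWithin k fun n => C * n ^ (k - 2) + C := by
  obtain ⟨c, C, hWF, hc⟩ := solve k hk
  refine ⟨(C + 9) * 2 ^ (k - 2), ⟨mach c .acc, Equiv.refl _, Equiv.refl _⟩, ?_, fun G => ?_⟩
  · intro i
    exact @Finite.of_fintype _ (gamFintype _ i)
  · obtain ⟨h1, h2, h3⟩ := hc G
    refine ⟨(c.exec G.n G.encode St.init).b .acc, ?_, h2, h3⟩
    obtain ⟨out⟩ := mach_outputs c hWF .acc G.encode
    rw [countP_encode] at out
    have hlen := length_encode G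
    have hpow : (G.n + 1) ^ 2 ≤ (G.n + 1) ^ (k - 2) := Nat.pow_le_pow_right (by omega) (by omega)
    have hone : 1 ≤ (G.n + 1) ^ (k - 2) := Nat.one_le_pow _ _ (by omega)
    have hp2 : (G.n + 1) ^ (k - 2) ≤ 2 ^ (k - 2) * G.n ^ (k - 2) + 2 ^ (k - 2) := by
      rcases Nat.eq_zero_or_pos G.n with h0 | h0
      · rw [h0, Nat.zero_add, one_pow]
        have : 1 ≤ 2 ^ (k - 2) := Nat.one_le_two_pow
        omega
      · have : (G.n + 1) ^ (k - 2) ≤ (2 * G.n) ^ (k - 2) := Nat.pow_le_pow_left (by omega) _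
        rw [mul_pow] at this
        exact this.trans (Nat.le_add_right _ _)
    have htime : c.cost G.n G.encode St.init + 4 * G.encode.length + 5 ≤
        (C + 9) * 2 ^ (k - 2) * G.n ^ (k - 2) + (C + 9) * 2 ^ (k - 2) := by
      calc c.cost G.n G.encode St.init + 4 * G.encode.length + 5
          ≤ (C + 9) * (G.n + 1) ^ (k - 2) := by
            rw [add_mul]
            omega
        _ ≤ (C + 9) * (2 ^ (k - 2) * G.n ^ (k - 2) + 2 ^ (k - 2)) := Nat.mul_le_mul_left _ hp2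
        _ = _ := by ring
    exact outputs_of_le (List.map_id _) out htime

end Pool.Agent.Lib.MP_64f491_lc
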