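import Pool.Agent.Lib.MP_64f491_lc.Defs

/-! # A small loop language with bounded counters and a read head on the input word -/

namespace Pool.Agent.Lib.MP_64f491_lc

open Function

/-- Elementary operations. -/
inductive Op (V B : Type)
  | nop
  | inc (i : V)
  | zero (i : V)
  | le (i j : V) (g : B)
  | full (i : V) (g : B)
  | isz (i : V) (g : B)
  | set (g : B) (f : (B → Bool) → Bool)
  | adv
  | rew
  | peek (f : Option Sym → Bool) (g : B)

/-- Commands. -/
inductive Cmd (V B : Type)
  | op (o : Op V B)
  | seq (a b : Cmd V B)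
  | ite (f : (B → Bool) → Bool) (a b : Cmd V B)
  | loop (i : V) (a : Cmd V B)

/-- States. -/
@[ext]
structure St (V B : Type) where
  v : V → ℕ
  b : B → Bool
  p : ℕ

variable {V B : Type} [DecidableEq V] [DecidableEq B]

/-- All counters at most `N`, head position at most the length of the input. -/
def St.ok (N : ℕ) (w : List Sym) (s : St V B) : Prop :=
  (∀ i, s.v i ≤ N) ∧ s.p ≤ w.length

def Op.exec (N : ℕ) (w : List Sym) : Op V B → St V B → St V B
  | .nop, s => s
  | .inc i, s => { s with v := update s.v i (min (s.v i + 1) N) }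
  | .zero i, s => { s with v := update s.v i 0 }
  | .le i j g, s => { s with b := update s.b g (decide (s.v i ≤ s.v j)) }
  | .full i g, s => { s with b := update s.b g (decide (N ≤ s.v i)) }
  | .isz i g, s => { s with b := update s.b g (decide (s.v i = 0)) }
  | .set g f, s => { s with b := update s.b g (f s.b) }
  | .adv, s => { s with p := min (s.p + 1) w.length }
  | .rew, s => { s with p := 0 }
  | .peek f g, s => { s with b := update s.b g (f w[s.p]?) }

def Cmd.exec (N : ℕ) (w : List Sym) : Cmd V B → St V B → St V B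
  | .op o, s => o.exec N w s
  | .seq a b, s => b.exec N w (a.exec N w s)
  | .ite f a b, s => if f s.b then a.exec N w s else b.exec N w s
  | .loop i a, s =>
      (fun s => (Op.inc i).exec N w (a.exec N w s))^[N] ((Op.zero i).exec N w s)

/-- Cost of an elementary operation (an upper bound on machine steps). -/
def Op.cost (N W : ℕ) : Op V B → ℕ
  | .zero _ => N + 1
  | .le _ _ _ => 2 * N + 2
  | .rew => W + 1
  | _ => 1

def Cmd.cost (N : ℕ) (w : List Sym) : Cmd V B → St V B → ℕ
  | .op o, _ => o.cost N w.length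
  | .seq a b, s => a.cost N w s + b.cost N w (a.exec N w s)
  | .ite f a b, s => 1 + if f s.b then a.cost N w s else b.cost N w s
  | .loop i a, s =>
      N + 2 + ∑ t ∈ Finset.range N, (a.cost N w
        ((fun s => (Op.inc i).exec N w (a.exec N w s))^[t] ((Op.zero i).exec N w s)) + 2)

/-- Counters that an operation may change. -/
def Op.wv : Op V B → Set V
  | .inc i => {i}
  | .zero i => {i}
  | _ => ∅

/-- Flags that an operation may change. -/
def Op.wb : Op V B → Set B
  | .le _ _ g => {g}
  | .full _ g => {g}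
  | .isz _ g => {g}
  | .set g _ => {g}
  | .peek _ g => {g}
  | _ => ∅

def Cmd.wv : Cmd V B → Set V
  | .op o => o.wv
  | .seq a b => a.wv ∪ b.wv
  | .ite _ a b => a.wv ∪ b.wv
  | .loop i a => insert i a.wv

def Cmd.wb : Cmd V B → Set B
  | .op o => o.wb
  | .seq a b => a.wb ∪ b.wb
  | .ite _ a b => a.wb ∪ b.wb
  | .loop _ a => a.wb

def Op.WF : Op V B → Prop
  | .le i j _ => i ≠ j
  | _ => True

def Cmd.WF : Cmd V B → Prop
  | .op o => o.WF
  | .seq a b => a.WF ∧ b.WF
  | .ite _ a b => a.WF ∧ b.WF
  | .loop i a => i ∉ a.wv ∧ a.WF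

variable {N : ℕ} {w : List Sym}

theorem Op.exec_ok (o : Op V B) (s : St V B) (h : s.ok N w) : (o.exec N w s).ok N w := by
  obtain ⟨h1, h2⟩ := h
  cases o with
  | inc i =>
    refine ⟨fun j => ?_, h2⟩
    simp only [Op.exec]
    by_cases hj : j = i
    · subst hj; simp
    · simp [Function.update_of_ne hj, h1 j]
  | zero i =>
    refine ⟨fun j => ?_, h2⟩
    simp only [Op.exec]
    by_cases hj : j = i
    · subst hj; simp
    · simp [Function.update_of_ne hj, h1 j]
  | adv => exact ⟨h1, by simp [Op.exec]⟩
  | rew => exact ⟨h1, by simp [Op.exec]⟩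
  | _ => exact ⟨h1, h2⟩

theorem Op.exec_v (o : Op V B) (s : St V B) {j : V} (h : j ∉ o.wv) :
    (o.exec N w s).v j = s.v j := by
  cases o <;> simp_all [Op.exec, Op.wv, Function.update_of_ne]

theorem Op.exec_b (o : Op V B) (s : St V B) {g : B} (h : g ∉ o.wb) :
    (o.exec N w s).b g = s.b g := by
  cases o <;> simp_all [Op.exec, Op.wb, Function.update_of_ne]

omit [DecidableEq V] [DecidableEq B] in
theorem iterate_ok {f : St V B → St V B} (hf : ∀ s, s.ok N w → (f s).ok N w)
    (t : ℕ) (s : St V B) (h : s.ok N w) : (f^[t] s).ok N w := by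
  induction t generalizing s with
  | zero => exact h
  | succ t ih => rw [Function.iterate_succ_apply]; exact ih _ (hf _ h)

theorem Cmd.exec_ok (c : Cmd V B) (s : St V B) (h : s.ok N w) : (c.exec N w s).ok N w := by
  induction c generalizing s with
  | op o => exact o.exec_ok s h
  | seq a b iha ihb => exact ihb _ (iha _ h)
  | ite f a b iha ihb =>
    simp only [Cmd.exec]
    split
    · exact iha _ h
    · exact ihb _ h
  | loop i a iha =>
    exact iterate_ok (fun s hs => Op.exec_ok _ _ (iha _ hs)) _ _ (Op.exec_ok _ _ h)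

theorem Cmd.exec_v (c : Cmd V B) (s : St V B) {j : V} (h : j ∉ c.wv) :
    (c.exec N w s).v j = s.v j := by
  induction c generalizing s with
  | op o => exact o.exec_v s h
  | seq a b iha ihb =>
    simp only [Cmd.wv, Set.mem_union, not_or] at h
    simp only [Cmd.exec]
    rw [ihb _ h.2, iha _ h.1]
  | ite f a b iha ihb =>
    simp only [Cmd.wv, Set.mem_union, not_or] at h
    simp only [Cmd.exec]
    split
    · exact iha _ h.1
    · exact ihb _ h.2
  | loop i a iha =>
    simp only [Cmd.wv, Set.mem_insert_iff, not_or] at h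
    have key : ∀ t (s : St V B), ((fun s => (Op.inc i).exec N w (a.exec N w s))^[t] s).v j
        = s.v j := by
      intro t
      induction t with
      | zero => intro s; rfl
      | succ t ih =>
        intro s
        rw [Function.iterate_succ_apply, ih]
        rw [Op.exec_v _ _ (by simpa [Op.wv] using h.1), iha _ h.2]
    simp only [Cmd.exec]
    rw [key, Op.exec_v _ _ (by simpa [Op.wv] using h.1)]

theorem Cmd.exec_b (c : Cmd V B) (s : St V B) {g : B} (h : g ∉ c.wb) :
    (c.exec N w s).b g = s.b g := by
  induction c generalizing s with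
  | op o => exact o.exec_b s h
  | seq a b iha ihb =>
    simp only [Cmd.wb, Set.mem_union, not_or] at h
    simp only [Cmd.exec]
    rw [ihb _ h.2, iha _ h.1]
  | ite f a b iha ihb =>
    simp only [Cmd.wb, Set.mem_union, not_or] at h
    simp only [Cmd.exec]
    split
    · exact iha _ h.1
    · exact ihb _ h.2
  | loop i a iha =>
    simp only [Cmd.wb] at h
    have key : ∀ t (s : St V B), ((fun s => (Op.inc i).exec N w (a.exec N w s))^[t] s).b g
        = s.b g := by
      intro t
      induction t with
      | zero => intro s; rfl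
      | succ t ih =>
        intro s
        rw [Function.iterate_succ_apply, ih]
        rw [Op.exec_b _ _ (by simp [Op.wb]), iha _ h]
    simp only [Cmd.exec]
    rw [key, Op.exec_b _ _ (by simp [Op.wb])]

/-- Value of the loop counter during a loop whose body does not touch it. -/
theorem loop_counter {i : V} {a : Cmd V B} (hi : i ∉ a.wv) (t : ℕ) (ht : t ≤ N) (s : St V B) :
    ((fun s => (Op.inc i).exec N w (a.exec N w s))^[t] ((Op.zero i).exec N w s)).v i = t := by
  induction t with
  | zero => simp [Op.exec]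
  | succ t ih =>
    rw [Function.iterate_succ_apply']
    have h1 := ih (by omega)
    generalize ((fun s => (Op.inc i).exec N w (a.exec N w s))^[t] ((Op.zero i).exec N w s)) = s' at *
    simp only [Op.exec, update_self]
    rw [Cmd.exec_v a s' hi, h1]
    omega

/-- The loop rule. -/
theorem loop_rule {i : V} {a : Cmd V B} (hi : i ∉ a.wv) (I : ℕ → St V B → Prop) (T : ℕ → ℕ)
    (s : St V B) (hok : s.ok N w) (h0 : I 0 ((Op.zero i).exec N w s))
    (hs : ∀ t < N, ∀ s' : St V B, s'.ok N w → s'.v i = t →
      (∀ j, j ∉ a.wv → j ≠ i → s'.v j = s.v j) → (∀ g, g ∉ a.wb → s'.b g = s.b g) → I t s' →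
      a.cost N w s' ≤ T t ∧ I (t + 1) ((Op.inc i).exec N w (a.exec N w s'))) :
    I N ((Cmd.loop i a).exec N w s) ∧
      (Cmd.loop i a).cost N w s ≤ N + 2 + ∑ t ∈ Finset.range N, (T t + 2) := by
  set F : St V B → St V B := fun s => (Op.inc i).exec N w (a.exec N w s) with hF
  set s0 := (Op.zero i).exec N w s with hs0
  have hs0ok : s0.ok N w := Op.exec_ok _ _ hok
  have frame : ∀ t ≤ N, (F^[t] s0).ok N w ∧ (F^[t] s0).v i = t ∧
      (∀ j, j ∉ a.wv → j ≠ i → (F^[t] s0).v j = s.v j) ∧
      (∀ g, g ∉ a.wb → (F^[t] s0).b g = s.b g) ∧ I t (F^[t] s0) := by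
    intro t
    induction t with
    | zero =>
      intro _
      refine ⟨hs0ok, by simp [hs0, Op.exec], ?_, ?_, h0⟩
      · intro j _ hj
        simp [hs0, Op.exec, Function.update_of_ne hj]
      · intro g _
        simp [hs0, Op.exec]
    | succ t ih =>
      intro ht
      obtain ⟨g1, g2, g3, g4, g5⟩ := ih (by omega)
      rw [Function.iterate_succ_apply']
      generalize F^[t] s0 = s' at *
      refine ⟨Op.exec_ok _ _ (Cmd.exec_ok _ _ g1), ?_, ?_, ?_, ?_⟩
      · simp only [hF, Op.exec, update_self]
        rw [Cmd.exec_v a s' hi, g2]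
        omega
      · intro j hj hji
        simp only [hF]
        rw [Op.exec_v _ _ (by simpa [Op.wv] using hji), Cmd.exec_v _ _ hj, g3 j hj hji]
      · intro g hg
        simp only [hF]
        rw [Op.exec_b _ _ (by simp [Op.wb]), Cmd.exec_b _ _ hg, g4 g hg]
      · exact (hs t (by omega) s' g1 g2 g3 g4 g5).2
  refine ⟨(frame N le_rfl).2.2.2.2, ?_⟩
  simp only [Cmd.cost]
  gcongr with t ht
  have ht' : t < N := Finset.mem_range.1 ht
  obtain ⟨g1, g2, g3, g4, g5⟩ := frame t (by omega)
  exact (hs t ht' _ g1 g2 g3 g4 g5).1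

end Pool.Agent.Lib.MP_64f491_lc
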