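import Pool.Agent.Lib.MP_64f491_lc.Arith

/-! # Nested loops -/

namespace Pool.Agent.Lib.MP_64f491_lc

set_option linter.unusedSectionVars false
set_option linter.unusedSimpArgs false
set_option linter.unnecessarySeqFocus false
set_option linter.constructorNameAsVariable false

open Function

/-- Sum of `f` over all lists of length `n` with entries below `N`. -/
def tsum (N : ℕ) : ℕ → (List ℕ → ℕ) → ℕ
  | 0, f => f []
  | n + 1, f => ∑ a ∈ Finset.range N, tsum N n fun l => f (a :: l)

/-- The lists summed over. -/
def Lt (N : ℕ) (l : List ℕ) : Prop := ∀ a ∈ l, a < N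

theorem tsum_pos {N : ℕ} (n : ℕ) (f : List ℕ → ℕ) :
    0 < tsum N n f ↔ ∃ l : List ℕ, l.length = n ∧ Lt N l ∧ 0 < f l := by
  induction n generalizing f with
  | zero =>
    simp only [tsum]
    constructor
    · intro h; exact ⟨[], rfl, by intro a ha; simp at ha, h⟩
    · rintro ⟨l, hl, _, h⟩
      have := List.length_eq_zero_iff.1 hl
      subst this; exact h
  | succ n ih =>
    simp only [tsum]
    rw [Finset.sum_pos_iff]
    constructor
    · rintro ⟨a, ha, h⟩
      obtain ⟨l, h1, h2, h3⟩ := (ih _).1 h
      refine ⟨a :: l, by simp [h1], ?_, h3⟩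
      intro b hb
      rcases List.mem_cons.1 hb with hb | hb
      · subst hb; exact Finset.mem_range.1 ha
      · exact h2 b hb
    · rintro ⟨l, h1, h2, h3⟩
      cases l with
      | nil => simp at h1
      | cons a l =>
        refine ⟨a, Finset.mem_range.2 (h2 a (by simp)), (ih _).2 ⟨l, by simpa using h1, ?_, h3⟩⟩
        intro b hb
        exact h2 b (List.mem_cons_of_mem _ hb)

theorem tsum_le {N : ℕ} (n : ℕ) (f g : List ℕ → ℕ)
    (h : ∀ l : List ℕ, l.length = n → Lt N l → f l ≤ g l) : tsum N n f ≤ tsum N n g := by
  induction n generalizing f g with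
  | zero => exact h [] rfl (by intro a ha; simp at ha)
  | succ n ih =>
    simp only [tsum]
    apply Finset.sum_le_sum
    intro a ha
    apply ih
    intro l hl hlt
    apply h
    · simp [hl]
    · intro b hb
      rcases List.mem_cons.1 hb with hb | hb
      · subst hb; exact Finset.mem_range.1 ha
      · exact hlt b hb

theorem tsum_congr {N : ℕ} (n : ℕ) (f g : List ℕ → ℕ)
    (h : ∀ l : List ℕ, l.length = n → Lt N l → f l = g l) : tsum N n f = tsum N n g :=
  le_antisymm (tsum_le n f g fun l h1 h2 => (h l h1 h2).le)
    (tsum_le n g f fun l h1 h2 => (h l h1 h2).ge)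

theorem tsum_const (N n c : ℕ) : tsum N n (fun _ => c) = N ^ n * c := by
  induction n with
  | zero => simp [tsum]
  | succ n ih => simp only [tsum, ih, Finset.sum_const, Finset.card_range, smul_eq_mul]; ring

theorem tsum_add (N n : ℕ) (f g : List ℕ → ℕ) :
    tsum N n (fun l => f l + g l) = tsum N n f + tsum N n g := by
  induction n generalizing f g with
  | zero => rfl
  | succ n ih => simp only [tsum, ih, Finset.sum_add_distrib]

theorem tsum_mul (N n c : ℕ) (f : List ℕ → ℕ) :
    tsum N n (fun l => c * f l) = c * tsum N n f := by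
  induction n generalizing f with
  | zero => rfl
  | succ n ih => simp only [tsum, ih, Finset.mul_sum]

variable {r k D : ℕ} {N : ℕ} {w : List Sym}

/-- Nested loops. -/
def loopsX (body : Cmd (Vr r k D) Fl) : List (Vr r k D) → Cmd (Vr r k D) Fl
  | [] => body
  | x :: xs => .loop x (loopsX body xs)

theorem loopsX_wv (body : Cmd (Vr r k D) Fl) (l : List (Vr r k D)) {v : Vr r k D}
    (h1 : v ∉ body.wv) (h2 : v ∉ l) : v ∉ (loopsX body l).wv := by
  induction l with
  | nil => exact h1
  | cons x xs ih =>
    simp only [List.mem_cons, not_or] at h2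
    simp [loopsX, Cmd.wv, h2.1, ih h2.2]

theorem loopsX_wb (body : Cmd (Vr r k D) Fl) (l : List (Vr r k D)) {f : Fl}
    (h1 : f ∉ body.wb) : f ∉ (loopsX body l).wb := by
  induction l with
  | nil => exact h1
  | cons x xs ih => simpa [loopsX, Cmd.wb] using ih

theorem loopsX_deg (body : Cmd (Vr r k D) Fl) (l : List (Vr r k D)) :
    (loopsX body l).deg = body.deg + l.length := by
  induction l with
  | nil => rfl
  | cons x xs ih => simp only [loopsX, Cmd.deg, ih, List.length_cons]; ring

theorem loopsX_WF (body : Cmd (Vr r k D) Fl) (l : List (Vr r k D)) (h : body.WF)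
    (hnd : l.Nodup) (hv : ∀ x ∈ l, x ∉ body.wv) : (loopsX body l).WF := by
  induction l with
  | nil => exact h
  | cons x xs ih =>
    have h1 := List.nodup_cons.1 hnd
    simp only [List.mem_cons, forall_eq_or_imp] at hv
    exact ⟨loopsX_wv _ _ hv.1 h1.1, ih h1.2 hv.2⟩

/-- Accumulation through nested loops. -/
theorem loopsX_acc (body : Cmd (Vr r k D) Fl) (all : List (Vr r k D)) (hnd : all.Nodup)
    (hall : ∀ x ∈ all, x ∉ body.wv) (bound : ℕ) (F : List ℕ → ℕ)
    (Acc : ℕ → St (Vr r k D) Fl → Prop)
    (hbody : ∀ (s : St (Vr r k D) Fl) n, s.ok N w → (∀ x ∈ all, s.v x < N) → Acc n s →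
      n + F (all.map s.v) < bound → Acc (n + F (all.map s.v)) (body.exec N w s))
    (hupd : ∀ (s : St (Vr r k D) Fl) n, ∀ x ∈ all, ∀ a, Acc n s →
      Acc n { s with v := update s.v x a }) :
    ∀ (xs pre : List (Vr r k D)), all = pre ++ xs → ∀ (s : St (Vr r k D) Fl) n, s.ok N w →
      (∀ x ∈ pre, s.v x < N) → Acc n s →
      n + tsum N xs.length (fun l => F (pre.map s.v ++ l)) < bound →
      Acc (n + tsum N xs.length (fun l => F (pre.map s.v ++ l)))
        ((loopsX body xs).exec N w s) := by
  intro xs
  induction xs with
  | nil =>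
    intro pre hpre s n hok hlt hacc hb
    simp only [List.append_nil] at hpre
    subst hpre
    simp only [List.length_nil, tsum, List.append_nil] at hb ⊢
    exact hbody s n hok hlt hacc hb
  | cons x xs ih =>
    intro pre hpre s n hok hlt hacc hb
    have hxall : x ∈ all := by rw [hpre]; simp
    have hnd' : (pre ++ x :: xs).Nodup := hpre ▸ hnd
    have hxpre : x ∉ pre := by
      intro h
      exact (List.nodup_append.1 hnd').2.2 x h x (by simp) rfl
    have hxxs : x ∉ xs := (List.nodup_cons.1 (List.nodup_append.1 hnd').2.1).1
    have hpxs : ∀ y ∈ pre, y ∉ xs := by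
      intro y hy h
      exact (List.nodup_append.1 hnd').2.2 y hy y (by simp [h]) rfl
    have key := loop_inv (N := N) (w := w) (i := x) (a := loopsX body xs)
      (loopsX_wv _ _ (hall x hxall) hxxs)
      (fun t s' => Acc (n + ∑ a ∈ Finset.range t,
        tsum N xs.length (fun l => F (pre.map s.v ++ a :: l))) s') s hok
      (by
        simp only [Finset.range_zero, Finset.sum_empty, add_zero]
        exact hupd s n x hxall 0 hacc)
      (by
        intro t ht s' hok' hti hfv hfb hI
        have hpre' : all = (pre ++ [x]) ++ xs := by rw [hpre]; simp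
        have hmap : (pre ++ [x]).map s'.v = pre.map s.v ++ [t] := by
          rw [List.map_append, List.map_singleton, hti]
          congr 1
          apply List.map_congr_left
          intro y hy
          have hyall : y ∈ all := by rw [hpre]; simp [hy]
          exact hfv y (loopsX_wv _ _ (hall y hyall) (hpxs y hy))
            (fun h => hxpre (h ▸ hy))
        have hle : n + ∑ a ∈ Finset.range (t + 1),
            tsum N xs.length (fun l => F (pre.map s.v ++ a :: l)) < bound := by
          refine lt_of_le_of_lt ?_ hb
          simp only [List.length_cons, tsum]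
          apply Nat.add_le_add_left
          apply Finset.sum_le_sum_of_subset
          intro a ha
          rw [Finset.mem_range] at ha ⊢
          omega
        rw [Finset.sum_range_succ, ← add_assoc] at hle
        have := ih (pre ++ [x]) hpre' s' _ hok' (by
          intro y hy
          rcases List.mem_append.1 hy with hy | hy
          · have hyall : y ∈ all := by rw [hpre]; simp [hy]
            rw [hfv y (loopsX_wv _ _ (hall y hyall) (hpxs y hy)) (fun h => hxpre (h ▸ hy))]
            exact hlt y hy
          · have : y = x := by simpa using hy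
            rw [this, hti]; exact ht) hI (by
          rw [hmap]
          simpa using hle)
        rw [hmap] at this
        simp only [List.append_assoc, List.singleton_append] at this
        rw [Finset.sum_range_succ, ← add_assoc]
        have h2 := hupd _ _ x hxall (min (((loopsX body xs).exec N w s').v x + 1) N) this
        exact h2)
    simpa [loopsX, tsum] using key

/-- Cost of nested loops. -/
theorem loopsX_cost (body : Cmd (Vr r k D) Fl) (all : List (Vr r k D)) (hnd : all.Nodup)
    (hall : ∀ x ∈ all, x ∉ body.wv) (T : List ℕ → ℕ) (Inv : St (Vr r k D) Fl → Prop)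
    (hbody : ∀ (s : St (Vr r k D) Fl), s.ok N w → (∀ x ∈ all, s.v x < N) → Inv s →
      body.cost N w s ≤ T (all.map s.v) ∧ Inv (body.exec N w s))
    (hupd : ∀ (s : St (Vr r k D) Fl), ∀ x ∈ all, ∀ a, Inv s →
      Inv { s with v := update s.v x a }) :
    ∀ (xs pre : List (Vr r k D)), all = pre ++ xs → ∀ (s : St (Vr r k D) Fl), s.ok N w →
      (∀ x ∈ pre, s.v x < N) → Inv s →
      (loopsX body xs).cost N w s ≤ tsum N xs.length (fun l => T (pre.map s.v ++ l))
        + 3 * xs.length * (N + 1) ^ xs.length ∧ Inv ((loopsX body xs).exec N w s) := by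
  intro xs
  induction xs with
  | nil =>
    intro pre hpre s hok hlt hinv
    simp only [List.append_nil] at hpre
    subst hpre
    simp only [List.length_nil, tsum, List.append_nil]
    have := hbody s hok hlt hinv
    exact ⟨by simpa [loopsX] using this.1, this.2⟩
  | cons x xs ih =>
    intro pre hpre s hok hlt hinv
    have hxall : x ∈ all := by rw [hpre]; simp
    have hnd' : (pre ++ x :: xs).Nodup := hpre ▸ hnd
    have hxpre : x ∉ pre := by
      intro h
      exact (List.nodup_append.1 hnd').2.2 x h x (by simp) rfl
    have hxxs : x ∉ xs := (List.nodup_cons.1 (List.nodup_append.1 hnd').2.1).1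
    have hpxs : ∀ y ∈ pre, y ∉ xs := by
      intro y hy h
      exact (List.nodup_append.1 hnd').2.2 y hy y (by simp [h]) rfl
    have key := loop_rule (N := N) (w := w) (i := x) (a := loopsX body xs)
      (loopsX_wv _ _ (hall x hxall) hxxs) (fun _ s' => Inv s')
      (fun t => tsum N xs.length (fun l => T (pre.map s.v ++ t :: l))
        + 3 * xs.length * (N + 1) ^ xs.length) s hok
      (hupd s x hxall 0 hinv)
      (by
        intro t ht s' hok' hti hfv hfb hI
        have hpre' : all = (pre ++ [x]) ++ xs := by rw [hpre]; simp
        have hmap : (pre ++ [x]).map s'.v = pre.map s.v ++ [t] := by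
          rw [List.map_append, List.map_singleton, hti]
          congr 1
          apply List.map_congr_left
          intro y hy
          have hyall : y ∈ all := by rw [hpre]; simp [hy]
          exact hfv y (loopsX_wv _ _ (hall y hyall) (hpxs y hy))
            (fun h => hxpre (h ▸ hy))
        have := ih (pre ++ [x]) hpre' s' hok' (by
          intro y hy
          rcases List.mem_append.1 hy with hy | hy
          · have hyall : y ∈ all := by rw [hpre]; simp [hy]
            rw [hfv y (loopsX_wv _ _ (hall y hyall) (hpxs y hy)) (fun h => hxpre (h ▸ hy))]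
            exact hlt y hy
          · have : y = x := by simpa using hy
            rw [this, hti]; exact ht) hI
        rw [hmap] at this
        simp only [List.append_assoc, List.singleton_append] at this
        exact ⟨this.1, hupd _ x hxall _ this.2⟩)
    refine ⟨?_, key.1⟩
    refine key.2.trans ?_
    simp only [tsum, List.length_cons]
    rw [Finset.sum_add_distrib, Finset.sum_add_distrib, Finset.sum_const, Finset.sum_const,
      Finset.card_range, smul_eq_mul, smul_eq_mul]
    have h1 : 1 ≤ (N + 1) ^ xs.length := Nat.one_le_pow _ _ (by omega)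
    have h2 : N * (3 * xs.length * (N + 1) ^ xs.length) + 3 * (N + 1) * (N + 1) ^ xs.length
        ≤ 3 * (xs.length + 1) * (N + 1) ^ (xs.length + 1) := by
      rw [pow_succ]
      nlinarith [Nat.zero_le (xs.length * (N + 1) ^ xs.length)]
    have h3 : N + 2 + N * 2 ≤ 3 * (N + 1) * (N + 1) ^ xs.length := by nlinarith
    omega

end Pool.Agent.Lib.MP_64f491_lc
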