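import Pool.Agent.Lib.MP_64f491_lc.Phase

/-! # The whole program -/

namespace Pool.Agent.Lib.MP_64f491_lc

set_option linter.unusedSectionVars false
set_option linter.unusedSimpArgs false
set_option linter.unnecessarySeqFocus false
set_option linter.constructorNameAsVariable false

open Function

variable {r k D : ℕ} {N : ℕ} {w : List Sym}

/-- Test that the number in `l` is below `N ^ j`. -/
def smallC (j : ℕ) (l : List (Vr r k D)) : Cmd (Vr r k D) Fl :=
  andAll .g .e ((l.drop j).map fun d => .op (.isz d .e))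

theorem smallC_wv (j : ℕ) (l : List (Vr r k D)) (v : Vr r k D) : v ∉ (smallC j l).wv := by
  apply andAll_wv
  intro c hc
  rw [List.mem_map] at hc
  obtain ⟨q, _, rfl⟩ := hc
  simp [Cmd.wv, Op.wv]

theorem smallC_wb (j : ℕ) (l : List (Vr r k D)) {f : Fl} (h0 : f ≠ .g) (h1 : f ≠ .e) :
    f ∉ (smallC j l).wb := by
  apply andAll_wb _ _ _ h0
  intro c hc
  rw [List.mem_map] at hc
  obtain ⟨q, _, rfl⟩ := hc
  simp [Cmd.wb, Op.wb, h1]

theorem smallC_deg (j : ℕ) (l : List (Vr r k D)) : (smallC j l).deg ≤ 0 := by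
  apply andAll_deg
  intro c hc
  rw [List.mem_map] at hc
  obtain ⟨q, _, rfl⟩ := hc
  simp [Cmd.deg, Op.deg]

theorem smallC_WF (j : ℕ) (l : List (Vr r k D)) : (smallC j l).WF := by
  apply andAll_WF
  intro c hc
  rw [List.mem_map] at hc
  obtain ⟨q, _, rfl⟩ := hc
  simp [Cmd.WF, Op.WF]

theorem valL_eq_zero (hN : 0 < N) (σ : Vr r k D → ℕ) (l : List (Vr r k D)) :
    valL N σ l = 0 ↔ ∀ d ∈ l, σ d = 0 := by
  induction l with
  | nil => simp [valL]
  | cons d ds ih =>
    simp only [valL, List.mem_cons, forall_eq_or_imp, Nat.add_eq_zero_iff, Nat.mul_eq_zero, ih]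
    constructor
    · rintro ⟨h1, h2 | h2⟩
      · omega
      · exact ⟨h1, h2⟩
    · rintro ⟨h1, h2⟩
      exact ⟨h1, Or.inr h2⟩

theorem valL_small (hN : 0 < N) (σ : Vr r k D → ℕ) (j : ℕ) :
    ∀ l : List (Vr r k D), (∀ d ∈ l, σ d < N) →
      (valL N σ l < N ^ j ↔ ∀ d ∈ l.drop j, σ d = 0) := by
  induction j with
  | zero =>
    intro l _
    rw [pow_zero, Nat.lt_one_iff, List.drop_zero]
    exact valL_eq_zero hN σ l
  | succ j ih =>
    intro l hl
    cases l with
    | nil =>
      simp only [valL, List.drop_nil, List.not_mem_nil, false_imp_iff, implies_true, iff_true]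
      positivity
    | cons d ds =>
      simp only [List.mem_cons, forall_eq_or_imp] at hl
      rw [List.drop_succ_cons, ← ih ds hl.2]
      simp only [valL, pow_succ]
      constructor
      · intro h
        have h1 : N * valL N σ ds < N * N ^ j := by nlinarith
        exact Nat.lt_of_mul_lt_mul_left h1
      · intro h
        have h1 : valL N σ ds + 1 ≤ N ^ j := h
        have h2 := hl.1
        have h3 : N * (valL N σ ds + 1) ≤ N * N ^ j := Nat.mul_le_mul_left _ h1
        nlinarith

theorem smallC_spec (hN : 0 < N) (j : ℕ) (l : List (Vr r k D)) (s : St (Vr r k D) Fl)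
    (hd : ∀ d ∈ l, s.v d < N) :
    ((smallC j l).exec N w s).b .g = true ↔ valL N s.v l < N ^ j := by
  have h := andAll_spec (N := N) (w := w) .g .e (l.drop j)
    (fun d => (.op (.isz d .e) : Cmd (Vr r k D) Fl)) (fun d => decide (s.v d = 0))
    (fun s' => s'.v = s.v) (by
      intro d _ s' hs'
      refine ⟨?_, ?_⟩
      · simp [Cmd.exec, Op.exec, hs']
      · simp [Cmd.exec, Op.exec, hs']) s rfl
  rw [smallC, h, valL_small hN s.v j l hd, List.all_eq_true]
  simp

/-- Body of the loop over the moduli. -/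
def bodyM (q : ℕ) : Cmd (Vr r k D) Fl :=
  .ite (fun b => b .done) (.op .nop)
    (blk [weight, smallC q As, .ite (fun b => b .g)
      (blk [.op (.set .done fun _ => true), vcopyL ms'V msV]) (.op .nop)])

theorem bodyM_wv (q : ℕ) {v : Vr r k D} (h : Far v) (h2 : v ∉ (xsV : List (Vr r k D)))
    (h3 : v ∉ (ms'V : List (Vr r k D))) : v ∉ (bodyM q : Cmd (Vr r k D) Fl).wv := by
  simp [bodyM, Cmd.wv, Op.wv, weight_wv h h2, smallC_wv, vcopyL_wv ms'V msV h3 h.1]

theorem bodyM_wb (q : ℕ) {f : Fl} (h0 : f ≠ .g) (h1 : f ≠ .e) (h2 : f ≠ .f1)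
    (h3 : f ≠ .f2) (h4 : f ≠ .h) (h5 : f ≠ .st) (h6 : f ≠ .done) :
    f ∉ (bodyM q : Cmd (Vr r k D) Fl).wb := by
  simp [bodyM, Cmd.wb, Op.wb, weight_wb h0 h1 h2 h3 h4 h5, smallC_wb q As h0 h1, h6,
    vcopyL_wb ms'V msV h3]

theorem bodyM_deg (q : ℕ) : (bodyM q : Cmd (Vr r k D) Fl).deg ≤ r + 4 := by
  have h1 := weight_deg (r := r) (k := k) (D := D)
  have h2 := smallC_deg q (As : List (Vr r k D))
  have h3 := vcopyL_deg (ms'V : List (Vr r k D)) msV
  simp [bodyM, Cmd.deg, Op.deg]
  omega

theorem ta_ms'V : Vr.ta ∉ (ms'V : List (Vr r k D)) := by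
  intro h; obtain ⟨j, hj⟩ := mem_ms'V.1 h; cases hj

theorem ta_msV : Vr.ta ∉ (msV : List (Vr r k D)) := by
  intro h; obtain ⟨j, hj⟩ := mem_msV.1 h; cases hj

theorem ms_ms' : ∀ u ∈ (msV : List (Vr r k D)), u ∉ (ms'V : List (Vr r k D)) := by
  intro u hu h
  obtain ⟨i, rfl⟩ := mem_msV.1 hu
  obtain ⟨j, hj⟩ := mem_ms'V.1 h
  cases hj

theorem bodyM_WF (q : ℕ) : (bodyM q : Cmd (Vr r k D) Fl).WF := by
  simp [bodyM, Cmd.WF, Op.WF, weight_WF, smallC_WF, vcopyL_WF ms'V msV ta_ms'V ta_msV]

theorem Pw_le (k N r : ℕ) (E : ℕ → ℕ → Bool) (mv : List ℕ) :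
    Pw k N r E mv ≤ N ^ (r + 1 + k) := by
  calc Pw k N r E mv ≤ tsum N (r + 1) (fun _ => N ^ k) := by
        apply tsum_le
        intro l _ _
        unfold Fw
        split
        · exact Nat.pow_le_pow_left (NL_le N E l) k
        · exact Nat.zero_le _
    _ = N ^ (r + 1) * N ^ k := tsum_const _ _ _
    _ = _ := by rw [← pow_add]

theorem bodyM_spec {E : ℕ → ℕ → Bool} (hG : Good N w E) (hN : 2 ≤ N) (hD : r + 1 + k < D)
    (q : ℕ) (mv : List ℕ) (hmv : ∀ a ∈ mv, 1 ≤ a) (s : St (Vr r k D) Fl) (hok : s.ok N w)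
    (hms : msV.map s.v = mv) (hdone : s.b .done = false) :
    (Pw k N r E mv < N ^ q → ((bodyM q).exec N w s).b .done = true ∧
      ms'V.map ((bodyM q).exec N w s).v = mv) ∧
    (¬ Pw k N r E mv < N ^ q → ((bodyM q).exec N w s).b .done = false) := by
  have hb : Pw k N r E mv < N ^ D :=
    lt_of_le_of_lt (Pw_le k N r E mv) (Nat.pow_lt_pow_right (by omega) hD)
  obtain ⟨w1, w2⟩ := weight_spec hG hN (by omega) mv hmv s hok hms hb
  set s1 := (weight : Cmd (Vr r k D) Fl).exec N w s with hs1
  have hok1 : s1.ok N w := Cmd.exec_ok _ _ hok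
  have hd1 : s1.b .done = false := by
    rw [hs1, Cmd.exec_b _ _ (weight_wb (by simp) (by simp) (by simp) (by simp) (by simp)
      (by simp)), hdone]
  have hms1 : (msV : List (Vr r k D)).map s1.v = mv := by
    rw [← hms]
    apply List.map_congr_left
    intro m hm
    obtain ⟨i, rfl⟩ := mem_msV.1 hm
    exact Cmd.exec_v _ _ (weight_wv (far_m i) (by
      intro h; obtain ⟨j, hj⟩ := mem_xsV.1 h; cases hj))
  set s2 := (smallC q (As : List (Vr r k D))).exec N w s1 with hs2
  have hok2 : s2.ok N w := Cmd.exec_ok _ _ hok1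
  have hg2 : s2.b .g = true ↔ Pw k N r E mv < N ^ q := by
    rw [hs2, smallC_spec (by omega) q As s1 w1, w2]
  have hd2 : s2.b .done = false := by
    rw [hs2, Cmd.exec_b _ _ (smallC_wb q As (by simp) (by simp)), hd1]
  have hv2 : s2.v = s1.v := by funext v; exact Cmd.exec_v _ _ (smallC_wv q As v)
  have hex : (bodyM q).exec N w s = (Cmd.ite (fun b => b .g)
      (blk [.op (.set .done fun _ => true), vcopyL ms'V msV]) (.op .nop) :
        Cmd (Vr r k D) Fl).exec N w s2 := by
    simp only [bodyM, Cmd.exec, hdone, Bool.false_eq_true, if_false, exec_blk_cons, exec_blk_nil,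
      hs1, hs2]
  rw [hex]
  constructor
  · intro h
    have hg := hg2.2 h
    simp only [Cmd.exec, hg, if_true, exec_blk_cons, exec_blk_nil]
    constructor
    · rw [Cmd.exec_b _ _ (vcopyL_wb ms'V msV (by simp))]
      simp [Op.exec]
    · rw [vcopyL_spec (N := N) (w := w) ms'V msV (by rw [msV_length, ms'V_length]) ms'V_nodup
        ta_ms'V ta_msV ms_ms' _ (Op.exec_ok _ _ hok2) s2.v (fun _ _ => rfl), hv2, hms1]
  · intro h
    have hg : s2.b .g ≠ true := fun h' => h (hg2.1 h')
    simp only [Cmd.exec, hg, Bool.false_eq_true, if_false, Op.exec]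
    exact hd2

/-- Nested loops over the moduli `1 ≤ m < qc`. -/
def loopsM (q : ℕ) : List (Vr r k D) → Cmd (Vr r k D) Fl
  | [] => bodyM q
  | m :: ms => .loop m (blk [.op (.isz m .f1), .op (.le .qc m .f2),
      .ite (fun b => b .f1 || b .f2) (.op .nop) (loopsM q ms)])

theorem loopsM_wv (q : ℕ) (l : List (Vr r k D)) {v : Vr r k D} (h : Far v)
    (h2 : v ∉ (xsV : List (Vr r k D))) (h3 : v ∉ (ms'V : List (Vr r k D))) (h4 : v ∉ l) :
    v ∉ (loopsM q l).wv := by
  induction l with
  | nil => exact bodyM_wv q h h2 h3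
  | cons m ms ih =>
    simp only [List.mem_cons, not_or] at h4
    simp [loopsM, Cmd.wv, Op.wv, h4.1, ih h4.2]

theorem loopsM_wb (q : ℕ) (l : List (Vr r k D)) {f : Fl} (h0 : f ≠ .g) (h1 : f ≠ .e)
    (h2 : f ≠ .f1) (h3 : f ≠ .f2) (h4 : f ≠ .h) (h5 : f ≠ .st) (h6 : f ≠ .done) :
    f ∉ (loopsM q l).wb := by
  induction l with
  | nil => exact bodyM_wb q h0 h1 h2 h3 h4 h5 h6
  | cons m ms ih => simp [loopsM, Cmd.wb, Op.wb, h2, h3, ih]

theorem m_not_x (i : Fin r) : (Vr.m i : Vr r k D) ∉ (xsV : List (Vr r k D)) := by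
  intro h; obtain ⟨j, hj⟩ := mem_xsV.1 h; cases hj

theorem m_not_m' (i : Fin r) : (Vr.m i : Vr r k D) ∉ (ms'V : List (Vr r k D)) := by
  intro h; obtain ⟨j, hj⟩ := mem_ms'V.1 h; cases hj

theorem qc_not_x : (Vr.qc : Vr r k D) ∉ (xsV : List (Vr r k D)) := by
  intro h; obtain ⟨j, hj⟩ := mem_xsV.1 h; cases hj

theorem qc_not_m' : (Vr.qc : Vr r k D) ∉ (ms'V : List (Vr r k D)) := by
  intro h; obtain ⟨j, hj⟩ := mem_ms'V.1 h; cases hj

theorem qc_not_m : (Vr.qc : Vr r k D) ∉ (msV : List (Vr r k D)) := by
  intro h; obtain ⟨j, hj⟩ := mem_msV.1 h; cases hj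

theorem loopsM_WF (q : ℕ) (l : List (Vr r k D)) (hnd : l.Nodup)
    (hl : ∀ m ∈ l, ∃ i, m = Vr.m i) : (loopsM q l).WF := by
  induction l with
  | nil => exact bodyM_WF q
  | cons m ms ih =>
    have h1 := List.nodup_cons.1 hnd
    simp only [List.mem_cons, forall_eq_or_imp] at hl
    obtain ⟨i, rfl⟩ := hl.1
    have h2 : Vr.m i ∉ (loopsM q ms).wv :=
      loopsM_wv q ms (far_m i) (m_not_x i) (m_not_m' i) h1.1
    simp [loopsM, Cmd.WF, Op.WF, Cmd.wv, Op.wv, h2, ih h1.2 hl.2]

/-- Admissible tuples of moduli of small weight. -/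
structure GoodM (k N r q Q : ℕ) (E : ℕ → ℕ → Bool) (mv : List ℕ) : Prop where
  len : mv.length = r
  rng : ∀ a ∈ mv, 1 ≤ a ∧ a < Q
  small : Pw k N r E mv < N ^ q

theorem loopsM_spec {E : ℕ → ℕ → Bool} (hG : Good N w E) (hN : 2 ≤ N) (hD : r + 1 + k < D)
    (q Q : ℕ) (hQN : Q ≤ N) :
    ∀ (ms pre : List (Vr r k D)), msV = pre ++ ms → ∀ s : St (Vr r k D) Fl, s.ok N w →
      s.v .qc = Q → (∀ m ∈ pre, 1 ≤ s.v m ∧ s.v m < Q) →
      (s.b .done = true → GoodM k N r q Q E (ms'V.map s.v)) →
      (((loopsM q ms).exec N w s).b .done = true →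
        GoodM k N r q Q E (ms'V.map ((loopsM q ms).exec N w s).v)) ∧
      (((loopsM q ms).exec N w s).b .done = false → s.b .done = false ∧
        ∀ l : List ℕ, l.length = ms.length → (∀ a ∈ l, 1 ≤ a ∧ a < Q) →
          ¬ Pw k N r E (pre.map s.v ++ l) < N ^ q) := by
  intro ms
  induction ms with
  | nil =>
    intro pre hpre s hok hQ hpr hdone
    simp only [List.append_nil] at hpre
    subst hpre
    simp only [loopsM]
    by_cases hd : s.b .done = true
    · have hex : (bodyM q).exec N w s = s := by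
        simp only [bodyM, Cmd.exec, hd, if_true, Op.exec]
      rw [hex]
      refine ⟨hdone, ?_⟩
      intro h
      rw [hd] at h
      cases h
    · have hd' : s.b .done = false := by simpa using hd
      have hb := bodyM_spec hG hN hD q (msV.map s.v) (by
        intro a ha
        rw [List.mem_map] at ha
        obtain ⟨m, hm, rfl⟩ := ha
        exact (hpr m hm).1) s hok rfl hd'
      by_cases hP : Pw k N r E (msV.map s.v) < N ^ q
      · obtain ⟨h1, h2⟩ := hb.1 hP
        refine ⟨?_, ?_⟩
        · intro _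
          rw [h2]
          refine ⟨by rw [List.length_map, msV_length], ?_, hP⟩
          intro a ha
          rw [List.mem_map] at ha
          obtain ⟨m, hm, rfl⟩ := ha
          exact hpr m hm
        · intro h
          rw [h1] at h
          cases h
      · have h1 := hb.2 hP
        refine ⟨?_, ?_⟩
        · intro h
          rw [h1] at h
          cases h
        · intro _
          refine ⟨hd', ?_⟩
          intro l hl _
          have := List.length_eq_zero_iff.1 hl
          subst this
          simpa using hP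
  | cons m ms ih =>
    intro pre hpre s hok hQ hpr hdone
    have hmall : m ∈ (msV : List (Vr r k D)) := by rw [hpre]; simp
    obtain ⟨i, rfl⟩ := mem_msV.1 hmall
    have hnd' : (pre ++ Vr.m i :: ms).Nodup := hpre ▸ msV_nodup
    have hmpre : Vr.m i ∉ pre := by
      intro h
      exact (List.nodup_append.1 hnd').2.2 _ h (Vr.m i) (by simp) rfl
    have hmms : Vr.m i ∉ ms := (List.nodup_cons.1 (List.nodup_append.1 hnd').2.1).1
    have hpms : ∀ y ∈ pre, y ∉ ms := by
      intro y hy h
      exact (List.nodup_append.1 hnd').2.2 y hy y (by simp [h]) rfl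
    have hqms : Vr.qc ∉ ms := by
      intro h
      exact qc_not_m (r := r) (k := k) (D := D) (by rw [hpre]; simp [h])
    have hpre' : msV = (pre ++ [Vr.m i]) ++ ms := by rw [hpre]; simp
    set body : Cmd (Vr r k D) Fl := blk [.op (.isz (Vr.m i) .f1), .op (.le .qc (Vr.m i) .f2),
      .ite (fun b => b .f1 || b .f2) (.op .nop) (loopsM q ms)] with hbody
    have hbwv : ∀ v : Vr r k D, v ∉ (loopsM q ms).wv → v ∉ body.wv := by
      intro v hv
      simp [hbody, Cmd.wv, Op.wv, hv]
    have key := loop_inv (N := N) (w := w) (i := Vr.m i) (a := body)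
      (hbwv _ (loopsM_wv q ms (far_m i) (m_not_x i) (m_not_m' i) hmms))
      (fun t s' => (s'.b .done = true → GoodM k N r q Q E (ms'V.map s'.v)) ∧
        (s'.b .done = false → s.b .done = false ∧
        ∀ a < t, 1 ≤ a → a < Q → ∀ l : List ℕ, l.length = ms.length →
          (∀ a ∈ l, 1 ≤ a ∧ a < Q) → ¬ Pw k N r E (pre.map s.v ++ a :: l) < N ^ q)) s hok
      (by
        have e1 : (ms'V : List (Vr r k D)).map ((Op.zero (Vr.m i)).exec N w s).v
            = ms'V.map s.v := by
          apply List.map_congr_left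
          intro x hx
          obtain ⟨j, rfl⟩ := mem_ms'V.1 hx
          simp [Op.exec]
        refine ⟨?_, ?_⟩
        · intro h
          rw [e1]
          exact hdone h
        · intro h
          exact ⟨h, fun a ha => by omega⟩)
      (by
        intro t ht s' hok' hti hfv hfb hI
        obtain ⟨I1, I2⟩ := hI
        have hqc' : s'.v .qc = Q := by
          rw [hfv .qc (hbwv _ (loopsM_wv q ms far_qc qc_not_x qc_not_m' hqms)) (by simp), hQ]
        set s1 : St (Vr r k D) Fl :=
          { s' with b := update (update s'.b .f1 (decide (t = 0))) .f2 (decide (Q ≤ t)) } with hs1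
        have hok1 : s1.ok N w := ⟨hok'.1, hok'.2⟩
        have hex : body.exec N w s' = (Cmd.ite (fun b => b .f1 || b .f2) (.op .nop)
            (loopsM q ms)).exec N w s1 := by
          simp only [hbody, exec_blk_cons, exec_blk_nil]
          congr 1
          simp only [Cmd.exec, Op.exec, hti, hqc', hs1]
        have hv1 : s1.v = s'.v := rfl
        have hd1 : s1.b .done = s'.b .done := by simp [hs1]
        have hfin : ∀ s2 : St (Vr r k D) Fl, (ms'V : List (Vr r k D)).map
            ((Op.inc (Vr.m i)).exec N w s2).v = ms'V.map s2.v := by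
          intro s2
          apply List.map_congr_left
          intro x hx
          obtain ⟨j, rfl⟩ := mem_ms'V.1 hx
          simp [Op.exec]
        have hfin2 : ∀ s2 : St (Vr r k D) Fl,
            ((Op.inc (Vr.m i)).exec N w s2).b .done = s2.b .done := fun s2 => rfl
        rw [hex, hfin2]
        simp only [hfin]
        by_cases hc : t = 0 ∨ Q ≤ t
        · have hcond : (s1.b .f1 || s1.b .f2) = true := by
            simp only [hs1, ne_eq, reduceCtorEq, not_false_eq_true, update_of_ne, update_self,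
              Bool.or_eq_true, decide_eq_true_eq]
            exact hc
          simp only [Cmd.exec, hcond, if_true, Op.exec]
          rw [hd1, hv1]
          refine ⟨I1, ?_⟩
          intro h
          obtain ⟨j1, j2⟩ := I2 h
          refine ⟨j1, ?_⟩
          intro a ha ha1 haQ l hl hlr
          rcases Nat.lt_succ_iff_lt_or_eq.1 ha with ha | ha
          · exact j2 a ha ha1 haQ l hl hlr
          · subst ha
            rcases hc with hc | hc <;> omega
        · have hcond : (s1.b .f1 || s1.b .f2) = false := by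
            simp only [hs1, ne_eq, reduceCtorEq, not_false_eq_true, update_of_ne, update_self,
              Bool.or_eq_false_iff, decide_eq_false_iff_not]
            omega
          simp only [Cmd.exec, hcond, Bool.false_eq_true, if_false]
          have hpv : ∀ y ∈ pre, s'.v y = s.v y := by
            intro y hy
            have hyall : y ∈ (msV : List (Vr r k D)) := by rw [hpre]; simp [hy]
            obtain ⟨j, rfl⟩ := mem_msV.1 hyall
            exact hfv _ (hbwv _ (loopsM_wv q ms (far_m j) (m_not_x j) (m_not_m' j)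
              (hpms _ hy))) (fun h => hmpre (h ▸ hy))
          have hmap : (pre ++ [Vr.m i]).map s1.v = pre.map s.v ++ [t] := by
            rw [List.map_append, List.map_singleton, hv1, hti]
            congr 1
            apply List.map_congr_left
            intro y hy
            exact hpv y hy
          obtain ⟨k1, k2⟩ := ih (pre ++ [Vr.m i]) hpre' s1 hok1 hqc' (by
            intro y hy
            rcases List.mem_append.1 hy with hy | hy
            · rw [hv1, hpv y hy]
              exact hpr y hy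
            · have : y = Vr.m i := by simpa using hy
              rw [this, hv1, hti]
              omega) (by rw [hd1, hv1]; exact I1)
          refine ⟨k1, ?_⟩
          intro h
          obtain ⟨j1, j2⟩ := k2 h
          rw [hd1] at j1
          obtain ⟨i1, i2⟩ := I2 j1
          refine ⟨i1, ?_⟩
          intro a ha ha1 haQ l hl hlr
          rcases Nat.lt_succ_iff_lt_or_eq.1 ha with ha | ha
          · exact i2 a ha ha1 haQ l hl hlr
          · subst ha
            have := j2 l hl hlr
            rw [hmap] at this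
            simpa using this)
    have hfinal : (loopsM q (Vr.m i :: ms)).exec N w s = (Cmd.loop (Vr.m i) body).exec N w s :=
      rfl
    rw [hfinal]
    refine ⟨key.1, ?_⟩
    intro h
    obtain ⟨j1, j2⟩ := key.2 h
    refine ⟨j1, ?_⟩
    intro l hl hlr
    cases l with
    | nil => simp at hl
    | cons a l =>
      have ha := hlr a (by simp)
      exact j2 a (by omega) ha.1 ha.2 l (by simpa using hl)
        (fun b hb => hlr b (List.mem_cons_of_mem _ hb))

theorem loopsM_cost (q : ℕ) :
    ∀ (ms pre : List (Vr r k D)), msV = pre ++ ms → ∃ C, ∀ (N : ℕ) (w : List Sym),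
      w.length ≤ (N + 1) ^ 2 → ∀ (Q : ℕ), Q ≤ N → ∀ s : St (Vr r k D) Fl, s.ok N w →
      s.v .qc = Q →
      (loopsM q ms).cost N w s ≤ C * (N + 1) ^ (r + 4) * (Q + 1) ^ ms.length := by
  intro ms
  induction ms with
  | nil =>
    intro pre _
    obtain ⟨C, hC⟩ := Cmd.cost_le_of_deg (bodyM q : Cmd (Vr r k D) Fl) (bodyM_deg q)
    refine ⟨C, fun N w hw Q hQ s hok hq => ?_⟩
    simpa [loopsM] using hC N w s hw
  | cons m ms ih =>
    intro pre hpre
    have hmall : m ∈ (msV : List (Vr r k D)) := by rw [hpre]; simp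
    obtain ⟨i, rfl⟩ := mem_msV.1 hmall
    have hnd' : (pre ++ Vr.m i :: ms).Nodup := hpre ▸ msV_nodup
    have hmms : Vr.m i ∉ ms := (List.nodup_cons.1 (List.nodup_append.1 hnd').2.1).1
    have hqms : Vr.qc ∉ ms := by
      intro h
      exact qc_not_m (r := r) (k := k) (D := D) (by rw [hpre]; simp [h])
    have hpre' : msV = (pre ++ [Vr.m i]) ++ ms := by rw [hpre]; simp
    obtain ⟨C1, hC1⟩ := ih (pre ++ [Vr.m i]) hpre'
    refine ⟨C1 + 10, fun N w hw Q hQ s hok hq => ?_⟩
    set body : Cmd (Vr r k D) Fl := blk [.op (.isz (Vr.m i) .f1), .op (.le .qc (Vr.m i) .f2),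
      .ite (fun b => b .f1 || b .f2) (.op .nop) (loopsM q ms)] with hbody
    have hbwv : ∀ v : Vr r k D, v ∉ (loopsM q ms).wv → v ∉ body.wv := by
      intro v hv
      simp [hbody, Cmd.wv, Op.wv, hv]
    set T := C1 * (N + 1) ^ (r + 4) * (Q + 1) ^ ms.length with hT
    have key := loop_rule (N := N) (w := w) (i := Vr.m i) (a := body)
      (hbwv _ (loopsM_wv q ms (far_m i) (m_not_x i) (m_not_m' i) hmms))
      (fun _ _ => True) (fun t => 2 * N + 6 + if t < Q then T else 0) s hok trivial
      (by
        intro t ht s' hok' hti hfv hfb _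
        refine ⟨?_, trivial⟩
        have hqc' : s'.v .qc = Q := by
          rw [hfv .qc (hbwv _ (loopsM_wv q ms far_qc qc_not_x qc_not_m' hqms)) (by simp), hq]
        set s1 : St (Vr r k D) Fl :=
          { s' with b := update (update s'.b .f1 (decide (t = 0))) .f2 (decide (Q ≤ t)) } with hs1
        have hok1 : s1.ok N w := ⟨hok'.1, hok'.2⟩
        have hs1' : (Cmd.op (.le .qc (Vr.m i) .f2)).exec N w
            ((Cmd.op (.isz (Vr.m i) .f1) : Cmd (Vr r k D) Fl).exec N w s') = s1 := by
          simp only [Cmd.exec, Op.exec, hti, hqc', hs1]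
        have hcost : body.cost N w s' = 1 + ((2 * N + 2) + ((1 +
            if (s1.b .f1 || s1.b .f2) = true then 1 else (loopsM q ms).cost N w s1) + 1)) := by
          rw [← hs1']
          rfl
        rw [hcost]
        by_cases hc : t = 0 ∨ Q ≤ t
        · have hcond : (s1.b .f1 || s1.b .f2) = true := by
            simp only [hs1, ne_eq, reduceCtorEq, not_false_eq_true, update_of_ne, update_self,
              Bool.or_eq_true, decide_eq_true_eq]
            exact hc
          rw [if_pos hcond]
          omega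
        · have hcond : ¬ (s1.b .f1 || s1.b .f2) = true := by
            simp only [hs1, ne_eq, reduceCtorEq, not_false_eq_true, update_of_ne, update_self,
              Bool.or_eq_true, decide_eq_true_eq]
            omega
          rw [if_neg hcond, if_pos (by omega)]
          have := hC1 N w hw Q hQ s1 hok1 hqc'
          rw [← hT] at this
          omega)
    have hfinal : (loopsM q (Vr.m i :: ms)).cost N w s = (Cmd.loop (Vr.m i) body).cost N w s :=
      rfl
    rw [hfinal]
    refine key.2.trans ?_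
    have hsum : ∑ t ∈ Finset.range N, (2 * N + 6 + (if t < Q then T else 0) + 2)
        ≤ N * (2 * N + 8) + Q * T := by
      have h1 : ∀ t, 2 * N + 6 + (if t < Q then T else 0) + 2
          = (2 * N + 8) + (if t < Q then T else 0) := by intro t; ring
      simp only [h1]
      rw [Finset.sum_add_distrib, Finset.sum_const, Finset.card_range, smul_eq_mul,
        ← Finset.sum_filter, Finset.sum_const, smul_eq_mul]
      apply Nat.add_le_add_left
      apply Nat.mul_le_mul_right
      calc ((Finset.range N).filter (· < Q)).card ≤ (Finset.range Q).card := by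
            apply Finset.card_le_card
            intro t ht
            rw [Finset.mem_filter] at ht
            exact Finset.mem_range.2 ht.2
        _ = Q := Finset.card_range Q
    have hM : (N + 1) ^ 2 ≤ (N + 1) ^ (r + 4) := Nat.pow_le_pow_right (by omega) (by omega)
    have hQ1 : 1 ≤ (Q + 1) ^ ms.length := Nat.one_le_pow _ _ (by omega)
    have hQ2 : 1 ≤ (Q + 1) ^ (ms.length + 1) := Nat.one_le_pow _ _ (by omega)
    have hb1 : N + 2 + N * (2 * N + 8) ≤ 10 * (N + 1) ^ (r + 4) * (Q + 1) ^ (ms.length + 1) := by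
      calc N + 2 + N * (2 * N + 8) ≤ 10 * (N + 1) ^ 2 * 1 := by nlinarith
        _ ≤ 10 * (N + 1) ^ (r + 4) * (Q + 1) ^ (ms.length + 1) := by gcongr
    have hb2 : Q * T ≤ C1 * (N + 1) ^ (r + 4) * (Q + 1) ^ (ms.length + 1) := by
      rw [hT, pow_succ]
      calc Q * (C1 * (N + 1) ^ (r + 4) * (Q + 1) ^ ms.length)
          ≤ (Q + 1) * (C1 * (N + 1) ^ (r + 4) * (Q + 1) ^ ms.length) := by gcongr; omega
        _ = _ := by ring
    rw [List.length_cons]
    calc N + 2 + ∑ t ∈ Finset.range N, (2 * N + 6 + (if t < Q then T else 0) + 2)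
        ≤ N + 2 + (N * (2 * N + 8) + Q * T) := Nat.add_le_add_left hsum _
      _ ≤ 10 * (N + 1) ^ (r + 4) * (Q + 1) ^ (ms.length + 1)
          + C1 * (N + 1) ^ (r + 4) * (Q + 1) ^ (ms.length + 1) := by omega
      _ = _ := by ring

end Pool.Agent.Lib.MP_64f491_lc
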