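import Pool.Agent.Lib.MP_64f491_lc.Search

/-! # Cost of the search; the weight computation -/

namespace Pool.Agent.Lib.MP_64f491_lc

set_option linter.unusedSectionVars false
set_option linter.unusedSimpArgs false
set_option linter.unnecessarySeqFocus false
set_option linter.constructorNameAsVariable false

open Function

variable {r k D : ℕ}

theorem search_cost (xs : List (Vr r k D))
    (hxs : ∀ x ∈ xs, Dat x ∧ x ≠ .y ∧ x ≠ .cnt ∧ x ∉ (csV : List (Vr r k D))) :
    ∀ (cs pre : List (Vr r k D)), csV = pre ++ cs → ∃ C, ∀ (N : ℕ) (w : List Sym)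
      (E : ℕ → ℕ → Bool), Good N w E → w.length ≤ (N + 1) ^ 2 →
      ∀ s : St (Vr r k D) Fl, s.ok N w → ∀ xv : List ℕ, xs.map s.v = xv → (∀ a ∈ xv, a < N) →
      (search xs cs).cost N w s ≤
        C * (N + 1) ^ 3 * ∑ i ∈ Finset.range (cs.length + 1), NL N E xv ^ i := by
  intro cs
  induction cs with
  | nil =>
    intro pre _
    obtain ⟨C, hC⟩ := Cmd.cost_le_of_deg (leaf : Cmd (Vr r k D) Fl) leaf_deg
    refine ⟨C, fun N w E hG hw s hok xv hxv hlt => ?_⟩
    simpa [search] using hC N w s hw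
  | cons c cs ih =>
    intro pre hpre
    have hcall : c ∈ (csV : List (Vr r k D)) := by rw [hpre]; simp
    obtain ⟨i, rfl⟩ := mem_csV.1 hcall
    have hnd' : (pre ++ Vr.c i :: cs).Nodup := hpre ▸ csV_nodup
    have hccs : Vr.c i ∉ cs := (List.nodup_cons.1 (List.nodup_append.1 hnd').2.1).1
    have hpre' : csV = (pre ++ [Vr.c i]) ++ cs := by rw [hpre]; simp
    obtain ⟨C1, hC1⟩ := ih (pre ++ [Vr.c i]) hpre'
    obtain ⟨Ca, hCa⟩ := Cmd.cost_le_of_deg (allE .g (xs.map fun x => (Vr.c i, x)))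
      (allE_deg _ _)
    refine ⟨C1 + Ca + 7, fun N w E hG hw s hok xv hxv hlt => ?_⟩
    set body : Cmd (Vr r k D) Fl := blk [allE .g (xs.map fun x => (Vr.c i, x)),
      .ite (fun b => b .g) (search xs cs) (.op .nop)] with hbody
    have hbwv : ∀ v : Vr r k D, v ∉ cs → v ≠ .ta → v ≠ .tb → v ≠ .y → v ≠ .cnt →
        v ∉ body.wv := by
      intro v h0 h1 h2 h3 h4
      simp [hbody, Cmd.wv, Op.wv, allE_wv _ _ h1 h2, search_wv xs cs h0 h1 h2 h3 h4]
    have hxcs : ∀ x ∈ xs, x ∉ cs := fun x hx h => (hxs x hx).2.2.2 (by rw [hpre]; simp [h])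
    set P : ℕ := ∑ i ∈ Finset.range (cs.length + 1), NL N E xv ^ i with hP
    have key := loop_rule (N := N) (w := w) (i := Vr.c i) (a := body)
      (hbwv _ hccs (by simp) (by simp) (by simp) (by simp)) (fun _ _ => True)
      (fun t => Ca * (N + 1) ^ 2 + 3 + if (xv.all fun x => E t x) = true then
        C1 * (N + 1) ^ 3 * P else 0) s hok trivial
      (by
        intro t ht s' hok' hti hfv hfb _
        refine ⟨?_, trivial⟩
        have hxv' : xs.map s'.v = xv := by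
          rw [← hxv]
          apply List.map_congr_left
          intro x hx
          obtain ⟨⟨d1, d2⟩, d3, d4, d5⟩ := hxs x hx
          exact hfv x (hbwv x (hxcs x hx) d1 d2 d3 d4) (fun h => d5 (h ▸ hcall))
        set s1 := (allE .g (xs.map fun x => (Vr.c i, x))).exec N w s' with hs1
        have hok1 : s1.ok N w := Cmd.exec_ok _ _ hok'
        have hg1 : s1.b .g = (xv.all fun x => E t x) := by
          rw [hs1, allE_spec hG]
          · rw [← hxv', List.all_map, List.all_map]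
            simp only [Function.comp_def, hti]
          · intro q hq
            rw [List.mem_map] at hq
            obtain ⟨x, hx, rfl⟩ := hq
            exact ⟨by simp [Dat], (hxs x hx).1⟩
          · exact hok'
          · intro q hq
            rw [List.mem_map] at hq
            obtain ⟨x, hx, rfl⟩ := hq
            apply hlt
            rw [← hxv']
            exact List.mem_map_of_mem hx
        have hfr1 : ∀ v : Vr r k D, v ≠ .ta → v ≠ .tb → s1.v v = s'.v v := fun v h1 h2 =>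
          Cmd.exec_v _ _ (allE_wv _ _ h1 h2)
        have h1 := hCa N w s' hw
        have hcost : body.cost N w s' = (allE .g (xs.map fun x => (Vr.c i, x))).cost N w s' +
          ((1 + if s1.b .g = true then (search xs cs).cost N w s1 else 1) + 1) := rfl
        rw [hcost, hg1]
        by_cases hm : (xv.all fun x => E t x) = true
        · rw [if_pos hm, if_pos hm]
          have h2 := hC1 N w E hG hw s1 hok1 xv (by
            rw [← hxv']
            apply List.map_congr_left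
            intro x hx
            exact hfr1 x (hxs x hx).1.1 (hxs x hx).1.2) hlt
          rw [← hP] at h2
          omega
        · rw [if_neg hm, if_neg hm]
          omega)
    have hfinal : (search xs (Vr.c i :: cs)).cost N w s = (Cmd.loop (Vr.c i) body).cost N w s :=
      rfl
    rw [hfinal]
    refine key.2.trans ?_
    have hsum : ∑ t ∈ Finset.range N, (Ca * (N + 1) ^ 2 + 3 +
        (if (xv.all fun x => E t x) = true then C1 * (N + 1) ^ 3 * P else 0) + 2)
        = N * (Ca * (N + 1) ^ 2 + 5) + NL N E xv * (C1 * (N + 1) ^ 3 * P) := by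
      have h1 : ∀ t, Ca * (N + 1) ^ 2 + 3 +
          (if (xv.all fun x => E t x) = true then C1 * (N + 1) ^ 3 * P else 0) + 2
          = (Ca * (N + 1) ^ 2 + 5) +
            (if (xv.all fun x => E t x) = true then C1 * (N + 1) ^ 3 * P else 0) := by
        intro t; ring
      simp only [h1]
      rw [Finset.sum_add_distrib, Finset.sum_const, Finset.card_range, smul_eq_mul,
        ← Finset.sum_filter, Finset.sum_const, smul_eq_mul]
      rfl
    rw [hsum]
    have hPs : ∑ i ∈ Finset.range ((Vr.c i :: cs).length + 1), NL N E xv ^ i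
        = 1 + NL N E xv * P := by
      rw [List.length_cons, Finset.sum_range_succ', pow_zero, hP, Finset.mul_sum, add_comm]
      congr 1
      apply Finset.sum_congr rfl
      intro j _
      ring
    rw [hPs]
    have hM1 : 1 ≤ (N + 1) ^ 2 := Nat.one_le_pow _ _ (by omega)
    have e3 : (N + 1) ^ 3 = (N + 1) * (N + 1) ^ 2 := by ring
    have hb1 : N + 2 + N * (Ca * (N + 1) ^ 2 + 5) ≤ (Ca + 7) * (N + 1) ^ 3 := by
      rw [e3]
      calc N + 2 + N * (Ca * (N + 1) ^ 2 + 5)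
          ≤ 2 * (N + 1) * (N + 1) ^ 2 + (N + 1) * (Ca * (N + 1) ^ 2 + 5 * (N + 1) ^ 2) := by
            have : N + 2 ≤ 2 * (N + 1) * (N + 1) ^ 2 := by nlinarith
            have : N * (Ca * (N + 1) ^ 2 + 5) ≤ (N + 1) * (Ca * (N + 1) ^ 2 + 5 * (N + 1) ^ 2) := by
              gcongr
              · omega
              · omega
            omega
        _ = (Ca + 7) * ((N + 1) * (N + 1) ^ 2) := by ring
    have hb2 : NL N E xv * (C1 * (N + 1) ^ 3 * P)
        ≤ (C1 + Ca + 7) * (N + 1) ^ 3 * (NL N E xv * P) := by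
      calc NL N E xv * (C1 * (N + 1) ^ 3 * P) = C1 * ((N + 1) ^ 3 * (NL N E xv * P)) := by ring
        _ ≤ (C1 + Ca + 7) * ((N + 1) ^ 3 * (NL N E xv * P)) := by
          gcongr
          omega
        _ = _ := by ring
    calc N + 2 + (N * (Ca * (N + 1) ^ 2 + 5) + NL N E xv * (C1 * (N + 1) ^ 3 * P))
        = (N + 2 + N * (Ca * (N + 1) ^ 2 + 5)) + NL N E xv * (C1 * (N + 1) ^ 3 * P) := by ring
      _ ≤ (Ca + 7) * (N + 1) ^ 3 + (C1 + Ca + 7) * (N + 1) ^ 3 * (NL N E xv * P) :=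
          Nat.add_le_add hb1 hb2
      _ ≤ (C1 + Ca + 7) * (N + 1) ^ 3 + (C1 + Ca + 7) * (N + 1) ^ 3 * (NL N E xv * P) := by
          gcongr
          omega
      _ = _ := by ring

/-- The star relation on values. -/
def starL : List ℕ → List ℕ → Bool
  | [], _ => false
  | x0 :: xs, ms => (xs.zip ms).all fun q => decide (q.1 ≠ x0 ∧ q.1 % q.2 = x0 % q.2)

/-- Test of the star relation. -/
def starAll (ms : List (Vr r k D)) : Cmd (Vr r k D) Fl :=
  andAll .g .h (((xsT : List (Vr r k D)).zip ms).map fun q => starC q.1 (Vr.x 0) q.2)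

theorem starAll_wv (ms : List (Vr r k D)) {v : Vr r k D} (h1 : v ≠ .ta) (h2 : v ≠ .cc) :
    v ∉ (starAll ms).wv := by
  apply andAll_wv
  intro c hc
  rw [List.mem_map] at hc
  obtain ⟨q, _, rfl⟩ := hc
  simp [starC_wv, h1, h2]

theorem starAll_wb (ms : List (Vr r k D)) {f : Fl} (h0 : f ≠ .g) (h1 : f ≠ .e) (h2 : f ≠ .f1)
    (h3 : f ≠ .f2) (h4 : f ≠ .h) (h5 : f ≠ .st) : f ∉ (starAll ms).wb := by
  apply andAll_wb _ _ _ h0
  intro c hc
  rw [List.mem_map] at hc
  obtain ⟨q, _, rfl⟩ := hc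
  simp [starC_wb, h1, h2, h3, h4, h5]

theorem starAll_deg (ms : List (Vr r k D)) : (starAll ms).deg ≤ 2 := by
  apply andAll_deg
  intro c hc
  rw [List.mem_map] at hc
  obtain ⟨q, _, rfl⟩ := hc
  rw [starC_deg]

theorem starAll_WF (ms : List (Vr r k D)) (hms : ∀ m ∈ ms, m ≠ .ta ∧ m ≠ .cc) :
    (starAll ms).WF := by
  apply andAll_WF
  intro c hc
  rw [List.mem_map] at hc
  obtain ⟨q, hq, rfl⟩ := hc
  have h1 := List.of_mem_zip hq
  obtain ⟨i, hi⟩ := mem_xsT.1 h1.1
  exact starC_WF _ _ _ (by rw [hi]; simp) (by simp) (hms _ h1.2).2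

variable {N : ℕ} {w : List Sym}

theorem starAll_spec (ms : List (Vr r k D)) (hms : ∀ m ∈ ms, m ≠ .ta ∧ m ≠ .cc)
    (s : St (Vr r k D) Fl) (hok : s.ok N w) (hx : ∀ x ∈ (xsV : List (Vr r k D)), s.v x < N)
    (hm : ∀ m ∈ ms, 1 ≤ s.v m) :
    ((starAll ms).exec N w s).b .g = starL (xsV.map s.v) (ms.map s.v) := by
  have h := andAll_spec (N := N) (w := w) .g .h ((xsT : List (Vr r k D)).zip ms)
    (fun q => starC q.1 (Vr.x 0) q.2)
    (fun q => decide (s.v q.1 ≠ s.v (Vr.x 0) ∧ s.v q.1 % s.v q.2 = s.v (Vr.x 0) % s.v q.2))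
    (fun s' => s'.ok N w ∧ ∀ v, v ≠ Vr.ta → v ≠ Vr.cc → s'.v v = s.v v) ?_ s
    ⟨hok, fun _ _ _ => rfl⟩
  · rw [starAll, h]
    simp only [xsV, List.map_cons, starL]
    rw [List.zip_map, List.all_map]
    rfl
  · intro q hq s' hs'
    have h1 := List.of_mem_zip hq
    obtain ⟨i, hi⟩ := mem_xsT.1 h1.1
    have hq1 : q.1 ∈ (xsV : List (Vr r k D)) := by rw [hi]; exact mem_xsV.2 ⟨_, rfl⟩
    have hx0 : Vr.x 0 ∈ (xsV : List (Vr r k D)) := mem_xsV.2 ⟨_, rfl⟩
    have e1 : s'.v q.1 = s.v q.1 := hs'.2 _ (by rw [hi]; simp) (by rw [hi]; simp)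
    have e2 : s'.v (Vr.x 0) = s.v (Vr.x 0) := hs'.2 _ (by simp) (by simp)
    have e3 : s'.v q.2 = s.v q.2 := hs'.2 _ (hms _ h1.2).1 (hms _ h1.2).2
    refine ⟨?_, Cmd.exec_ok _ _ hs'.1, ?_⟩
    · rw [starC_spec _ _ _ (by rw [hi]; simp) (by simp) (hms _ h1.2) s' hs'.1
        (by rw [e1]; exact hx _ hq1) (by rw [e2]; exact hx _ hx0) (by rw [e3]; exact hm _ h1.2),
        e1, e2, e3]
    · intro v hv1 hv2
      rw [Cmd.exec_v _ _ (by rw [starC_wv]; simp [hv1, hv2]), hs'.2 v hv1 hv2]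

/-- Count of common left neighbours. -/
def cntL : Cmd (Vr r k D) Fl :=
  countC .y (allE .g ((xsV : List (Vr r k D)).map fun x => (.y, x))) .g .cnt

theorem cntL_wv {v : Vr r k D} (h1 : v ≠ .ta) (h2 : v ≠ .tb) (h3 : v ≠ .y) (h4 : v ≠ .cnt) :
    v ∉ (cntL : Cmd (Vr r k D) Fl).wv := by
  rw [cntL, countC_wv]
  simp [h3, h4, allE_wv _ _ h1 h2]

theorem cntL_wb {f : Fl} (h1 : f ≠ .g) (h2 : f ≠ .e) (h3 : f ≠ .f1) (h4 : f ≠ .f2) :
    f ∉ (cntL : Cmd (Vr r k D) Fl).wb := by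
  rw [cntL, countC_wb]
  exact allE_wb _ _ h1 h2 h3 h4

theorem cntL_deg : (cntL : Cmd (Vr r k D) Fl).deg ≤ 3 := by
  rw [cntL, countC_deg]
  have := allE_deg .g ((xsV : List (Vr r k D)).map fun x => (Vr.y, x))
  omega

theorem cntL_WF : (cntL : Cmd (Vr r k D) Fl).WF := by
  apply countC_WF
  · apply allE_WF
    intro q hq
    rw [List.mem_map] at hq
    obtain ⟨x, hx, rfl⟩ := hq
    obtain ⟨i, rfl⟩ := mem_xsV.1 hx
    simp [Dat]
  · exact allE_wv _ _ (by simp) (by simp)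
  · simp

theorem cntL_spec {E : ℕ → ℕ → Bool} (hG : Good N w E) (s : St (Vr r k D) Fl)
    (hok : s.ok N w) (hx : ∀ x ∈ (xsV : List (Vr r k D)), s.v x < N) :
    (cntL.exec N w s).v .cnt = NL N E (xsV.map s.v) := by
  rw [cntL, countC_spec (N := N) (w := w) .y _ .g .cnt (allE_wv _ _ (by simp) (by simp))
    (by simp) (allE_wv _ _ (by simp) (by simp)) (fun y => (xsV.map s.v).all fun x => E y x) s hok]
  · rfl
  · intro t ht s' hok' hst hfr hfb
    have hxx : ∀ x ∈ (xsV : List (Vr r k D)), s'.v x = s.v x := by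
      intro x hx
      obtain ⟨i, rfl⟩ := mem_xsV.1 hx
      exact hfr _ (allE_wv _ _ (by simp) (by simp)) (by simp) (by simp)
    rw [allE_spec hG]
    · rw [List.all_map, List.all_map, Bool.eq_iff_iff, List.all_eq_true, List.all_eq_true]
      constructor
      · intro h c hc
        have := h c hc
        simpa [hxx c hc, hst] using this
      · intro h c hc
        have := h c hc
        simpa [hxx c hc, hst] using this
    · intro q hq
      rw [List.mem_map] at hq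
      obtain ⟨x, hx, rfl⟩ := hq
      obtain ⟨i, rfl⟩ := mem_xsV.1 hx
      simp [Dat]
    · exact hok'
    · intro q hq
      rw [List.mem_map] at hq
      obtain ⟨x, hx', rfl⟩ := hq
      simp only
      rw [hxx x hx']
      exact hx x hx'

theorem arrCnt : Arr (Zs : List (Vr r k D)) Ws .cnt where
  nz := Zs_nodup
  nu := Ws_nodup
  len := by rw [Zs_length, Ws_length]
  dis := by
    intro u hu h
    obtain ⟨i, rfl⟩ := mem_Ws.1 hu
    obtain ⟨j, hj⟩ := mem_Zs.1 h
    cases hj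
  za := by intro h; obtain ⟨j, hj⟩ := mem_Zs.1 h; cases hj
  ua := by intro h; obtain ⟨j, hj⟩ := mem_Ws.1 h; cases hj
  zb := by intro h; obtain ⟨j, hj⟩ := mem_Zs.1 h; cases hj
  ub := by intro h; obtain ⟨j, hj⟩ := mem_Ws.1 h; cases hj
  mz := by intro h; obtain ⟨j, hj⟩ := mem_Zs.1 h; cases hj
  mu := by intro h; obtain ⟨j, hj⟩ := mem_Ws.1 h; cases hj
  ma := by simp
  mb := by simp

theorem arrY : Arr (Zs : List (Vr r k D)) Ws .y where
  nz := Zs_nodup
  nu := Ws_nodup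
  len := by rw [Zs_length, Ws_length]
  dis := by
    intro u hu h
    obtain ⟨i, rfl⟩ := mem_Ws.1 hu
    obtain ⟨j, hj⟩ := mem_Zs.1 h
    cases hj
  za := by intro h; obtain ⟨j, hj⟩ := mem_Zs.1 h; cases hj
  ua := by intro h; obtain ⟨j, hj⟩ := mem_Ws.1 h; cases hj
  zb := by intro h; obtain ⟨j, hj⟩ := mem_Zs.1 h; cases hj
  ub := by intro h; obtain ⟨j, hj⟩ := mem_Ws.1 h; cases hj
  mz := by intro h; obtain ⟨j, hj⟩ := mem_Zs.1 h; cases hj
  mu := by intro h; obtain ⟨j, hj⟩ := mem_Ws.1 h; cases hj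
  ma := by simp
  mb := by simp

/-- Variables different from all scratch variables of the weight computation. -/
def Far (v : Vr r k D) : Prop :=
  v ≠ .ta ∧ v ≠ .tb ∧ v ≠ .cc ∧ v ≠ .y ∧ v ≠ .cnt ∧ v ∉ (Zs : List (Vr r k D)) ∧
    v ∉ (Ws : List (Vr r k D)) ∧ v ∉ (As : List (Vr r k D))

/-- Inner body of the weight computation. -/
def wbody : Cmd (Vr r k D) Fl :=
  blk [starAll msV, .ite (fun b => b .g)
    (blk [cntL, vpowL Zs Ws .cnt k, vaddL As Zs]) (.op .nop)]

theorem wbody_wv {v : Vr r k D} (h : Far v) : v ∉ (wbody : Cmd (Vr r k D) Fl).wv := by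
  obtain ⟨h1, h2, h3, h4, h5, h6, h7, h8⟩ := h
  simp [wbody, Cmd.wv, Op.wv, starAll_wv msV h1 h3, cntL_wv h1 h2 h4 h5,
    vpowL_wv Zs Ws .cnt k h6 h7 h1 h2, vaddL_wv As Zs h8 h1]

theorem wbody_wb {f : Fl} (h0 : f ≠ .g) (h1 : f ≠ .e) (h2 : f ≠ .f1)
    (h3 : f ≠ .f2) (h4 : f ≠ .h) (h5 : f ≠ .st) : f ∉ (wbody : Cmd (Vr r k D) Fl).wb := by
  simp [wbody, Cmd.wb, Op.wb, starAll_wb msV h0 h1 h2 h3 h4 h5, cntL_wb h0 h1 h2 h3,
    vpowL_wb Zs Ws .cnt k h2 h3, vaddL_wb As Zs h2 h3]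

theorem wbody_deg : (wbody : Cmd (Vr r k D) Fl).deg ≤ 3 := by
  have h1 := starAll_deg (msV : List (Vr r k D))
  have h2 := cntL_deg (r := r) (k := k) (D := D)
  have h3 := vpowL_deg (Zs : List (Vr r k D)) Ws .cnt k
  have h4 := vaddL_deg (As : List (Vr r k D)) Zs
  simp [wbody, Cmd.deg, Op.deg]
  omega

theorem far_x (i : Fin (r + 1)) : Far (Vr.x i : Vr r k D) := by
  refine ⟨by simp, by simp, by simp, by simp, by simp, ?_, ?_, ?_⟩
  · intro h; obtain ⟨j, hj⟩ := mem_Zs.1 h; cases hj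
  · intro h; obtain ⟨j, hj⟩ := mem_Ws.1 h; cases hj
  · intro h; obtain ⟨j, hj⟩ := mem_As.1 h; cases hj

theorem far_m (i : Fin r) : Far (Vr.m i : Vr r k D) := by
  refine ⟨by simp, by simp, by simp, by simp, by simp, ?_, ?_, ?_⟩
  · intro h; obtain ⟨j, hj⟩ := mem_Zs.1 h; cases hj
  · intro h; obtain ⟨j, hj⟩ := mem_Ws.1 h; cases hj
  · intro h; obtain ⟨j, hj⟩ := mem_As.1 h; cases hj

theorem far_m' (i : Fin r) : Far (Vr.m' i : Vr r k D) := by
  refine ⟨by simp, by simp, by simp, by simp, by simp, ?_, ?_, ?_⟩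
  · intro h; obtain ⟨j, hj⟩ := mem_Zs.1 h; cases hj
  · intro h; obtain ⟨j, hj⟩ := mem_Ws.1 h; cases hj
  · intro h; obtain ⟨j, hj⟩ := mem_As.1 h; cases hj

theorem far_qc : Far (Vr.qc : Vr r k D) := by
  refine ⟨by simp, by simp, by simp, by simp, by simp, ?_, ?_, ?_⟩
  · intro h; obtain ⟨j, hj⟩ := mem_Zs.1 h; cases hj
  · intro h; obtain ⟨j, hj⟩ := mem_Ws.1 h; cases hj
  · intro h; obtain ⟨j, hj⟩ := mem_As.1 h; cases hj

theorem far_sv : Far (Vr.sv : Vr r k D) := by
  refine ⟨by simp, by simp, by simp, by simp, by simp, ?_, ?_, ?_⟩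
  · intro h; obtain ⟨j, hj⟩ := mem_Zs.1 h; cases hj
  · intro h; obtain ⟨j, hj⟩ := mem_Ws.1 h; cases hj
  · intro h; obtain ⟨j, hj⟩ := mem_As.1 h; cases hj

theorem As_ne {v : Vr r k D} (h : v ∈ (As : List (Vr r k D))) :
    v ≠ .ta ∧ v ≠ .tb ∧ v ≠ .cc ∧ v ≠ .y ∧ v ≠ .cnt ∧ v ∉ (Zs : List (Vr r k D)) ∧
    v ∉ (Ws : List (Vr r k D)) := by
  obtain ⟨i, rfl⟩ := mem_As.1 h
  refine ⟨by simp, by simp, by simp, by simp, by simp, ?_, ?_⟩
  · intro h; obtain ⟨j, hj⟩ := mem_Zs.1 h; cases hj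
  · intro h; obtain ⟨j, hj⟩ := mem_Ws.1 h; cases hj

theorem Zs_As {z : Vr r k D} (h : z ∈ (Zs : List (Vr r k D))) : z ∉ (As : List (Vr r k D)) := by
  obtain ⟨i, rfl⟩ := mem_Zs.1 h
  intro h'; obtain ⟨j, hj⟩ := mem_As.1 h'; cases hj

theorem ta_Zs : Vr.ta ∉ (Zs : List (Vr r k D)) := by
  intro h; obtain ⟨j, hj⟩ := mem_Zs.1 h; cases hj

theorem ta_As : Vr.ta ∉ (As : List (Vr r k D)) := by
  intro h; obtain ⟨j, hj⟩ := mem_As.1 h; cases hj

theorem wbody_WF : (wbody : Cmd (Vr r k D) Fl).WF := by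
  have h1 : (starAll (msV : List (Vr r k D))).WF := by
    apply starAll_WF
    intro m hm
    obtain ⟨i, rfl⟩ := mem_msV.1 hm
    simp
  simp [wbody, Cmd.WF, Op.WF, h1, cntL_WF, vpowL_WF _ _ _ arrCnt k, vaddL_WF As Zs ta_As ta_Zs]

/-- The weight function on values. -/
def Fw (k N : ℕ) (E : ℕ → ℕ → Bool) (mv l : List ℕ) : ℕ :=
  if starL l mv = true then NL N E l ^ k else 0

/-- The total weight. -/
def Pw (k N r : ℕ) (E : ℕ → ℕ → Bool) (mv : List ℕ) : ℕ := tsum N (r + 1) (Fw k N E mv)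

theorem NL_le (N : ℕ) (E : ℕ → ℕ → Bool) (l : List ℕ) : NL N E l ≤ N := by
  have := Finset.card_filter_le (Finset.range N) fun c => (l.all fun x => E c x) = true
  rwa [Finset.card_range] at this

theorem wbody_spec {E : ℕ → ℕ → Bool} (hG : Good N w E) (hN : 2 ≤ N) (hk : k < D)
    (mv : List ℕ) (hmv : ∀ a ∈ mv, 1 ≤ a) (s : St (Vr r k D) Fl) (n : ℕ) (hok : s.ok N w)
    (hx : ∀ x ∈ (xsV : List (Vr r k D)), s.v x < N)
    (hacc : (∀ d ∈ (As : List (Vr r k D)), s.v d < N) ∧ valL N s.v As = n ∧ msV.map s.v = mv)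
    (hb : n + Fw k N E mv (xsV.map s.v) < N ^ D) :
    (∀ d ∈ (As : List (Vr r k D)), (wbody.exec N w s).v d < N) ∧
      valL N (wbody.exec N w s).v As = n + Fw k N E mv (xsV.map s.v) ∧
      msV.map (wbody.exec N w s).v = mv := by
  obtain ⟨a1, a2, a3⟩ := hacc
  have hms : (msV : List (Vr r k D)).map (wbody.exec N w s).v = mv := by
    rw [← a3]
    apply List.map_congr_left
    intro m hm
    obtain ⟨i, rfl⟩ := mem_msV.1 hm
    exact Cmd.exec_v _ _ (wbody_wv (far_m i))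
  set s1 := (starAll (msV : List (Vr r k D))).exec N w s with hs1
  have hok1 : s1.ok N w := Cmd.exec_ok _ _ hok
  have hfr1 : ∀ v : Vr r k D, v ≠ .ta → v ≠ .cc → s1.v v = s.v v := fun v h1 h2 =>
    Cmd.exec_v _ _ (starAll_wv msV h1 h2)
  have hg1 : s1.b .g = starL (xsV.map s.v) mv := by
    rw [hs1, starAll_spec msV _ s hok hx _, a3]
    · intro m hm
      obtain ⟨i, rfl⟩ := mem_msV.1 hm
      simp
    · intro m hm
      apply hmv
      rw [← a3]
      exact List.mem_map_of_mem hm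
  have hAs1 : valL N s1.v As = n := by
    rw [← a2]
    apply valL_congr
    intro d hd
    have := As_ne hd
    exact hfr1 d this.1 this.2.2.1
  have hAd1 : ∀ d ∈ (As : List (Vr r k D)), s1.v d < N := by
    intro d hd
    have := As_ne hd
    rw [hfr1 d this.1 this.2.2.1]
    exact a1 d hd
  have hex : wbody.exec N w s = (Cmd.ite (fun b => b .g)
    (blk [cntL, vpowL Zs Ws .cnt k, vaddL As Zs]) (.op .nop)).exec N w s1 := rfl
  by_cases hst : starL (xsV.map s.v) mv = true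
  · have hF : Fw k N E mv (xsV.map s.v) = NL N E (xsV.map s.v) ^ k := by
      rw [Fw, if_pos hst]
    rw [hF] at hb ⊢
    have hex2 : wbody.exec N w s = (vaddL As Zs).exec N w
        ((vpowL Zs Ws .cnt k).exec N w (cntL.exec N w s1)) := by
      rw [hex]
      simp only [Cmd.exec, hg1, hst, if_true, exec_blk_cons, exec_blk_nil]
    set s2 := (cntL : Cmd (Vr r k D) Fl).exec N w s1 with hs2
    have hok2 : s2.ok N w := Cmd.exec_ok _ _ hok1
    have hxx : (xsV : List (Vr r k D)).map s1.v = xsV.map s.v := by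
      apply List.map_congr_left
      intro x hx
      obtain ⟨i, rfl⟩ := mem_xsV.1 hx
      exact hfr1 _ (by simp) (by simp)
    have hcnt : s2.v .cnt = NL N E (xsV.map s.v) := by
      rw [hs2, cntL_spec hG s1 hok1, hxx]
      intro x hx'
      obtain ⟨i, rfl⟩ := mem_xsV.1 hx'
      rw [hfr1 _ (by simp) (by simp)]
      exact hx _ hx'
    have hfr2 : ∀ d ∈ (As : List (Vr r k D)), s2.v d = s1.v d := by
      intro d hd
      obtain ⟨b1, b2, b3, b4, b5, b6, b7⟩ := As_ne hd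
      exact Cmd.exec_v _ _ (cntL_wv b1 b2 b4 b5)
    set s3 := (vpowL (Zs : List (Vr r k D)) Ws .cnt k).exec N w s2 with hs3
    have hok3 : s3.ok N w := Cmd.exec_ok _ _ hok2
    have hpow := vpowL_spec (N := N) (w := w) (Zs : List (Vr r k D)) Ws .cnt arrCnt k
      (by rw [Zs_length]; exact hk) hN s2 hok2
    rw [← hs3, hcnt] at hpow
    have hfr3 : ∀ d ∈ (As : List (Vr r k D)), s3.v d = s1.v d := by
      intro d hd
      obtain ⟨b1, b2, b3, b4, b5, b6, b7⟩ := As_ne hd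
      rw [hs3, Cmd.exec_v _ _ (vpowL_wv Zs Ws .cnt k b6 b7 b1 b2), hfr2 d hd]
    have hv3 : valL N s3.v As = n := by
      rw [← hAs1]
      exact valL_congr _ _ _ hfr3
    have hadd := vaddL_spec (N := N) (w := w) (As : List (Vr r k D)) Zs As_nodup ta_As ta_Zs
      (fun z hz => Zs_As hz) s3 hok3 (fun d hd => by rw [hfr3 d hd]; exact hAd1 d hd) (by
        rw [hv3, hpow.2, As_length]; exact hb)
    rw [hv3, hpow.2, ← hex2] at hadd
    exact ⟨hadd.1, hadd.2, hms⟩
  · have hF : Fw k N E mv (xsV.map s.v) = 0 := by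
      rw [Fw, if_neg hst]
    rw [hF, add_zero]
    have hex2 : wbody.exec N w s = s1 := by
      rw [hex]
      simp only [Cmd.exec, hg1, hst, Bool.false_eq_true, if_false, Op.exec]
    rw [hex2] at hms ⊢
    exact ⟨hAd1, hAs1, hms⟩

/-- The weight computation. -/
def weight : Cmd (Vr r k D) Fl := blk [vzeroL As, loopsX wbody xsV]

theorem weight_wv {v : Vr r k D} (h : Far v) (h2 : v ∉ (xsV : List (Vr r k D))) :
    v ∉ (weight : Cmd (Vr r k D) Fl).wv := by
  simp [weight, vzeroL_wv As h.2.2.2.2.2.2.2, loopsX_wv wbody xsV (wbody_wv h) h2]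

theorem weight_wb {f : Fl} (h0 : f ≠ .g) (h1 : f ≠ .e) (h2 : f ≠ .f1)
    (h3 : f ≠ .f2) (h4 : f ≠ .h) (h5 : f ≠ .st) : f ∉ (weight : Cmd (Vr r k D) Fl).wb := by
  simp [weight, vzeroL_wb, loopsX_wb wbody xsV (wbody_wb h0 h1 h2 h3 h4 h5)]

theorem weight_deg : (weight : Cmd (Vr r k D) Fl).deg ≤ r + 4 := by
  have h1 := vzeroL_deg (As : List (Vr r k D))
  have h2 := wbody_deg (r := r) (k := k) (D := D)
  simp only [weight, deg_blk_cons, deg_blk_nil, loopsX_deg, xsV_length]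
  omega

theorem weight_WF : (weight : Cmd (Vr r k D) Fl).WF := by
  have h : (loopsX wbody (xsV : List (Vr r k D))).WF := by
    apply loopsX_WF _ _ wbody_WF xsV_nodup
    intro x hx
    obtain ⟨i, rfl⟩ := mem_xsV.1 hx
    exact wbody_wv (far_x i)
  simp [weight, vzeroL_WF, h]

theorem weight_spec {E : ℕ → ℕ → Bool} (hG : Good N w E) (hN : 2 ≤ N) (hk : k < D)
    (mv : List ℕ) (hmv : ∀ a ∈ mv, 1 ≤ a) (s : St (Vr r k D) Fl) (hok : s.ok N w)
    (hms : msV.map s.v = mv) (hb : Pw k N r E mv < N ^ D) :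
    (∀ d ∈ (As : List (Vr r k D)), (weight.exec N w s).v d < N) ∧
      valL N (weight.exec N w s).v As = Pw k N r E mv := by
  set s1 := (vzeroL (As : List (Vr r k D))).exec N w s with hs1
  have hok1 : s1.ok N w := Cmd.exec_ok _ _ hok
  have hz := vzeroL_spec (N := N) (w := w) (As : List (Vr r k D)) s
  rw [← hs1] at hz
  have hms1 : (msV : List (Vr r k D)).map s1.v = mv := by
    rw [← hms]
    apply List.map_congr_left
    intro m hm
    obtain ⟨i, rfl⟩ := mem_msV.1 hm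
    exact Cmd.exec_v _ _ (vzeroL_wv As (far_m i).2.2.2.2.2.2.2)
  have key := loopsX_acc (N := N) (w := w) (wbody : Cmd (Vr r k D) Fl) xsV xsV_nodup
    (by
      intro x hx
      obtain ⟨i, rfl⟩ := mem_xsV.1 hx
      exact wbody_wv (far_x i)) (N ^ D) (Fw k N E mv)
    (fun n s' => (∀ d ∈ (As : List (Vr r k D)), s'.v d < N) ∧ valL N s'.v As = n ∧
      msV.map s'.v = mv)
    (fun s' n hok' hx hacc hb' => wbody_spec hG hN hk mv hmv s' n hok' hx hacc hb')
    (by
      intro s' n x hx a hacc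
      obtain ⟨i, rfl⟩ := mem_xsV.1 hx
      obtain ⟨a1, a2, a3⟩ := hacc
      have hne : ∀ d ∈ (As : List (Vr r k D)), update s'.v (Vr.x i) a d = s'.v d := by
        intro d hd
        obtain ⟨j, rfl⟩ := mem_As.1 hd
        simp
      refine ⟨?_, ?_, ?_⟩
      · intro d hd
        simp only
        rw [hne d hd]
        exact a1 d hd
      · simp only
        rw [valL_congr _ _ _ hne]
        exact a2
      · rw [← a3]
        apply List.map_congr_left
        intro m hm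
        obtain ⟨j, rfl⟩ := mem_msV.1 hm
        simp)
    xsV [] rfl s1 0 hok1 (by intro x hx; simp at hx)
    ⟨fun d hd => by rw [hz d hd]; omega, valL_zero _ _ hz, hms1⟩ (by
      simp only [List.map_nil, List.nil_append, zero_add, xsV_length]
      exact hb)
  simp only [List.map_nil, List.nil_append, zero_add, xsV_length] at key
  exact ⟨key.1, key.2.1⟩

end Pool.Agent.Lib.MP_64f491_lc
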