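import Pool.Agent.Lib.MP_64f491_lc.Comb

/-! # The moduli: primes just below the bound -/

namespace Pool.Agent.Lib.MP_64f491_lc

open Filter

/-- Primes between `√Q` and `Q`. -/
def PA (Q : ℕ) : Finset ℕ := (Finset.range Q).filter fun p => p.Prime ∧ Nat.sqrt Q < p

theorem PA_dvd (Q e z : ℕ) (hz : 0 < z) (hzQ : z < Q ^ e) :
    ((PA Q).filter (· ∣ z)).card ≤ 2 * e := by
  by_contra hcon
  push Not at hcon
  have h1 : ∏ p ∈ (PA Q).filter (· ∣ z), p ∣ z := by
    apply Finset.prod_primes_dvd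
    · intro p hp
      rw [Finset.mem_filter, PA, Finset.mem_filter] at hp
      exact hp.1.2.1.prime
    · intro p hp
      exact (Finset.mem_filter.1 hp).2
  have h2 : (Nat.sqrt Q + 1) ^ (2 * e) ≤ ∏ p ∈ (PA Q).filter (· ∣ z), p := by
    calc (Nat.sqrt Q + 1) ^ (2 * e) ≤ (Nat.sqrt Q + 1) ^ ((PA Q).filter (· ∣ z)).card :=
          Nat.pow_le_pow_right (by omega) hcon.le
      _ = ∏ _p ∈ (PA Q).filter (· ∣ z), (Nat.sqrt Q + 1) := by rw [Finset.prod_const]
      _ ≤ ∏ p ∈ (PA Q).filter (· ∣ z), p := by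
          apply Finset.prod_le_prod'
          intro p hp
          rw [Finset.mem_filter, PA, Finset.mem_filter] at hp
          exact hp.1.2.2
  have h3 : Q ^ e ≤ (Nat.sqrt Q + 1) ^ (2 * e) := by
    rw [pow_mul]
    apply Nat.pow_le_pow_left
    have := Nat.lt_succ_sqrt Q
    rw [pow_two]
    exact this.le
  have h4 := Nat.le_of_dvd hz h1
  omega

theorem primes_le (m : ℕ) : Nat.primeCounting m ≤ (PA (m + 1)).card + (Nat.sqrt (m + 1) + 1) := by
  have h1 : Nat.primeCounting m = (Nat.primesBelow (m + 1)).card := by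
    rw [Nat.primesBelow_card_eq_primeCounting']
    rfl
  rw [h1, ← Finset.card_range (Nat.sqrt (m + 1) + 1)]
  refine le_trans (Finset.card_le_card ?_) (Finset.card_union_le _ _)
  intro p hp
  rw [Nat.primesBelow, Finset.mem_filter, Finset.mem_range] at hp
  rw [Finset.mem_union, PA, Finset.mem_filter, Finset.mem_range, Finset.mem_range]
  rcases Nat.lt_or_ge (Nat.sqrt (m + 1)) p with h | h
  · exact Or.inl ⟨hp.1, hp.2, h⟩
  · exact Or.inr (by omega)

theorem eventually_PA : ∀ᶠ Q : ℕ in atTop, Q ^ 9 ≤ (PA Q).card ^ 10 := by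
  have h0 : ∀ᶠ x : ℝ in atTop, Real.log x ≤ (1 / 10 : ℝ) * x ^ (1 / 10 : ℝ) := by
    have h := (isLittleO_log_rpow_atTop (r := (1 / 10 : ℝ)) (by norm_num)).def
      (c := 1 / 10) (by norm_num)
    filter_upwards [h, eventually_ge_atTop 1] with x hx hx1
    rw [Real.norm_eq_abs, Real.norm_eq_abs, abs_of_nonneg (Real.log_nonneg hx1),
      abs_of_nonneg (Real.rpow_nonneg (by linarith) _)] at hx
    exact hx
  have h1 := (tendsto_natCast_atTop_atTop (R := ℝ)).eventually h0
  filter_upwards [h1, eventually_ge_atTop 10] with Q hQ hQ10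
  obtain ⟨m, rfl⟩ : ∃ m, Q = m + 1 := ⟨Q - 1, by omega⟩
  have hm : 9 ≤ m := by omega
  have hmR : (9 : ℝ) ≤ m := by exact_mod_cast hm
  set x : ℝ := ((m + 1 : ℕ) : ℝ) with hx
  have hxm : x = m + 1 := by rw [hx]; push_cast; ring
  have hx1 : 1 ≤ x := by rw [hxm]; linarith
  have hx0 : 0 < x := by linarith
  have hπ := Chebyshev.pi_ge m
  have hle : (Nat.primeCounting m : ℝ) ≤ (PA (m + 1)).card + (Nat.sqrt (m + 1) + 1) := by
    exact_mod_cast primes_le m
  have hlogm : 0 < Real.log m := Real.log_pos (by linarith)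
  rw [div_le_iff₀ hlogm] at hπ
  have hlogx : Real.log m ≤ Real.log x := Real.log_le_log (by linarith) (by rw [hxm]; linarith)
  set y : ℝ := x ^ (9 / 10 : ℝ) with hy
  have hy1 : 1 ≤ y := Real.one_le_rpow hx1 (by norm_num)
  have hsq : (Nat.sqrt (m + 1) : ℝ) ≤ y := by
    calc (Nat.sqrt (m + 1) : ℝ) ≤ Real.sqrt ((m + 1 : ℕ) : ℝ) := Real.nat_sqrt_le_real_sqrt
      _ = x ^ (1 / 2 : ℝ) := by rw [Real.sqrt_eq_rpow]
      _ ≤ y := Real.rpow_le_rpow_of_exponent_le hx1 (by norm_num)
  have hylog : y * Real.log x ≤ (1 / 10 : ℝ) * x := by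
    calc y * Real.log x ≤ y * ((1 / 10 : ℝ) * x ^ (1 / 10 : ℝ)) :=
          mul_le_mul_of_nonneg_left hQ (by linarith)
      _ = (1 / 10 : ℝ) * (y * x ^ (1 / 10 : ℝ)) := by ring
      _ = (1 / 10 : ℝ) * x := by
          rw [hy, ← Real.rpow_add hx0]
          norm_num
  have hlog2 : (0.69 : ℝ) < Real.log 2 := by
    have := Real.log_two_gt_d9
    linarith
  have hcard : y ≤ ((PA (m + 1)).card : ℝ) := by
    by_contra hcon
    push Not at hcon
    have hlx : Real.log (m + 1) = Real.log x := by rw [hxm]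
    rw [hlx] at hπ
    have g1 : (Nat.primeCounting m : ℝ) * Real.log m ≤ (y + (y + 1)) * Real.log m := by
      apply mul_le_mul_of_nonneg_right _ hlogm.le
      linarith
    have g2 : (y + (y + 1)) * Real.log m ≤ (3 * y) * Real.log x := by
      apply mul_le_mul (by linarith) hlogx hlogm.le (by linarith)
    have g3 : Real.log x ≤ y * Real.log x := le_mul_of_one_le_left (Real.log_nonneg hx1) hy1
    have g4 : (m : ℝ) * Real.log 2 ≥ (m : ℝ) * 0.69 := by
      apply mul_le_mul_of_nonneg_left hlog2.le (by linarith)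
    nlinarith
  have hfin : x ^ 9 ≤ ((PA (m + 1)).card : ℝ) ^ 10 := by
    calc x ^ 9 = y ^ 10 := by
          rw [hy, ← Real.rpow_natCast, ← Real.rpow_natCast, ← Real.rpow_mul hx0.le]
          norm_num
      _ ≤ _ := pow_le_pow_left₀ (by linarith) hcard 10
  rw [hx] at hfin
  exact_mod_cast hfin

/-- Description of `Qn`. -/
theorem lt_Qn (e N : ℕ) (he : 1 ≤ e) (y : ℕ) : y < Qn e N ↔ y ^ e < N := by
  have hex : ∃ y : ℕ, N ≤ y ^ e := ⟨N, Nat.le_self_pow (by omega) N⟩
  have hset : ((Finset.range N).filter fun y => y ^ e < N) = Finset.range (Nat.find hex) := by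
    ext z
    rw [Finset.mem_filter, Finset.mem_range, Finset.mem_range]
    constructor
    · rintro ⟨_, h2⟩
      by_contra hcon
      push Not at hcon
      have h3 := Nat.find_spec hex
      have h4 := Nat.pow_le_pow_left hcon e
      omega
    · intro h
      have h3 := Nat.find_min hex h
      push Not at h3
      exact ⟨lt_of_le_of_lt (Nat.le_self_pow (by omega) z) h3, h3⟩
  unfold Qn
  rw [hset, Finset.card_range]
  constructor
  · intro h
    have h3 := Nat.find_min hex h
    push Not at h3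
    exact h3
  · intro h
    by_contra hcon
    push Not at hcon
    have h3 := Nat.find_spec hex
    have h4 := Nat.pow_le_pow_left hcon e
    omega

theorem Qn_pow_ge (e N : ℕ) (he : 1 ≤ e) : N ≤ Qn e N ^ e := by
  by_contra hcon
  push Not at hcon
  have := (lt_Qn e N he (Qn e N)).2 hcon
  omega

end Pool.Agent.Lib.MP_64f491_lc
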