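import Pool.Agent.Lib.MP_64f491_lc.Main

/-! # Specification and cost of the whole program -/

namespace Pool.Agent.Lib.MP_64f491_lc

set_option linter.unusedSectionVars false
set_option linter.unusedSimpArgs false
set_option linter.unnecessarySeqFocus false
set_option linter.constructorNameAsVariable false

open Function

variable {r k D : ℕ} {N : ℕ} {w : List Sym}

/-- Repeat a command. -/
def rep : ℕ → Cmd (Vr r k D) Fl → Cmd (Vr r k D) Fl
  | 0, _ => .op .nop
  | n + 1, c => .seq c (rep n c)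

theorem rep_wv (n : ℕ) (c : Cmd (Vr r k D) Fl) {v : Vr r k D} (h : v ∉ c.wv) :
    v ∉ (rep n c).wv := by
  induction n with
  | zero => simp [rep, Cmd.wv, Op.wv]
  | succ n ih => simp [rep, Cmd.wv, h, ih]

theorem rep_wb (n : ℕ) (c : Cmd (Vr r k D) Fl) {f : Fl} (h : f ∉ c.wb) : f ∉ (rep n c).wb := by
  induction n with
  | zero => simp [rep, Cmd.wb, Op.wb]
  | succ n ih => simp [rep, Cmd.wb, h, ih]

theorem rep_deg (n : ℕ) (c : Cmd (Vr r k D) Fl) : (rep n c).deg ≤ c.deg := by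
  induction n with
  | zero => simp [rep, Cmd.deg, Op.deg]
  | succ n ih => simp [rep, Cmd.deg, ih]

theorem rep_WF (n : ℕ) (c : Cmd (Vr r k D) Fl) (h : c.WF) : (rep n c).WF := by
  induction n with
  | zero => simp [rep, Cmd.WF, Op.WF]
  | succ n ih => exact ⟨h, ih⟩

theorem rep_inc (n : ℕ) (i : Vr r k D) (s : St (Vr r k D) Fl) (h : s.v i ≤ N) :
    ((rep n (.op (.inc i))).exec N w s).v i = min (s.v i + n) N := by
  induction n generalizing s with
  | zero =>
    simp only [rep, Cmd.exec, Op.exec, add_zero]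
    omega
  | succ n ih =>
    simp only [rep, Cmd.exec]
    rw [ih _ (by simp [Op.exec])]
    simp only [Op.exec, update_self]
    omega

/-- Compute the number of `y < N` with `y ^ e < N`. -/
def qcC (e : ℕ) : Cmd (Vr r k D) Fl := countC .y (blk [vpowL Zs Ws .y e, smallC 1 Zs]) .g .qc

theorem qcBody_wv (e : ℕ) {v : Vr r k D} (h1 : v ≠ .ta) (h2 : v ≠ .tb)
    (h3 : v ∉ (Zs : List (Vr r k D))) (h4 : v ∉ (Ws : List (Vr r k D))) :
    v ∉ (blk [vpowL Zs Ws .y e, smallC 1 Zs] : Cmd (Vr r k D) Fl).wv := by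
  simp [vpowL_wv Zs Ws .y e h3 h4 h1 h2, smallC_wv]

theorem y_Zs : Vr.y ∉ (Zs : List (Vr r k D)) := by
  intro h; obtain ⟨j, hj⟩ := mem_Zs.1 h; cases hj
theorem y_Ws : Vr.y ∉ (Ws : List (Vr r k D)) := by
  intro h; obtain ⟨j, hj⟩ := mem_Ws.1 h; cases hj
theorem qc_Zs : Vr.qc ∉ (Zs : List (Vr r k D)) := by
  intro h; obtain ⟨j, hj⟩ := mem_Zs.1 h; cases hj
theorem qc_Ws : Vr.qc ∉ (Ws : List (Vr r k D)) := by
  intro h; obtain ⟨j, hj⟩ := mem_Ws.1 h; cases hj

theorem qcC_wv (e : ℕ) {v : Vr r k D} (h1 : v ≠ .ta) (h2 : v ≠ .tb)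
    (h3 : v ∉ (Zs : List (Vr r k D))) (h4 : v ∉ (Ws : List (Vr r k D))) (h5 : v ≠ .y)
    (h6 : v ≠ .qc) : v ∉ (qcC e : Cmd (Vr r k D) Fl).wv := by
  rw [qcC, countC_wv]
  have := qcBody_wv (r := r) (k := k) (D := D) e h1 h2 h3 h4
  simp only [Set.mem_insert_iff, not_or]
  exact ⟨h6, h5, this⟩

theorem qcC_wb (e : ℕ) {f : Fl} (h0 : f ≠ .g) (h1 : f ≠ .e) (h2 : f ≠ .f1) (h3 : f ≠ .f2) :
    f ∉ (qcC e : Cmd (Vr r k D) Fl).wb := by
  rw [qcC, countC_wb]
  simp [vpowL_wb Zs Ws .y e h2 h3, smallC_wb 1 Zs h0 h1]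

theorem qcC_deg (e : ℕ) : (qcC e : Cmd (Vr r k D) Fl).deg ≤ 4 := by
  rw [qcC, countC_deg]
  have h1 := vpowL_deg (Zs : List (Vr r k D)) Ws .y e
  have h2 := smallC_deg 1 (Zs : List (Vr r k D))
  simp
  omega

theorem qcC_WF (e : ℕ) : (qcC e : Cmd (Vr r k D) Fl).WF := by
  apply countC_WF
  · simp [vpowL_WF _ _ _ arrY e, smallC_WF]
  · exact qcBody_wv e (by simp) (by simp) y_Zs y_Ws
  · simp

/-- Number of admissible moduli plus one. -/
def Qn (e N : ℕ) : ℕ := ((Finset.range N).filter fun y => y ^ e < N).card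

theorem qcC_spec (e : ℕ) (he : e < D) (hN : 2 ≤ N) (s : St (Vr r k D) Fl) (hok : s.ok N w) :
    ((qcC e).exec N w s).v .qc = Qn e N := by
  rw [qcC, countC_spec (N := N) (w := w) .y _ .g .qc
    (qcBody_wv e (by simp) (by simp) y_Zs y_Ws) (by simp)
    (qcBody_wv e (by simp) (by simp) qc_Zs qc_Ws) (fun y => decide (y ^ e < N)) s hok]
  · unfold Qn
    congr 1
    ext y
    simp
  · intro t ht s' hok' hst hfr hfb
    simp only [exec_blk_cons, exec_blk_nil]
    set s1 := (vpowL (Zs : List (Vr r k D)) Ws .y e).exec N w s' with hs1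
    have hpow := vpowL_spec (N := N) (w := w) (Zs : List (Vr r k D)) Ws .y arrY e
      (by rw [Zs_length]; exact he) hN s' hok'
    rw [← hs1, hst] at hpow
    rw [Bool.eq_iff_iff, smallC_spec (by omega) 1 Zs s1 hpow.1, hpow.2, pow_one]
    simp

/-- Body of the second phase. -/
def p2body : Cmd (Vr r k D) Fl :=
  blk [starAll ms'V, .ite (fun b => b .g) (search xsV csV) (.op .nop)]

theorem xs_cond : ∀ x ∈ (xsV : List (Vr r k D)),
    Dat x ∧ x ≠ .y ∧ x ≠ .cnt ∧ x ∉ (csV : List (Vr r k D)) := by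
  intro x hx
  obtain ⟨i, rfl⟩ := mem_xsV.1 hx
  refine ⟨by simp [Dat], by simp, by simp, ?_⟩
  intro h; obtain ⟨j, hj⟩ := mem_csV.1 h; cases hj

theorem p2body_wv {v : Vr r k D} (h1 : v ≠ .ta) (h2 : v ≠ .tb) (h3 : v ≠ .cc) (h4 : v ≠ .y)
    (h5 : v ≠ .cnt) (h6 : v ∉ (csV : List (Vr r k D))) :
    v ∉ (p2body : Cmd (Vr r k D) Fl).wv := by
  simp [p2body, Cmd.wv, Op.wv, starAll_wv ms'V h1 h3, search_wv xsV csV h6 h1 h2 h4 h5]

theorem p2body_WF : (p2body : Cmd (Vr r k D) Fl).WF := by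
  have h1 : (starAll (ms'V : List (Vr r k D))).WF := by
    apply starAll_WF
    intro m hm
    obtain ⟨i, rfl⟩ := mem_ms'V.1 hm
    simp
  have h2 : (search (xsV : List (Vr r k D)) csV).WF := by
    apply search_WF _ _ csV_nodup
    · intro c hc; exact mem_csV.1 hc
    · intro x hx; exact (xs_cond x hx).1
  simp [p2body, Cmd.WF, Op.WF, h1, h2]

/-- A tuple of right vertices that leads to acceptance. -/
def Hit (N k sv : ℕ) (E : ℕ → ℕ → Bool) (mv xl : List ℕ) : Prop :=
  starL xl mv = true ∧ ∃ l : List ℕ, l.length = k ∧ (∀ a ∈ l, a < N ∧ Mem E xl a) ∧ Lf N E sv l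

open Classical in
/-- Indicator of `Hit`. -/
noncomputable def hitF (N k sv : ℕ) (E : ℕ → ℕ → Bool) (mv xl : List ℕ) : ℕ :=
  if Hit N k sv E mv xl then 1 else 0

theorem hitF_pos (N k sv : ℕ) (E : ℕ → ℕ → Bool) (mv xl : List ℕ) :
    0 < hitF N k sv E mv xl ↔ Hit N k sv E mv xl := by
  unfold hitF
  split <;> simp_all

theorem p2body_spec {E : ℕ → ℕ → Bool} (hG : Good N w E) (mv : List ℕ)
    (hmv : ∀ a ∈ mv, 1 ≤ a) (sv : ℕ) (s : St (Vr r k D) Fl) (hok : s.ok N w)
    (hx : ∀ x ∈ (xsV : List (Vr r k D)), s.v x < N) (hms : ms'V.map s.v = mv)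
    (hsv : s.v .sv = sv) :
    (p2body.exec N w s).b .acc = true ↔ s.b .acc = true ∨ Hit N k sv E mv (xsV.map s.v) := by
  set s1 := (starAll (ms'V : List (Vr r k D))).exec N w s with hs1
  have hok1 : s1.ok N w := Cmd.exec_ok _ _ hok
  have hfr1 : ∀ v : Vr r k D, v ≠ .ta → v ≠ .cc → s1.v v = s.v v := fun v h1 h2 =>
    Cmd.exec_v _ _ (starAll_wv ms'V h1 h2)
  have hg1 : s1.b .g = starL (xsV.map s.v) mv := by
    rw [hs1, starAll_spec ms'V _ s hok hx _, hms]
    · intro m hm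
      obtain ⟨i, rfl⟩ := mem_ms'V.1 hm
      simp
    · intro m hm
      apply hmv
      rw [← hms]
      exact List.mem_map_of_mem hm
  have hacc1 : s1.b .acc = s.b .acc :=
    Cmd.exec_b _ _ (starAll_wb ms'V (by simp) (by simp) (by simp) (by simp) (by simp) (by simp))
  have hxx : (xsV : List (Vr r k D)).map s1.v = xsV.map s.v := by
    apply List.map_congr_left
    intro x hx
    obtain ⟨i, rfl⟩ := mem_xsV.1 hx
    exact hfr1 _ (by simp) (by simp)
  have hex : p2body.exec N w s = (Cmd.ite (fun b => b .g) (search xsV csV) (.op .nop)).exec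
      N w s1 := rfl
  rw [hex]
  unfold Hit
  by_cases hst : starL (xsV.map s.v) mv = true
  · have hg : s1.b .g = true := by rw [hg1]; exact hst
    simp only [Cmd.exec, hg, if_true, hst, true_and]
    rw [search_spec hG xsV xs_cond (xsV.map s.v) (by
      intro a ha
      rw [List.mem_map] at ha
      obtain ⟨x, hx', rfl⟩ := ha
      exact hx x hx') sv csV [] rfl s1 hok1 hxx (by rw [hfr1 _ (by simp) (by simp), hsv]), hacc1]
    simp only [List.map_nil, List.nil_append, csV_length]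
  · have hg : ¬ s1.b .g = true := by rw [hg1]; exact hst
    simp only [Cmd.exec, hg, Bool.false_eq_true, if_false, Op.exec, hst, false_and, or_false,
      hacc1]

theorem p2_spec {E : ℕ → ℕ → Bool} (hG : Good N w E) (mv : List ℕ)
    (hmv : ∀ a ∈ mv, 1 ≤ a) (sv : ℕ) (s : St (Vr r k D) Fl) (hok : s.ok N w)
    (hms : ms'V.map s.v = mv) (hsv : s.v .sv = sv) (hacc : s.b .acc = false) :
    ((loopsX p2body xsV).exec N w s).b .acc = true ↔
      ∃ xl : List ℕ, xl.length = r + 1 ∧ Lt N xl ∧ Hit N k sv E mv xl := by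
  have key := loopsX_acc (N := N) (w := w) (p2body : Cmd (Vr r k D) Fl) xsV xsV_nodup
    (by
      intro x hx
      obtain ⟨⟨d1, d2⟩, d3, d4, d5⟩ := xs_cond x hx
      obtain ⟨i, rfl⟩ := mem_xsV.1 hx
      exact p2body_wv d1 d2 (by simp) d3 d4 d5)
    (tsum N (r + 1) (hitF N k sv E mv) + 1) (hitF N k sv E mv)
    (fun n s' => (s'.b .acc = true ↔ 0 < n) ∧ ms'V.map s'.v = mv ∧ s'.v .sv = sv)
    (by
      intro s' n hok' hx hI _
      obtain ⟨i1, i2, i3⟩ := hI
      refine ⟨?_, ?_, ?_⟩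
      · rw [p2body_spec hG mv hmv sv s' hok' hx i2 i3, i1, ← hitF_pos]
        omega
      · rw [← i2]
        apply List.map_congr_left
        intro m hm
        obtain ⟨j, rfl⟩ := mem_ms'V.1 hm
        exact Cmd.exec_v _ _ (p2body_wv (by simp) (by simp) (by simp) (by simp) (by simp) (by
          intro h; obtain ⟨j, hj⟩ := mem_csV.1 h; cases hj))
      · rw [Cmd.exec_v _ _ (p2body_wv (by simp) (by simp) (by simp) (by simp) (by simp) (by
          intro h; obtain ⟨j, hj⟩ := mem_csV.1 h; cases hj)), i3])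
    (by
      intro s' n x hx a hI
      obtain ⟨i, rfl⟩ := mem_xsV.1 hx
      obtain ⟨i1, i2, i3⟩ := hI
      refine ⟨i1, ?_, ?_⟩
      · rw [← i2]
        apply List.map_congr_left
        intro m hm
        obtain ⟨j, rfl⟩ := mem_ms'V.1 hm
        simp
      · simpa using i3)
    xsV [] rfl s 0 hok (by intro x hx; simp at hx) ⟨by simp [hacc], hms, hsv⟩ (by
      simp only [List.map_nil, List.nil_append, zero_add, xsV_length]
      exact Nat.lt_succ_self _)
  simp only [List.map_nil, List.nil_append, zero_add, xsV_length] at key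
  rw [key.1, tsum_pos]
  simp only [hitF_pos]

theorem geom_le (m k : ℕ) : ∑ i ∈ Finset.range (k + 1), m ^ i ≤ (k + 1) * (1 + m ^ k) := by
  calc ∑ i ∈ Finset.range (k + 1), m ^ i ≤ ∑ _i ∈ Finset.range (k + 1), (1 + m ^ k) := by
        apply Finset.sum_le_sum
        intro i hi
        have hi' : i ≤ k := by
          have := Finset.mem_range.1 hi
          omega
        rcases Nat.eq_zero_or_pos m with h | h
        · subst h
          rcases Nat.eq_zero_or_pos i with h' | h'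
          · subst h'; simp
          · rw [zero_pow (by omega)]; exact Nat.zero_le _
        · have := Nat.pow_le_pow_right h hi'
          omega
    _ = _ := by rw [Finset.sum_const, Finset.card_range, smul_eq_mul]

theorem p2_cost : ∃ C, ∀ (N : ℕ) (w : List Sym) (E : ℕ → ℕ → Bool), Good N w E →
    w.length ≤ (N + 1) ^ 2 → ∀ mv : List ℕ, (∀ a ∈ mv, 1 ≤ a) → ∀ s : St (Vr r k D) Fl,
      s.ok N w → ms'V.map s.v = mv →
      (loopsX p2body xsV).cost N w s ≤
        C * (N + 1) ^ (r + 4) + C * (N + 1) ^ 3 * Pw k N r E mv := by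
  obtain ⟨Ca, hCa⟩ := Cmd.cost_le_of_deg (starAll (ms'V : List (Vr r k D))) (starAll_deg _)
  obtain ⟨Cs, hCs⟩ := search_cost (xsV : List (Vr r k D)) xs_cond csV [] rfl
  refine ⟨Ca + 3 + Cs * (k + 1) + 3 * (r + 1), fun N w E hG hw mv hmv s hok hms => ?_⟩
  set T : List ℕ → ℕ := fun l => (Ca * (N + 1) ^ 2 + 3) +
    Cs * (k + 1) * (N + 1) ^ 3 * (1 + Fw k N E mv l) with hT
  have key := loopsX_cost (N := N) (w := w) (p2body : Cmd (Vr r k D) Fl) xsV xsV_nodup
    (by
      intro x hx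
      obtain ⟨⟨d1, d2⟩, d3, d4, d5⟩ := xs_cond x hx
      obtain ⟨i, rfl⟩ := mem_xsV.1 hx
      exact p2body_wv d1 d2 (by simp) d3 d4 d5)
    T (fun s' => ms'V.map s'.v = mv)
    (by
      intro s' hok' hx hI
      refine ⟨?_, ?_⟩
      · set s1 := (starAll (ms'V : List (Vr r k D))).exec N w s' with hs1
        have hok1 : s1.ok N w := Cmd.exec_ok _ _ hok'
        have hfr1 : ∀ v : Vr r k D, v ≠ .ta → v ≠ .cc → s1.v v = s'.v v := fun v h1 h2 =>
          Cmd.exec_v _ _ (starAll_wv ms'V h1 h2)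
        have hg1 : s1.b .g = starL (xsV.map s'.v) mv := by
          rw [hs1, starAll_spec ms'V _ s' hok' hx _, hI]
          · intro m hm
            obtain ⟨i, rfl⟩ := mem_ms'V.1 hm
            simp
          · intro m hm
            apply hmv
            rw [← hI]
            exact List.mem_map_of_mem hm
        have hxx : (xsV : List (Vr r k D)).map s1.v = xsV.map s'.v := by
          apply List.map_congr_left
          intro x hx
          obtain ⟨i, rfl⟩ := mem_xsV.1 hx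
          exact hfr1 _ (by simp) (by simp)
        have hcost : p2body.cost N w s' = (starAll (ms'V : List (Vr r k D))).cost N w s' +
          ((1 + if s1.b .g = true then (search xsV csV).cost N w s1 else 1) + 1) := rfl
        rw [hcost, hg1]
        have h1 := hCa N w s' hw
        have h0 : 1 ≤ (N + 1) ^ 3 := Nat.one_le_pow _ _ (by omega)
        simp only [hT]
        by_cases hst : starL (xsV.map s'.v) mv = true
        · rw [if_pos hst]
          have h2 := hCs N w E hG hw s1 hok1 (xsV.map s'.v) hxx (by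
            intro a ha
            rw [List.mem_map] at ha
            obtain ⟨x, hx', rfl⟩ := ha
            exact hx x hx')
          rw [csV_length] at h2
          have h3 := geom_le (NL N E (xsV.map s'.v)) k
          have hF : Fw k N E mv (xsV.map s'.v) = NL N E (xsV.map s'.v) ^ k := by
            rw [Fw, if_pos hst]
          rw [hF]
          have h4 : Cs * (N + 1) ^ 3 * ∑ i ∈ Finset.range (k + 1), NL N E (xsV.map s'.v) ^ i
              ≤ Cs * (k + 1) * (N + 1) ^ 3 * (1 + NL N E (xsV.map s'.v) ^ k) := by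
            calc Cs * (N + 1) ^ 3 * ∑ i ∈ Finset.range (k + 1), NL N E (xsV.map s'.v) ^ i
                ≤ Cs * (N + 1) ^ 3 * ((k + 1) * (1 + NL N E (xsV.map s'.v) ^ k)) :=
                  Nat.mul_le_mul_left _ h3
              _ = _ := by ring
          omega
        · rw [if_neg hst]
          have : 0 ≤ Cs * (k + 1) * (N + 1) ^ 3 * (1 + Fw k N E mv (xsV.map s'.v)) :=
            Nat.zero_le _
          omega
      · rw [← hI]
        apply List.map_congr_left
        intro m hm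
        obtain ⟨j, rfl⟩ := mem_ms'V.1 hm
        exact Cmd.exec_v _ _ (p2body_wv (by simp) (by simp) (by simp) (by simp) (by simp) (by
          intro h; obtain ⟨j, hj⟩ := mem_csV.1 h; cases hj)))
    (by
      intro s' x hx a hI
      obtain ⟨i, rfl⟩ := mem_xsV.1 hx
      rw [← hI]
      apply List.map_congr_left
      intro m hm
      obtain ⟨j, rfl⟩ := mem_ms'V.1 hm
      simp)
    xsV [] rfl s hok (by intro x hx; simp at hx) hms
  simp only [List.map_nil, List.nil_append, xsV_length] at key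
  refine key.1.trans ?_
  have hsum : tsum N (r + 1) T = N ^ (r + 1) * (Ca * (N + 1) ^ 2 + 3
      + Cs * (k + 1) * (N + 1) ^ 3) + Cs * (k + 1) * (N + 1) ^ 3 * Pw k N r E mv := by
    have h1 : T = fun l => (Ca * (N + 1) ^ 2 + 3 + Cs * (k + 1) * (N + 1) ^ 3) +
        Cs * (k + 1) * (N + 1) ^ 3 * Fw k N E mv l := by
      funext l
      simp only [hT]
      ring
    rw [h1, tsum_add, tsum_const, tsum_mul]
    rfl
  rw [hsum]
  have e1 : N ^ (r + 1) ≤ (N + 1) ^ (r + 1) := Nat.pow_le_pow_left (by omega) _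
  have e2 : (N + 1) ^ 2 ≤ (N + 1) ^ 3 := Nat.pow_le_pow_right (by omega) (by omega)
  have e3 : 1 ≤ (N + 1) ^ 3 := Nat.one_le_pow _ _ (by omega)
  have e4 : (N + 1) ^ (r + 1) * (N + 1) ^ 3 = (N + 1) ^ (r + 4) := by rw [← pow_add]
  have e5 : N ^ (r + 1) * (Ca * (N + 1) ^ 2 + 3 + Cs * (k + 1) * (N + 1) ^ 3)
      ≤ (Ca + 3 + Cs * (k + 1)) * (N + 1) ^ (r + 4) := by
    calc N ^ (r + 1) * (Ca * (N + 1) ^ 2 + 3 + Cs * (k + 1) * (N + 1) ^ 3)
        ≤ (N + 1) ^ (r + 1) * (Ca * (N + 1) ^ 3 + 3 * (N + 1) ^ 3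
            + Cs * (k + 1) * (N + 1) ^ 3) := by
          gcongr
          omega
      _ = (Ca + 3 + Cs * (k + 1)) * ((N + 1) ^ (r + 1) * (N + 1) ^ 3) := by ring
      _ = _ := by rw [e4]
  have e6 : 3 * (r + 1) * (N + 1) ^ (r + 1) ≤ 3 * (r + 1) * (N + 1) ^ (r + 4) := by
    gcongr
    · omega
    · omega
  have e7 : Cs * (k + 1) * (N + 1) ^ 3 * Pw k N r E mv
      ≤ (Ca + 3 + Cs * (k + 1) + 3 * (r + 1)) * (N + 1) ^ 3 * Pw k N r E mv := by
    gcongr
    omega
  calc N ^ (r + 1) * (Ca * (N + 1) ^ 2 + 3 + Cs * (k + 1) * (N + 1) ^ 3)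
        + Cs * (k + 1) * (N + 1) ^ 3 * Pw k N r E mv + 3 * (r + 1) * (N + 1) ^ (r + 1)
      ≤ (Ca + 3 + Cs * (k + 1)) * (N + 1) ^ (r + 4)
        + (Ca + 3 + Cs * (k + 1) + 3 * (r + 1)) * (N + 1) ^ 3 * Pw k N r E mv
        + 3 * (r + 1) * (N + 1) ^ (r + 4) := by omega
    _ = _ := by ring

/-- The main branch. -/
def mainC (e q : ℕ) : Cmd (Vr r k D) Fl :=
  blk [qcC e, loopsM q msV, .ite (fun b => b .done) (loopsX p2body xsV)
    (.op (.set .acc fun _ => true))]

/-- The whole program. -/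
def prog (s0 N0 e q : ℕ) : Cmd (Vr r k D) Fl :=
  blk [rep s0 (.op (.inc .sv)), rep N0 (.op (.inc .nz)), .op (.full .nz .g),
    .ite (fun b => b .g) (search [] csV) (mainC e q)]

theorem prog_WF (s0 N0 e q : ℕ) : (prog s0 N0 e q : Cmd (Vr r k D) Fl).WF := by
  have h1 : (search ([] : List (Vr r k D)) csV).WF := by
    apply search_WF _ _ csV_nodup
    · intro c hc; exact mem_csV.1 hc
    · intro x hx; simp at hx
  have h2 : (loopsX p2body (xsV : List (Vr r k D))).WF := by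
    apply loopsX_WF _ _ p2body_WF xsV_nodup
    intro x hx
    obtain ⟨⟨d1, d2⟩, d3, d4, d5⟩ := xs_cond x hx
    obtain ⟨i, rfl⟩ := mem_xsV.1 hx
    exact p2body_wv d1 d2 (by simp) d3 d4 d5
  have h3 : (loopsM q (msV : List (Vr r k D))).WF :=
    loopsM_WF q _ msV_nodup (fun m hm => mem_msV.1 hm)
  have h4 : (rep s0 (.op (.inc .sv)) : Cmd (Vr r k D) Fl).WF := rep_WF _ _ trivial
  have h5 : (rep N0 (.op (.inc .nz)) : Cmd (Vr r k D) Fl).WF := rep_WF _ _ trivial
  simp [prog, mainC, Cmd.WF, Op.WF, h1, h2, h3, h4, h5, qcC_WF]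

/-- State before the case distinction. -/
def preSt (N : ℕ) (w : List Sym) (s0 N0 : ℕ) : St (Vr r k D) Fl :=
  (Cmd.op (.full .nz .g)).exec N w ((rep N0 (.op (.inc .nz))).exec N w
      ((rep s0 (.op (.inc .sv))).exec N w (St.init : St (Vr r k D) Fl)))

theorem preSt_spec (s0 N0 : ℕ) :
    (preSt N w s0 N0 : St (Vr r k D) Fl).ok N w ∧
    (preSt N w s0 N0 : St (Vr r k D) Fl).v .sv = min s0 N ∧
    (preSt N w s0 N0 : St (Vr r k D) Fl).b .g = decide (N ≤ N0) ∧
    (preSt N w s0 N0 : St (Vr r k D) Fl).b .acc = false ∧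
    (preSt N w s0 N0 : St (Vr r k D) Fl).b .done = false := by
  have hok0 : (St.init : St (Vr r k D) Fl).ok N w := ⟨fun _ => Nat.zero_le _, Nat.zero_le _⟩
  set s1 := (rep s0 (.op (.inc .sv))).exec N w (St.init : St (Vr r k D) Fl) with hs1
  have hok1 : s1.ok N w := Cmd.exec_ok _ _ hok0
  set s2 := (rep N0 (.op (.inc .nz))).exec N w s1 with hs2
  have hok2 : s2.ok N w := Cmd.exec_ok _ _ hok1
  have h1sv : s1.v .sv = min s0 N := by
    rw [hs1, rep_inc _ _ _ (hok0.1 _)]
    simp [St.init]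
  have h2sv : s2.v .sv = min s0 N := by
    rw [hs2, Cmd.exec_v _ _ (rep_wv _ _ (by simp [Cmd.wv, Op.wv])), h1sv]
  have h2nz : s2.v .nz = min N0 N := by
    rw [hs2, rep_inc _ _ _ (hok1.1 _), hs1,
      Cmd.exec_v _ _ (rep_wv _ _ (by simp [Cmd.wv, Op.wv]))]
    simp [St.init]
  have hb : ∀ f : Fl, s2.b f = false := by
    intro f
    rw [hs2, Cmd.exec_b _ _ (rep_wb _ _ (by simp [Cmd.wb, Op.wb])), hs1,
      Cmd.exec_b _ _ (rep_wb _ _ (by simp [Cmd.wb, Op.wb]))]
    rfl
  have e3 : (preSt N w s0 N0 : St (Vr r k D) Fl)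
      = { s2 with b := update s2.b .g (decide (N ≤ s2.v .nz)) } := rfl
  rw [e3]
  refine ⟨⟨hok2.1, hok2.2⟩, h2sv, ?_, ?_, ?_⟩
  · simp only [update_self, h2nz, decide_eq_decide]
    omega
  · simp [hb]
  · simp [hb]

end Pool.Agent.Lib.MP_64f491_lc
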