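import Pool.Agent.Lib.MP_64f491_lc.Lang

/-! # Proof rules: loop invariants and automatic degree bounds for the cost -/

namespace Pool.Agent.Lib.MP_64f491_lc

set_option linter.unusedSectionVars false
set_option linter.unusedSimpArgs false
set_option linter.unnecessarySeqFocus false

open Function

variable {V B : Type} [DecidableEq V] [DecidableEq B] {N : ℕ} {w : List Sym}

/-- Loop rule without cost. -/
theorem loop_inv {i : V} {a : Cmd V B} (hi : i ∉ a.wv) (I : ℕ → St V B → Prop)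
    (s : St V B) (hok : s.ok N w) (h0 : I 0 ((Op.zero i).exec N w s))
    (hs : ∀ t < N, ∀ s' : St V B, s'.ok N w → s'.v i = t →
      (∀ j, j ∉ a.wv → j ≠ i → s'.v j = s.v j) → (∀ g, g ∉ a.wb → s'.b g = s.b g) → I t s' →
      I (t + 1) ((Op.inc i).exec N w (a.exec N w s'))) :
    I N ((Cmd.loop i a).exec N w s) := by
  set F : St V B → St V B := fun s => (Op.inc i).exec N w (a.exec N w s) with hF
  set s0 := (Op.zero i).exec N w s with hs0
  have hs0ok : s0.ok N w := Op.exec_ok _ _ hok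
  have frame : ∀ t ≤ N, (F^[t] s0).ok N w ∧ (F^[t] s0).v i = t ∧
      (∀ j, j ∉ a.wv → j ≠ i → (F^[t] s0).v j = s.v j) ∧
      (∀ g, g ∉ a.wb → (F^[t] s0).b g = s.b g) ∧ I t (F^[t] s0) := by
    intro t
    induction t with
    | zero =>
      intro _
      refine ⟨hs0ok, by simp [hs0, Op.exec], ?_, ?_, h0⟩
      · intro j _ hj
        simp [hs0, Op.exec, Function.update_of_ne hj]
      · intro g _
        simp [hs0, Op.exec]
    | succ t ih =>
      intro ht
      obtain ⟨g1, g2, g3, g4, g5⟩ := ih (by omega)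
      rw [Function.iterate_succ_apply']
      generalize F^[t] s0 = s' at *
      refine ⟨Op.exec_ok _ _ (Cmd.exec_ok _ _ g1), ?_, ?_, ?_, ?_⟩
      · simp only [hF, Op.exec, update_self]
        rw [Cmd.exec_v a s' hi, g2]
        omega
      · intro j hj hji
        simp only [hF]
        rw [Op.exec_v _ _ (by simpa [Op.wv] using hji), Cmd.exec_v _ _ hj, g3 j hj hji]
      · intro g hg
        simp only [hF]
        rw [Op.exec_b _ _ (by simp [Op.wb]), Cmd.exec_b _ _ hg, g4 g hg]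
      · exact hs t (by omega) s' g1 g2 g3 g4 g5
  exact (frame N le_rfl).2.2.2.2

/-- Worst case cost. -/
def Cmd.wc (N W : ℕ) : Cmd V B → ℕ
  | .op o => o.cost N W
  | .seq a b => a.wc N W + b.wc N W
  | .ite _ a b => 1 + (a.wc N W + b.wc N W)
  | .loop _ a => N + 2 + N * (a.wc N W + 2)

theorem Cmd.cost_le_wc (c : Cmd V B) (s : St V B) : c.cost N w s ≤ c.wc N w.length := by
  induction c generalizing s with
  | op o => exact le_rfl
  | seq a b iha ihb => exact Nat.add_le_add (iha _) (ihb _)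
  | ite f a b iha ihb =>
    simp only [Cmd.cost, Cmd.wc]
    split
    · have := iha s; omega
    · have := ihb s; omega
  | loop i a iha =>
    simp only [Cmd.cost, Cmd.wc]
    have : ∑ t ∈ Finset.range N, (a.cost N w
        ((fun s => (Op.inc i).exec N w (a.exec N w s))^[t] ((Op.zero i).exec N w s)) + 2)
        ≤ ∑ _t ∈ Finset.range N, (a.wc N w.length + 2) := by
      gcongr with t ht
      exact iha _
    rw [Finset.sum_const, Finset.card_range, smul_eq_mul] at this
    omega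

/-- Degree of an elementary operation. -/
def Op.deg : Op V B → ℕ
  | .zero _ => 1
  | .le _ _ _ => 1
  | .rew => 2
  | _ => 0

/-- Degree of the worst case cost. -/
def Cmd.deg : Cmd V B → ℕ
  | .op o => o.deg
  | .seq a b => max a.deg b.deg
  | .ite _ a b => max a.deg b.deg
  | .loop _ a => a.deg + 1

theorem Op.cost_le_deg (o : Op V B) {W : ℕ} (hW : W ≤ (N + 1) ^ 2) :
    o.cost N W ≤ 4 * (N + 1) ^ o.deg := by
  have h1 : 1 ≤ (N + 1) ^ 2 := Nat.one_le_pow _ _ (by omega)
  cases o <;> simp only [Op.cost, Op.deg, pow_one, pow_zero] <;> omega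

theorem Cmd.wc_le_deg (c : Cmd V B) : ∃ C, ∀ N W, W ≤ (N + 1) ^ 2 →
    c.wc N W ≤ C * (N + 1) ^ c.deg := by
  induction c with
  | op o => exact ⟨4, fun N W hW => Op.cost_le_deg o hW⟩
  | seq a b iha ihb =>
    obtain ⟨C1, h1⟩ := iha
    obtain ⟨C2, h2⟩ := ihb
    refine ⟨C1 + C2, fun N W hW => ?_⟩
    simp only [Cmd.wc, Cmd.deg]
    have e1 : (N + 1) ^ a.deg ≤ (N + 1) ^ (max a.deg b.deg) :=
      Nat.pow_le_pow_right (by omega) (le_max_left _ _)
    have e2 : (N + 1) ^ b.deg ≤ (N + 1) ^ (max a.deg b.deg) :=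
      Nat.pow_le_pow_right (by omega) (le_max_right _ _)
    calc a.wc N W + b.wc N W ≤ C1 * (N + 1) ^ a.deg + C2 * (N + 1) ^ b.deg :=
          Nat.add_le_add (h1 N W hW) (h2 N W hW)
      _ ≤ C1 * (N + 1) ^ (max a.deg b.deg) + C2 * (N + 1) ^ (max a.deg b.deg) := by gcongr
      _ = _ := by ring
  | ite f a b iha ihb =>
    obtain ⟨C1, h1⟩ := iha
    obtain ⟨C2, h2⟩ := ihb
    refine ⟨1 + (C1 + C2), fun N W hW => ?_⟩
    simp only [Cmd.wc, Cmd.deg]
    have e0 : 1 ≤ (N + 1) ^ (max a.deg b.deg) := Nat.one_le_pow _ _ (by omega)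
    have e1 : (N + 1) ^ a.deg ≤ (N + 1) ^ (max a.deg b.deg) :=
      Nat.pow_le_pow_right (by omega) (le_max_left _ _)
    have e2 : (N + 1) ^ b.deg ≤ (N + 1) ^ (max a.deg b.deg) :=
      Nat.pow_le_pow_right (by omega) (le_max_right _ _)
    calc 1 + (a.wc N W + b.wc N W)
        ≤ 1 + (C1 * (N + 1) ^ a.deg + C2 * (N + 1) ^ b.deg) := by
          have := h1 N W hW
          have := h2 N W hW
          omega
      _ ≤ (N + 1) ^ (max a.deg b.deg) + (C1 * (N + 1) ^ (max a.deg b.deg)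
            + C2 * (N + 1) ^ (max a.deg b.deg)) := by gcongr
      _ = _ := by ring
  | loop i a iha =>
    obtain ⟨C1, h1⟩ := iha
    refine ⟨2 + (C1 + 2), fun N W hW => ?_⟩
    simp only [Cmd.wc, Cmd.deg]
    have e0 : 1 ≤ (N + 1) ^ a.deg := Nat.one_le_pow _ _ (by omega)
    calc N + 2 + N * (a.wc N W + 2)
        ≤ 2 * (N + 1) * 1 + (N + 1) * (C1 * (N + 1) ^ a.deg + 2 * 1) := by
          have := h1 N W hW
          have : N * (a.wc N W + 2) ≤ (N + 1) * (C1 * (N + 1) ^ a.deg + 2 * 1) := by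
            gcongr <;> omega
          omega
      _ ≤ 2 * (N + 1) * (N + 1) ^ a.deg + (N + 1) * (C1 * (N + 1) ^ a.deg
            + 2 * (N + 1) ^ a.deg) := by gcongr
      _ = _ := by ring

/-- Polynomial bound for the cost of a command. -/
theorem Cmd.cost_le_deg (c : Cmd V B) : ∃ C, ∀ (N : ℕ) (w : List Sym) (s : St V B),
    w.length ≤ (N + 1) ^ 2 → c.cost N w s ≤ C * (N + 1) ^ c.deg := by
  obtain ⟨C, h⟩ := c.wc_le_deg
  exact ⟨C, fun N w s hw => (c.cost_le_wc s).trans (h N w.length hw)⟩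

theorem Cmd.cost_le_of_deg (c : Cmd V B) {d : ℕ} (hd : c.deg ≤ d) :
    ∃ C, ∀ (N : ℕ) (w : List Sym) (s : St V B),
    w.length ≤ (N + 1) ^ 2 → c.cost N w s ≤ C * (N + 1) ^ d := by
  obtain ⟨C, h⟩ := c.cost_le_deg
  refine ⟨C, fun N w s hw => (h N w s hw).trans ?_⟩
  exact Nat.mul_le_mul_left _ (Nat.pow_le_pow_right (by omega) hd)

end Pool.Agent.Lib.MP_64f491_lc
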