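import Pool.Agent.Lib.MP_64f491_lc.Loops

/-! # The search for `k` left vertices with many common neighbours -/

namespace Pool.Agent.Lib.MP_64f491_lc

set_option linter.unusedSectionVars false
set_option linter.unusedSimpArgs false
set_option linter.unnecessarySeqFocus false
set_option linter.constructorNameAsVariable false

open Function

variable {r k D : ℕ} {N : ℕ} {w : List Sym}

/-- The counters `x 1, …, x r`. -/
def xsT : List (Vr r k D) := (List.finRange r).map fun i => Vr.x i.succ

/-- The counters `x 0, …, x r`. -/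
def xsV : List (Vr r k D) := Vr.x 0 :: xsT

def msV : List (Vr r k D) := (List.finRange r).map Vr.m

def ms'V : List (Vr r k D) := (List.finRange r).map Vr.m'

def csV : List (Vr r k D) := (List.finRange k).map Vr.c

def As : List (Vr r k D) := (List.finRange D).map Vr.A

def Zs : List (Vr r k D) := (List.finRange D).map Vr.Z

def Ws : List (Vr r k D) := (List.finRange D).map Vr.W

theorem mem_xsV {v : Vr r k D} : v ∈ (xsV : List (Vr r k D)) ↔ ∃ i, v = Vr.x i := by
  simp only [xsV, xsT, List.mem_cons, List.mem_map, List.mem_finRange, true_and]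
  constructor
  · rintro (h | ⟨i, hi⟩)
    · exact ⟨0, h⟩
    · exact ⟨i.succ, hi.symm⟩
  · rintro ⟨i, rfl⟩
    rcases Fin.eq_zero_or_eq_succ i with h | ⟨j, hj⟩
    · left; rw [h]
    · right; exact ⟨j, by rw [hj]⟩

theorem mem_xsT {v : Vr r k D} : v ∈ (xsT : List (Vr r k D)) ↔ ∃ i : Fin r, v = Vr.x i.succ := by
  simp only [xsT, List.mem_map, List.mem_finRange, true_and]
  constructor
  · rintro ⟨i, rfl⟩; exact ⟨i, rfl⟩
  · rintro ⟨i, rfl⟩; exact ⟨i, rfl⟩

theorem mem_msV {v : Vr r k D} : v ∈ (msV : List (Vr r k D)) ↔ ∃ i, v = Vr.m i := by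
  simp only [msV, List.mem_map, List.mem_finRange, true_and]
  constructor <;> rintro ⟨i, rfl⟩ <;> exact ⟨i, rfl⟩

theorem mem_ms'V {v : Vr r k D} : v ∈ (ms'V : List (Vr r k D)) ↔ ∃ i, v = Vr.m' i := by
  simp only [ms'V, List.mem_map, List.mem_finRange, true_and]
  constructor <;> rintro ⟨i, rfl⟩ <;> exact ⟨i, rfl⟩

theorem mem_csV {v : Vr r k D} : v ∈ (csV : List (Vr r k D)) ↔ ∃ i, v = Vr.c i := by
  simp only [csV, List.mem_map, List.mem_finRange, true_and]
  constructor <;> rintro ⟨i, rfl⟩ <;> exact ⟨i, rfl⟩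

theorem mem_As {v : Vr r k D} : v ∈ (As : List (Vr r k D)) ↔ ∃ i, v = Vr.A i := by
  simp only [As, List.mem_map, List.mem_finRange, true_and]
  constructor <;> rintro ⟨i, rfl⟩ <;> exact ⟨i, rfl⟩

theorem mem_Zs {v : Vr r k D} : v ∈ (Zs : List (Vr r k D)) ↔ ∃ i, v = Vr.Z i := by
  simp only [Zs, List.mem_map, List.mem_finRange, true_and]
  constructor <;> rintro ⟨i, rfl⟩ <;> exact ⟨i, rfl⟩

theorem mem_Ws {v : Vr r k D} : v ∈ (Ws : List (Vr r k D)) ↔ ∃ i, v = Vr.W i := by
  simp only [Ws, List.mem_map, List.mem_finRange, true_and]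
  constructor <;> rintro ⟨i, rfl⟩ <;> exact ⟨i, rfl⟩

theorem xsV_length : (xsV : List (Vr r k D)).length = r + 1 := by simp [xsV, xsT]
theorem xsT_length : (xsT : List (Vr r k D)).length = r := by simp [xsT]
theorem msV_length : (msV : List (Vr r k D)).length = r := by simp [msV]
theorem ms'V_length : (ms'V : List (Vr r k D)).length = r := by simp [ms'V]
theorem csV_length : (csV : List (Vr r k D)).length = k := by simp [csV]
theorem As_length : (As : List (Vr r k D)).length = D := by simp [As]
theorem Zs_length : (Zs : List (Vr r k D)).length = D := by simp [Zs]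
theorem Ws_length : (Ws : List (Vr r k D)).length = D := by simp [Ws]

theorem xsV_nodup : (xsV : List (Vr r k D)).Nodup := by
  refine List.nodup_cons.2 ⟨?_, ?_⟩
  · rw [mem_xsT]
    rintro ⟨i, hi⟩
    exact absurd (Vr.x.inj hi).symm (Fin.succ_ne_zero i)
  · exact (List.nodup_finRange r).map fun i j h => Fin.succ_injective _ (Vr.x.inj h)

theorem msV_nodup : (msV : List (Vr r k D)).Nodup :=
  (List.nodup_finRange r).map fun _ _ h => Vr.m.inj h
theorem ms'V_nodup : (ms'V : List (Vr r k D)).Nodup :=
  (List.nodup_finRange r).map fun _ _ h => Vr.m'.inj h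
theorem csV_nodup : (csV : List (Vr r k D)).Nodup :=
  (List.nodup_finRange k).map fun _ _ h => Vr.c.inj h
theorem As_nodup : (As : List (Vr r k D)).Nodup :=
  (List.nodup_finRange D).map fun _ _ h => Vr.A.inj h
theorem Zs_nodup : (Zs : List (Vr r k D)).Nodup :=
  (List.nodup_finRange D).map fun _ _ h => Vr.Z.inj h
theorem Ws_nodup : (Ws : List (Vr r k D)).Nodup :=
  (List.nodup_finRange D).map fun _ _ h => Vr.W.inj h

/-- Number of common neighbours in `L` of a list of right vertices. -/
def NL (N : ℕ) (E : ℕ → ℕ → Bool) (xs : List ℕ) : ℕ :=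
  ((Finset.range N).filter fun c => (xs.all fun x => E c x) = true).card

/-- Number of common neighbours in `R` of a list of left vertices. -/
def NR (N : ℕ) (E : ℕ → ℕ → Bool) (cs : List ℕ) : ℕ :=
  ((Finset.range N).filter fun y => (cs.all fun c => E c y) = true).card

/-- The leaf test on values. -/
def Lf (N : ℕ) (E : ℕ → ℕ → Bool) (s : ℕ) (cs : List ℕ) : Prop :=
  cs.Pairwise (· < ·) ∧ s < NR N E cs

/-- Pairs of positions. -/
def cPairs : List (Vr r k D × Vr r k D) :=
  (((List.finRange k).product (List.finRange k)).filter fun q => q.1 < q.2).map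
    fun q => (Vr.c q.1, Vr.c q.2)

/-- The leaf of the search. -/
def leaf : Cmd (Vr r k D) Fl :=
  blk [andAll .g .e ((cPairs : List (Vr r k D × Vr r k D)).map fun q =>
      blk [.op (.le q.2 q.1 .f1), .op (.set .e fun b => !b .f1)]),
    .ite (fun b => b .g)
      (blk [countC .y (allE .g (csV.map fun c => (c, .y))) .g .cnt, .op (.le .cnt .sv .f1),
        .op (.set .acc fun b => b .acc || !b .f1)])
      (.op .nop)]

theorem mem_cPairs {q : Vr r k D × Vr r k D} (h : q ∈ (cPairs : List (Vr r k D × Vr r k D))) :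
    ∃ i j : Fin k, i < j ∧ q = (Vr.c i, Vr.c j) := by
  simp only [cPairs, List.mem_map, List.mem_filter] at h
  obtain ⟨⟨i, j⟩, ⟨_, h2⟩, rfl⟩ := h
  exact ⟨i, j, by simpa using h2, rfl⟩

theorem leaf_wv {v : Vr r k D} (h1 : v ≠ .ta) (h2 : v ≠ .tb) (h3 : v ≠ .y) (h4 : v ≠ .cnt) :
    v ∉ (leaf : Cmd (Vr r k D) Fl).wv := by
  have h5 : v ∉ (andAll .g .e ((cPairs : List (Vr r k D × Vr r k D)).map fun q =>
      blk [.op (.le q.2 q.1 .f1), .op (.set .e fun b => !b .f1)])).wv := by
    apply andAll_wv
    intro c hc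
    rw [List.mem_map] at hc
    obtain ⟨q, _, rfl⟩ := hc
    simp [Cmd.wv, Op.wv]
  simp [leaf, Cmd.wv, Op.wv, h5, countC_wv, allE_wv _ _ h1 h2, h3, h4]

theorem leaf_wb {f : Fl} (h1 : f ≠ .g) (h2 : f ≠ .e) (h3 : f ≠ .f1) (h4 : f ≠ .f2)
    (h5 : f ≠ .acc) : f ∉ (leaf : Cmd (Vr r k D) Fl).wb := by
  have h6 : f ∉ (andAll .g .e ((cPairs : List (Vr r k D × Vr r k D)).map fun q =>
      blk [.op (.le q.2 q.1 .f1), .op (.set .e fun b => !b .f1)])).wb := by
    apply andAll_wb _ _ _ h1
    intro c hc
    rw [List.mem_map] at hc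
    obtain ⟨q, _, rfl⟩ := hc
    simp [Cmd.wb, Op.wb, h2, h3]
  simp [leaf, Cmd.wb, Op.wb, h6, countC_wb, allE_wb _ _ h1 h2 h3 h4, h3, h5]

theorem leaf_deg : (leaf : Cmd (Vr r k D) Fl).deg ≤ 3 := by
  have h6 : (andAll .g .e ((cPairs : List (Vr r k D × Vr r k D)).map fun q =>
      (blk [.op (.le q.2 q.1 .f1), .op (.set .e fun b => !b .f1)] :
        Cmd (Vr r k D) Fl))).deg ≤ 1 := by
    apply andAll_deg
    intro c hc
    rw [List.mem_map] at hc
    obtain ⟨q, _, rfl⟩ := hc
    simp [Cmd.deg, Op.deg]
  have h7 := allE_deg .g ((csV : List (Vr r k D)).map fun c => (c, .y))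
  simp [leaf, Cmd.deg, Op.deg, countC_deg]
  omega

theorem leaf_WF : (leaf : Cmd (Vr r k D) Fl).WF := by
  have h6 : (andAll .g .e ((cPairs : List (Vr r k D × Vr r k D)).map fun q =>
      (blk [.op (.le q.2 q.1 .f1), .op (.set .e fun b => !b .f1)] :
        Cmd (Vr r k D) Fl))).WF := by
    apply andAll_WF
    intro c hc
    rw [List.mem_map] at hc
    obtain ⟨q, hq, rfl⟩ := hc
    obtain ⟨i, j, hij, rfl⟩ := mem_cPairs hq
    simp [Cmd.WF, Op.WF, hij.ne']
  have h7 : (countC .y (allE .g ((csV : List (Vr r k D)).map fun c => (c, .y))) .g .cnt).WF := by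
    apply countC_WF
    · apply allE_WF
      intro q hq
      rw [List.mem_map] at hq
      obtain ⟨c, hc, rfl⟩ := hq
      obtain ⟨i, rfl⟩ := mem_csV.1 hc
      simp [Dat]
    · exact allE_wv _ _ (by simp) (by simp)
    · simp
  simp [leaf, Cmd.WF, Op.WF, h6, h7]

theorem cntR_spec {E : ℕ → ℕ → Bool} (hG : Good N w E) (s : St (Vr r k D) Fl)
    (hok : s.ok N w) :
    ((countC .y (allE .g ((csV : List (Vr r k D)).map fun c => (c, .y))) .g .cnt).exec N w s).v
      .cnt = NR N E (csV.map s.v) := by
  rw [countC_spec (N := N) (w := w) .y _ .g .cnt (allE_wv _ _ (by simp) (by simp)) (by simp)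
    (allE_wv _ _ (by simp) (by simp)) (fun y => (csV.map s.v).all fun c => E c y) s hok]
  · rfl
  · intro t ht s' hok' hst hfr hfb
    rw [allE_spec hG]
    · rw [List.all_map, List.all_map, Bool.eq_iff_iff, List.all_eq_true, List.all_eq_true]
      have hcc : ∀ c ∈ (csV : List (Vr r k D)), s'.v c = s.v c := by
        intro c hc
        obtain ⟨i, rfl⟩ := mem_csV.1 hc
        exact hfr _ (allE_wv _ _ (by simp) (by simp)) (by simp) (by simp)
      constructor
      · intro h c hc
        have := h c hc
        simpa [hcc c hc, hst] using this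
      · intro h c hc
        have := h c hc
        simpa [hcc c hc, hst] using this
    · intro q hq
      rw [List.mem_map] at hq
      obtain ⟨c, hc, rfl⟩ := hq
      obtain ⟨i, rfl⟩ := mem_csV.1 hc
      simp [Dat]
    · exact hok'
    · intro q hq
      rw [List.mem_map] at hq
      obtain ⟨c, hc, rfl⟩ := hq
      simpa [hst] using ht

theorem leaf_spec {E : ℕ → ℕ → Bool} (hG : Good N w E) (s : St (Vr r k D) Fl)
    (hok : s.ok N w) :
    (leaf.exec N w s).b .acc = true ↔ s.b .acc = true ∨ Lf N E (s.v .sv) (csV.map s.v) := by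
  set c1 : Cmd (Vr r k D) Fl := andAll .g .e ((cPairs : List (Vr r k D × Vr r k D)).map fun q =>
      blk [.op (.le q.2 q.1 .f1), .op (.set .e fun b => !b .f1)]) with hc1
  set s1 := c1.exec N w s with hs1
  have hwv1 : ∀ v, v ∉ c1.wv := by
    intro v
    apply andAll_wv
    intro c hc
    rw [List.mem_map] at hc
    obtain ⟨q, _, rfl⟩ := hc
    simp [Cmd.wv, Op.wv]
  have hv1 : s1.v = s.v := by funext v; exact Cmd.exec_v _ _ (hwv1 v)
  have hacc1 : s1.b .acc = s.b .acc := by
    apply Cmd.exec_b
    apply andAll_wb _ _ _ (by simp)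
    intro c hc
    rw [List.mem_map] at hc
    obtain ⟨q, _, rfl⟩ := hc
    simp [Cmd.wb, Op.wb]
  have hok1 : s1.ok N w := Cmd.exec_ok _ _ hok
  have hg1 : s1.b .g = (cPairs : List (Vr r k D × Vr r k D)).all
      fun q => decide (s.v q.1 < s.v q.2) := by
    refine andAll_spec (N := N) (w := w) .g .e cPairs _
      (fun q => decide (s.v q.1 < s.v q.2)) (fun s' => s'.v = s.v) ?_ s rfl
    intro q _ s' hs'
    refine ⟨?_, ?_⟩
    · simp only [exec_blk_cons, exec_blk_nil, Cmd.exec, Op.exec, hs', update_self]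
      by_cases hlt : s.v q.1 < s.v q.2
      · simp [hlt]
      · simp [hlt, not_lt.1 hlt]
    · simp [Cmd.exec, Op.exec, hs']
  have hpw : s1.b .g = true ↔ ((csV : List (Vr r k D)).map s.v).Pairwise (· < ·) := by
    rw [hg1, List.all_eq_true]
    have e1 : (csV : List (Vr r k D)).map s.v = List.ofFn fun i : Fin k => s.v (Vr.c i) := by
      simp [csV, List.ofFn_eq_map]
    rw [e1, List.pairwise_ofFn]
    constructor
    · intro h i j hij
      have := h (Vr.c i, Vr.c j) (by
        simp only [cPairs, List.mem_map, List.mem_filter]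
        exact ⟨(i, j), ⟨by simp, by simpa using hij⟩, rfl⟩)
      simpa using this
    · intro h q hq
      obtain ⟨i, j, hij, rfl⟩ := mem_cPairs hq
      simpa using h hij
  have hex : (leaf : Cmd (Vr r k D) Fl).exec N w s =
      (Cmd.ite (fun b => b .g)
      (blk [countC .y (allE .g (csV.map fun c => (c, .y))) .g .cnt, .op (.le .cnt .sv .f1),
        .op (.set .acc fun b => b .acc || !b .f1)])
      (.op .nop)).exec N w s1 := rfl
  rw [hex]
  unfold Lf
  rw [← hpw]
  by_cases hg : s1.b .g = true
  · simp only [Cmd.exec, hg, if_true, exec_blk_cons, exec_blk_nil, Op.exec, true_and]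
    set s2 := (countC .y (allE .g ((csV : List (Vr r k D)).map fun c => (c, .y))) .g .cnt).exec
      N w s1 with hs2
    have hcnt : s2.v .cnt = NR N E (csV.map s.v) := by
      rw [hs2, cntR_spec hG s1 hok1, hv1]
    have hsv : s2.v .sv = s.v .sv := by
      rw [hs2, Cmd.exec_v _ _ (by
        rw [countC_wv]
        simp [allE_wv]), hv1]
    have hacc2 : s2.b .acc = s.b .acc := by
      rw [hs2, Cmd.exec_b _ _ (by
        rw [countC_wb]
        exact allE_wb _ _ (by simp) (by simp) (by simp) (by simp)), hacc1]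
    simp only [update_self, ne_eq, reduceCtorEq, not_false_eq_true, update_of_ne, hcnt, hsv,
      hacc2, Bool.or_eq_true, Bool.not_eq_true', decide_eq_false_iff_not, not_le]
  · simp only [Cmd.exec, hg, Bool.false_eq_true, if_false, Op.exec, hacc1, false_and, or_false]

/-- Search with membership filter. -/
def search (xs : List (Vr r k D)) : List (Vr r k D) → Cmd (Vr r k D) Fl
  | [] => leaf
  | c :: cs => .loop c (blk [allE .g (xs.map fun x => (c, x)),
      .ite (fun b => b .g) (search xs cs) (.op .nop)])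

theorem search_wv (xs cs : List (Vr r k D)) {v : Vr r k D} (h0 : v ∉ cs) (h1 : v ≠ .ta)
    (h2 : v ≠ .tb) (h3 : v ≠ .y) (h4 : v ≠ .cnt) : v ∉ (search xs cs).wv := by
  induction cs with
  | nil => exact leaf_wv h1 h2 h3 h4
  | cons c cs ih =>
    simp only [List.mem_cons, not_or] at h0
    simp [search, Cmd.wv, Op.wv, h0.1, allE_wv _ _ h1 h2, ih h0.2]

theorem search_wb (xs cs : List (Vr r k D)) {f : Fl} (h1 : f ≠ .g) (h2 : f ≠ .e) (h3 : f ≠ .f1)
    (h4 : f ≠ .f2) (h5 : f ≠ .acc) : f ∉ (search xs cs).wb := by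
  induction cs with
  | nil => exact leaf_wb h1 h2 h3 h4 h5
  | cons c cs ih =>
    simp [search, Cmd.wb, Op.wb, allE_wb _ _ h1 h2 h3 h4, ih]

theorem search_WF (xs cs : List (Vr r k D)) (hnd : cs.Nodup)
    (hcs : ∀ c ∈ cs, ∃ i, c = Vr.c i) (hxs : ∀ x ∈ xs, Dat x) : (search xs cs).WF := by
  induction cs with
  | nil => exact leaf_WF
  | cons c cs ih =>
    have h1 := List.nodup_cons.1 hnd
    simp only [List.mem_cons, forall_eq_or_imp] at hcs
    obtain ⟨i, rfl⟩ := hcs.1
    have h2 : (allE .g (xs.map fun x => (Vr.c i, x))).WF := by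
      apply allE_WF
      intro q hq
      rw [List.mem_map] at hq
      obtain ⟨x, hx, rfl⟩ := hq
      exact ⟨by simp [Dat], hxs x hx⟩
    have h3 : Vr.c i ∉ (search xs cs).wv :=
      search_wv xs cs h1.1 (by simp) (by simp) (by simp) (by simp)
    simp [search, Cmd.WF, Op.WF, Cmd.wv, Op.wv, h2, h3, ih h1.2 hcs.2,
      allE_wv _ _ (show Vr.c i ≠ Vr.ta by simp) (show Vr.c i ≠ Vr.tb by simp)]

theorem search_deg (xs cs : List (Vr r k D)) : (search xs cs).deg ≤ cs.length + 3 := by
  induction cs with
  | nil => simpa [search] using (leaf_deg (r := r) (k := k) (D := D))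
  | cons c cs ih =>
    have := allE_deg .g (xs.map fun x => (c, x))
    simp [search, Cmd.deg, Op.deg]
    omega

/-- The membership filter on values. -/
def Mem (E : ℕ → ℕ → Bool) (xv : List ℕ) (a : ℕ) : Prop := (xv.all fun x => E a x) = true

theorem search_spec {E : ℕ → ℕ → Bool} (hG : Good N w E) (xs : List (Vr r k D))
    (hxs : ∀ x ∈ xs, Dat x ∧ x ≠ .y ∧ x ≠ .cnt ∧ x ∉ (csV : List (Vr r k D)))
    (xv : List ℕ) (hxvN : ∀ a ∈ xv, a < N) (sv : ℕ) :
    ∀ (cs pre : List (Vr r k D)), csV = pre ++ cs → ∀ s : St (Vr r k D) Fl, s.ok N w →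
      xs.map s.v = xv → s.v .sv = sv →
      (((search xs cs).exec N w s).b .acc = true ↔ s.b .acc = true ∨
        ∃ l : List ℕ, l.length = cs.length ∧ (∀ a ∈ l, a < N ∧ Mem E xv a) ∧
          Lf N E sv (pre.map s.v ++ l)) := by
  intro cs
  induction cs with
  | nil =>
    intro pre hpre s hok hxv hsv
    simp only [List.append_nil] at hpre
    subst hpre
    simp only [search, List.length_nil]
    rw [leaf_spec hG s hok, hsv]
    constructor
    · rintro (h | h)
      · exact Or.inl h
      · exact Or.inr ⟨[], rfl, by intro a ha; simp at ha, by simpa using h⟩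
    · rintro (h | ⟨l, hl, _, h⟩)
      · exact Or.inl h
      · have := List.length_eq_zero_iff.1 hl
        subst this
        exact Or.inr (by simpa using h)
  | cons c cs ih =>
    intro pre hpre s hok hxv hsv
    have hcall : c ∈ (csV : List (Vr r k D)) := by rw [hpre]; simp
    obtain ⟨i, rfl⟩ := mem_csV.1 hcall
    have hnd' : (pre ++ Vr.c i :: cs).Nodup := hpre ▸ csV_nodup
    have hcpre : Vr.c i ∉ pre := by
      intro h
      exact (List.nodup_append.1 hnd').2.2 _ h (Vr.c i) (by simp) rfl
    have hccs : Vr.c i ∉ cs := (List.nodup_cons.1 (List.nodup_append.1 hnd').2.1).1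
    have hpcs : ∀ y ∈ pre, y ∉ cs := by
      intro y hy h
      exact (List.nodup_append.1 hnd').2.2 y hy y (by simp [h]) rfl
    set body : Cmd (Vr r k D) Fl := blk [allE .g (xs.map fun x => (Vr.c i, x)),
      .ite (fun b => b .g) (search xs cs) (.op .nop)] with hbody
    have hbwv : ∀ v : Vr r k D, v ∉ cs → v ≠ .ta → v ≠ .tb → v ≠ .y → v ≠ .cnt →
        v ∉ body.wv := by
      intro v h0 h1 h2 h3 h4
      simp [hbody, Cmd.wv, Op.wv, allE_wv _ _ h1 h2, search_wv xs cs h0 h1 h2 h3 h4]
    have hxcs : ∀ x ∈ xs, x ∉ cs := fun x hx h => (hxs x hx).2.2.2 (by rw [hpre]; simp [h])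
    have key := loop_inv (N := N) (w := w) (i := Vr.c i) (a := body)
      (hbwv _ hccs (by simp) (by simp) (by simp) (by simp))
      (fun t s' => s'.b .acc = true ↔ s.b .acc = true ∨
        ∃ a < t, Mem E xv a ∧ ∃ l : List ℕ, l.length = cs.length ∧
          (∀ a ∈ l, a < N ∧ Mem E xv a) ∧ Lf N E sv (pre.map s.v ++ a :: l)) s hok
      (by simp [Op.exec])
      (by
        intro t ht s' hok' hti hfv hfb hI
        have hxv' : xs.map s'.v = xv := by
          rw [← hxv]
          apply List.map_congr_left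
          intro x hx
          obtain ⟨⟨d1, d2⟩, d3, d4, d5⟩ := hxs x hx
          exact hfv x (hbwv x (hxcs x hx) d1 d2 d3 d4) (fun h => d5 (h ▸ hcall))
        have hsv' : s'.v .sv = sv := by
          rw [← hsv]
          refine hfv .sv (hbwv _ ?_ (by simp) (by simp) (by simp) (by simp)) (by simp)
          intro h
          have : Vr.sv ∈ (csV : List (Vr r k D)) := by rw [hpre]; simp [h]
          obtain ⟨j, hj⟩ := mem_csV.1 this
          cases hj
        have hpre' : csV = (pre ++ [Vr.c i]) ++ cs := by rw [hpre]; simp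
        have hmap : (pre ++ [Vr.c i]).map s'.v = pre.map s.v ++ [t] := by
          rw [List.map_append, List.map_singleton, hti]
          congr 1
          apply List.map_congr_left
          intro y hy
          have hyall : y ∈ (csV : List (Vr r k D)) := by rw [hpre]; simp [hy]
          obtain ⟨j, rfl⟩ := mem_csV.1 hyall
          exact hfv _ (hbwv _ (hpcs _ hy) (by simp) (by simp) (by simp) (by simp))
            (fun h => hcpre (h ▸ hy))
        set s1 := (allE .g (xs.map fun x => (Vr.c i, x))).exec N w s' with hs1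
        have hok1 : s1.ok N w := Cmd.exec_ok _ _ hok'
        have hg1 : s1.b .g = true ↔ Mem E xv t := by
          rw [hs1, allE_spec hG]
          · unfold Mem
            rw [← hxv', List.all_map, List.all_map]
            simp only [Function.comp_def, hti]
          · intro q hq
            rw [List.mem_map] at hq
            obtain ⟨x, hx, rfl⟩ := hq
            exact ⟨by simp [Dat], (hxs x hx).1⟩
          · exact hok'
          · intro q hq
            rw [List.mem_map] at hq
            obtain ⟨x, hx, rfl⟩ := hq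
            apply hxvN
            rw [← hxv']
            exact List.mem_map_of_mem hx
        have hacc1 : s1.b .acc = s'.b .acc :=
          Cmd.exec_b _ _ (allE_wb _ _ (by simp) (by simp) (by simp) (by simp))
        have hfr1 : ∀ v : Vr r k D, v ≠ .ta → v ≠ .tb → s1.v v = s'.v v := fun v h1 h2 =>
          Cmd.exec_v _ _ (allE_wv _ _ h1 h2)
        have hex : body.exec N w s' =
          (Cmd.ite (fun b => b .g) (search xs cs) (.op .nop)).exec N w s1 := rfl
        rw [hex]
        have hfin : ∀ s2 : St (Vr r k D) Fl,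
          ((Op.inc (Vr.c i)).exec N w s2).b .acc = s2.b .acc := fun s2 => rfl
        rw [hfin]
        by_cases hg : s1.b .g = true
        · have hmem := hg1.1 hg
          simp only [Cmd.exec, hg, if_true]
          have := ih (pre ++ [Vr.c i]) hpre' s1 hok1 (by
            rw [← hxv']
            apply List.map_congr_left
            intro x hx
            exact hfr1 x (hxs x hx).1.1 (hxs x hx).1.2) (by
            rw [hfr1 _ (by simp) (by simp), hsv'])
          rw [this, hacc1, hI]
          have hmap1 : (pre ++ [Vr.c i]).map s1.v = pre.map s.v ++ [t] := by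
            rw [← hmap]
            apply List.map_congr_left
            intro y hy
            have hyall : y ∈ (csV : List (Vr r k D)) := by
              rw [hpre']; exact List.mem_append_left _ hy
            obtain ⟨j, rfl⟩ := mem_csV.1 hyall
            exact hfr1 _ (by simp) (by simp)
          rw [hmap1]
          simp only [List.append_assoc, List.singleton_append]
          constructor
          · rintro ((h | ⟨a, ha, h⟩) | ⟨l, h1, h2, h3⟩)
            · exact Or.inl h
            · exact Or.inr ⟨a, by omega, h⟩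
            · exact Or.inr ⟨t, by omega, hmem, l, h1, h2, h3⟩
          · rintro (h | ⟨a, ha, h⟩)
            · exact Or.inl (Or.inl h)
            · rcases Nat.lt_succ_iff_lt_or_eq.1 ha with ha | ha
              · exact Or.inl (Or.inr ⟨a, ha, h⟩)
              · subst ha
                exact Or.inr h.2
        · simp only [Cmd.exec, hg, Bool.false_eq_true, if_false, Op.exec]
          rw [hacc1, hI]
          constructor
          · rintro (h | ⟨a, ha, h⟩)
            · exact Or.inl h
            · exact Or.inr ⟨a, by omega, h⟩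
          · rintro (h | ⟨a, ha, h⟩)
            · exact Or.inl h
            · rcases Nat.lt_succ_iff_lt_or_eq.1 ha with ha | ha
              · exact Or.inr ⟨a, ha, h⟩
              · subst ha
                exact absurd (hg1.2 h.1) hg)
    have hfinal : ((search xs (Vr.c i :: cs)).exec N w s).b .acc
      = ((Cmd.loop (Vr.c i) body).exec N w s).b .acc := rfl
    rw [hfinal, key]
    constructor
    · rintro (h | ⟨a, ha, hm, l, h1, h2, h3⟩)
      · exact Or.inl h
      · refine Or.inr ⟨a :: l, by simp [h1], ?_, h3⟩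
        intro b hb
        rcases List.mem_cons.1 hb with hb | hb
        · subst hb; exact ⟨ha, hm⟩
        · exact h2 b hb
    · rintro (h | ⟨l, h1, h2, h3⟩)
      · exact Or.inl h
      · cases l with
        | nil => simp at h1
        | cons a l =>
          refine Or.inr ⟨a, (h2 a (by simp)).1, (h2 a (by simp)).2, l, by simpa using h1, ?_, h3⟩
          intro b hb
          exact h2 b (List.mem_cons_of_mem _ hb)

end Pool.Agent.Lib.MP_64f491_lc
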