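import Pool.Agent.Lib.MP_64f491_lc.Asym

/-! # Correctness on instances and the final time bound -/

namespace Pool.Agent.Lib.MP_64f491_lc

open Turing

variable {k : ℕ}

theorem Inst.l_le (G : Inst) : G.l ≤ G.n := Nat.le_add_right _ _
theorem Inst.r_le (G : Inst) : G.r ≤ G.n := Nat.le_add_left _ _

theorem Inst.E_val (G : Inst) (x : Fin G.l) (y : Fin G.r) : G.E x.val y.val = G.adj x y := by
  simp [Inst.E]

/-- The No condition in terms of sets of natural numbers. -/
theorem no_TS (G : Inst) (hk : 1 ≤ k) (h : G.IsNo k) :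
    ∀ S ∈ (Finset.range G.n).powersetCard k, (TS G.n G.E S).card ≤ (k + 6).factorial := by
  intro S hS
  rw [Finset.mem_powersetCard] at hS
  rcases (TS G.n G.E S).eq_empty_or_nonempty with he | ⟨y0, hy0⟩
  · rw [he]; simp
  · obtain ⟨c0, hc0⟩ : S.Nonempty := by rw [← Finset.card_pos]; omega
    have hSl : ∀ c ∈ S, c < G.l := fun c hc => (G.E_bound ((Finset.mem_filter.1 hy0).2 c hc)).1
    let S' : Finset (Fin G.l) := Finset.univ.filter fun c => c.val ∈ S
    have hS' : S'.card = k := by
      rw [← hS.2]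
      have : S'.map Fin.valEmbedding = S := by
        ext c
        simp only [S', Finset.mem_map, Finset.mem_filter, Finset.mem_univ, true_and,
          Fin.valEmbedding_apply]
        constructor
        · rintro ⟨a, ha, rfl⟩; exact ha
        · intro hc; exact ⟨⟨c, hSl c hc⟩, hc, rfl⟩
      rw [← this, Finset.card_map]
    refine le_trans ?_ (h S' hS')
    rw [← Finset.card_map (Fin.valEmbedding) (s := G.common S')]
    apply Finset.card_le_card
    intro y hy
    have hy2 := (Finset.mem_filter.1 hy).2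
    have hyr : y < G.r := (G.E_bound (hy2 c0 hc0)).2
    rw [Finset.mem_map]
    refine ⟨⟨y, hyr⟩, ?_, rfl⟩
    rw [Inst.common, Finset.mem_filter]
    refine ⟨Finset.mem_univ _, ?_⟩
    intro x hx
    rw [← Inst.E_val]
    exact hy2 x.val (Finset.mem_filter.1 hx).2

theorem NR_eq (N : ℕ) (E : ℕ → ℕ → Bool) (l : List ℕ) : NR N E l = (TS N E l.toFinset).card := by
  unfold NR TS
  congr 1
  ext y
  simp

theorem NR_le (N : ℕ) (E : ℕ → ℕ → Bool) (l : List ℕ) : NR N E l ≤ N := by
  have := Finset.card_filter_le (Finset.range N) fun y => (l.all fun c => E c y) = true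
  rwa [Finset.card_range] at this

/-- No leaf of the search succeeds on a No instance. -/
theorem no_Lf (G : Inst) (hk : 1 ≤ k) (h : G.IsNo k) (l : List ℕ) (hl : l.length = k)
    (hlt : ∀ a ∈ l, a < G.n) : ¬ Lf G.n G.E (min (k + 6).factorial G.n) l := by
  rintro ⟨h1, h2⟩
  have hnd : l.Nodup := h1.imp (fun h => ne_of_lt h)
  have h3 := no_TS G hk h l.toFinset (by
    rw [Finset.mem_powersetCard]
    refine ⟨?_, ?_⟩
    · intro a ha
      exact Finset.mem_range.2 (hlt a (List.mem_toFinset.1 ha))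
    · rw [List.toFinset_card_of_nodup hnd, hl])
  rw [← NR_eq] at h3
  have h4 := NR_le G.n G.E l
  omega

/-- The sorted list of a set of left vertices. -/
def srt (G : Inst) (S : Finset (Fin G.l)) : List ℕ :=
  (S.map Fin.valEmbedding).sort (· ≤ ·)

theorem srt_length (G : Inst) (S : Finset (Fin G.l)) : (srt G S).length = S.card := by
  rw [srt, Finset.length_sort, Finset.card_map]

theorem mem_srt (G : Inst) (S : Finset (Fin G.l)) (a : ℕ) :
    a ∈ srt G S ↔ ∃ c ∈ S, c.val = a := by
  rw [srt, Finset.mem_sort, Finset.mem_map]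
  rfl

theorem srt_Lf (G : Inst) (S : Finset (Fin G.l)) (s : ℕ) (h : s < (G.common S).card) :
    Lf G.n G.E (min s G.n) (srt G S) := by
  refine ⟨?_, ?_⟩
  · exact Finset.sortedLT_sort _ |>.pairwise
  · refine lt_of_le_of_lt (min_le_left _ _) (lt_of_lt_of_le h ?_)
    rw [← Finset.card_map (Fin.valEmbedding) (s := G.common S), NR]
    apply Finset.card_le_card
    intro y hy
    rw [Finset.mem_map] at hy
    obtain ⟨y', hy', rfl⟩ := hy
    rw [Finset.mem_filter, Finset.mem_range]
    refine ⟨lt_of_lt_of_le y'.isLt G.r_le, ?_⟩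
    rw [List.all_eq_true]
    intro c hc
    obtain ⟨c', hc', rfl⟩ := (mem_srt G S c).1 hc
    rw [Fin.valEmbedding_apply, Inst.E_val]
    exact (Finset.mem_filter.1 hy').2 c' hc'

theorem srt_lt (G : Inst) (S : Finset (Fin G.l)) : ∀ a ∈ srt G S, a < G.n := by
  intro a ha
  obtain ⟨c, _, rfl⟩ := (mem_srt G S a).1 ha
  exact lt_of_lt_of_le c.isLt G.l_le

/-- On a Yes instance with small moduli the second phase succeeds. -/
theorem yes_Hit (G : Inst) (S : Finset (Fin G.l)) (s : ℕ) (mv : List ℕ)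
    (hmv : ∀ a ∈ mv, 1 ≤ a) (h1 : mv.sum < (G.common S).card) (h2 : s < (G.common S).card)
    (hS : S.card = k) :
    ∃ xl : List ℕ, xl.length = mv.length + 1 ∧ Lt G.n xl ∧
      Hit G.n k (min s G.n) G.E mv xl := by
  have hc : mv.sum < ((G.common S).map Fin.valEmbedding).card := by rwa [Finset.card_map]
  obtain ⟨xl, x1, x2, x3⟩ := star_exists _ mv hmv hc
  have x2' : ∀ x ∈ xl, ∃ y ∈ G.common S, y.val = x := by
    intro x hx
    have := x2 x hx
    rw [Finset.mem_map] at this
    exact this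
  refine ⟨xl, x1, ?_, x3, srt G S, by rw [srt_length, hS], ?_, srt_Lf G S s h2⟩
  · intro x hx
    obtain ⟨y, _, rfl⟩ := x2' x hx
    exact lt_of_lt_of_le y.isLt G.r_le
  · intro a ha
    refine ⟨srt_lt G S a ha, ?_⟩
    obtain ⟨c, hc, rfl⟩ := (mem_srt G S a).1 ha
    unfold Mem
    rw [List.all_eq_true]
    intro x hx
    obtain ⟨y, hy, rfl⟩ := x2' x hx
    rw [Inst.E_val]
    exact (Finset.mem_filter.1 hy).2 c hc

theorem good (G : Inst) : Good G.n G.encode G.E where
  ex := ⟨G.l, G.r, rfl, G.encode_eq, fun _ _ h => G.E_bound h⟩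

theorem countP_encode (G : Inst) : G.encode.countP isMS = G.n := by
  rw [G.encode_eq, encW_countP]; rfl

theorem length_encode (G : Inst) : G.encode.length ≤ (G.n + 1) ^ 2 := by
  rw [G.encode_eq]; exact encW_length_le _ _ _

/-- The algorithm: a Turing machine of running time `O(n^(k-2))`. -/
theorem solve (k : ℕ) (hk : 1000 ≤ k) :
    ∃ (tm : Cmd (Vr (k - 12) k (2 * k)) Fl) (C : ℕ), tm.WF ∧ ∀ G : Inst,
      tm.cost G.n G.encode St.init ≤ C * (G.n + 1) ^ (k - 2) ∧
      (G.IsNo k → (tm.exec G.n G.encode St.init).b .acc = false) ∧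
      (G.IsYes k → ¬ G.IsNo k → (tm.exec G.n G.encode St.init).b .acc = true) := by
  obtain ⟨N1, hN1⟩ := no_case k hk (k + 6).factorial
  obtain ⟨N2, hN2⟩ := yes_case k hk (k + 6).factorial
  set e := k / 6 + 2 with he
  set r := k - 12 with hr
  set q := k - 5 with hq
  set D := 2 * k with hD
  set s0 := (k + 6).factorial with hs0
  set N0 := N1 + N2 + 2 with hN0
  obtain ⟨C, hC⟩ := prog_cost (r := r) (k := k) (D := D) s0 N0 e q (by omega) (by omega)
  refine ⟨prog s0 N0 e q, C * (3 ^ r + 2), prog_WF s0 N0 e q, fun G => ⟨?_, ?_, ?_⟩⟩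
  · obtain ⟨c1, c2⟩ := hC G.n G.encode G.E (good G) (length_encode G)
    rcases Nat.lt_or_ge N0 G.n with h | h
    · refine le_trans (c2 h (by omega)) ?_
      rw [mul_assoc]
      apply Nat.mul_le_mul_left
      have g1 := Qn_cost k hk G.n (by omega)
      have g2 : (G.n + 1) ^ (r + 4) * (Qn e G.n + 1) ^ r ≤ 3 ^ r * (G.n + 1) ^ (k - 2) := by
        calc (G.n + 1) ^ (r + 4) * (Qn e G.n + 1) ^ r
            ≤ (G.n + 1) ^ (r + 4) * (3 ^ r * (G.n + 1) ^ 6) := by
              apply Nat.mul_le_mul_left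
              refine le_trans g1 (Nat.mul_le_mul_left _ (Nat.pow_le_pow_left (by omega) _))
          _ = 3 ^ r * ((G.n + 1) ^ (r + 4) * (G.n + 1) ^ 6) := by ring
          _ = 3 ^ r * (G.n + 1) ^ (k - 2) := by
              rw [← pow_add (G.n + 1) (r + 4) 6]
              congr 2
              omega
      have g3 : (G.n + 1) ^ 3 * G.n ^ q ≤ (G.n + 1) ^ (k - 2) := by
        calc (G.n + 1) ^ 3 * G.n ^ q ≤ (G.n + 1) ^ 3 * (G.n + 1) ^ q := by
              apply Nat.mul_le_mul_left
              exact Nat.pow_le_pow_left (by omega) _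
          _ = (G.n + 1) ^ (k - 2) := by
              rw [← pow_add (G.n + 1) 3 q]
              congr 1
              omega
      have g4 : (3 ^ r + 2) * (G.n + 1) ^ (k - 2) = 3 ^ r * (G.n + 1) ^ (k - 2)
          + 2 * (G.n + 1) ^ (k - 2) := by ring
      omega
    · refine le_trans (c1 h) ?_
      rw [mul_assoc]
      apply Nat.le_mul_of_pos_right
      positivity
  · intro hno
    rcases Nat.lt_or_ge N0 G.n with h | h
    · rcases prog_large (r := r) (k := k) (D := D) (good G) s0 N0 e q h (by omega) (by omega)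
        (by omega) with ⟨_, hl2⟩ | ⟨mv, _, hmv⟩
      · obtain ⟨mv, m1, m2, m3⟩ := hN1 G.n (by omega) G.E (no_TS G (by omega) hno)
        exact absurd m3 (hl2 mv m1 m2)
      · by_contra hcon
        have hcon' : ((prog s0 N0 e q : Cmd (Vr r k D) Fl).exec G.n G.encode St.init).b .acc
          = true := by simpa using hcon
        obtain ⟨xl, _, _, _, l, l1, l2, l3⟩ := hmv.1 hcon'
        exact no_Lf G (by omega) hno l l1 (fun a ha => (l2 a ha).1) l3
    · by_contra hcon
      have hcon' : ((prog s0 N0 e q : Cmd (Vr r k D) Fl).exec G.n G.encode St.init).b .acc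
        = true := by simpa using hcon
      obtain ⟨l, l1, l2, l3⟩ := (prog_small (r := r) (k := k) (D := D) (good G) s0 N0 e q h).1
        hcon'
      exact no_Lf G (by omega) hno l l1 l2 l3
  · intro hyes hno
    rcases Nat.lt_or_ge N0 G.n with h | h
    · rcases prog_large (r := r) (k := k) (D := D) (good G) s0 N0 e q h (by omega) (by omega)
        (by omega) with ⟨ht, _⟩ | ⟨mv, hgood, hmv⟩
      · exact ht
      · rw [hmv]
        obtain ⟨S, hS1, hS2⟩ := hyes
        obtain ⟨y1, y2⟩ := hN2 G.n (by omega) mv hgood.len (fun a ha => (hgood.rng a ha).2)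
        obtain ⟨xl, x1, x2, x3⟩ := yes_Hit G S s0 mv (fun a ha => (hgood.rng a ha).1)
          (by omega) (by omega) hS1
        exact ⟨xl, by rw [x1, hgood.len], x2, x3⟩
    · rw [prog_small (r := r) (k := k) (D := D) (good G) s0 N0 e q h]
      unfold Inst.IsNo at hno
      push Not at hno
      obtain ⟨S, hS1, hS2⟩ := hno
      exact ⟨srt G S, by rw [srt_length, hS1], srt_lt G S, srt_Lf G S s0 hS2⟩

end Pool.Agent.Lib.MP_64f491_lc
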