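import Pool.Agent.Lib.MP_64f491_lc.Prog

/-! # Specification and total cost -/

namespace Pool.Agent.Lib.MP_64f491_lc

set_option linter.unusedSectionVars false
set_option linter.unusedSimpArgs false
set_option linter.unnecessarySeqFocus false
set_option linter.constructorNameAsVariable false

open Function

variable {r k D : ℕ} {N : ℕ} {w : List Sym}

theorem prog_exec (s0 N0 e q : ℕ) :
    (prog s0 N0 e q : Cmd (Vr r k D) Fl).exec N w St.init =
      (Cmd.ite (fun b => b .g) (search [] csV) (mainC e q)).exec N w (preSt N w s0 N0) := rfl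

theorem prog_small {E : ℕ → ℕ → Bool} (hG : Good N w E) (s0 N0 e q : ℕ) (hN : N ≤ N0) :
    ((prog s0 N0 e q : Cmd (Vr r k D) Fl).exec N w St.init).b .acc = true ↔
      ∃ l : List ℕ, l.length = k ∧ (∀ a ∈ l, a < N) ∧ Lf N E (min s0 N) l := by
  obtain ⟨p1, p2, p3, p4, p5⟩ := preSt_spec (r := r) (k := k) (D := D) (N := N) (w := w) s0 N0
  rw [prog_exec]
  have hg : (preSt N w s0 N0 : St (Vr r k D) Fl).b .g = true := by rw [p3]; simpa using hN
  simp only [Cmd.exec, hg, if_true]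
  rw [search_spec hG ([] : List (Vr r k D)) (by simp) [] (by simp) (min s0 N) csV [] rfl _ p1 rfl
    p2, p4]
  simp [Mem, csV_length]

theorem prog_large {E : ℕ → ℕ → Bool} (hG : Good N w E) (s0 N0 e q : ℕ) (hN : N0 < N)
    (h2 : 2 ≤ N) (he : e < D) (hD : r + 1 + k < D) :
    (((prog s0 N0 e q : Cmd (Vr r k D) Fl).exec N w St.init).b .acc = true ∧
      ∀ l : List ℕ, l.length = r → (∀ a ∈ l, 1 ≤ a ∧ a < Qn e N) →
        ¬ Pw k N r E l < N ^ q) ∨
    ∃ mv, GoodM k N r q (Qn e N) E mv ∧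
      (((prog s0 N0 e q : Cmd (Vr r k D) Fl).exec N w St.init).b .acc = true ↔
        ∃ xl : List ℕ, xl.length = r + 1 ∧ Lt N xl ∧ Hit N k (min s0 N) E mv xl) := by
  obtain ⟨p1, p2, p3, p4, p5⟩ := preSt_spec (r := r) (k := k) (D := D) (N := N) (w := w) s0 N0
  rw [prog_exec]
  have hg : ¬ (preSt N w s0 N0 : St (Vr r k D) Fl).b .g = true := by rw [p3]; simpa using hN
  set s1 := (preSt N w s0 N0 : St (Vr r k D) Fl) with hs1
  have hQN : Qn e N ≤ N := by
    have := Finset.card_filter_le (Finset.range N) fun y => y ^ e < N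
    rwa [Finset.card_range] at this
  set s2 := (qcC e).exec N w s1 with hs2
  have hok2 : s2.ok N w := Cmd.exec_ok _ _ p1
  have hq2 : s2.v .qc = Qn e N := qcC_spec e he h2 s1 p1
  have hd2 : s2.b .done = false := by
    rw [hs2, Cmd.exec_b _ _ (qcC_wb e (by simp) (by simp) (by simp) (by simp)), p5]
  have ha2 : s2.b .acc = false := by
    rw [hs2, Cmd.exec_b _ _ (qcC_wb e (by simp) (by simp) (by simp) (by simp)), p4]
  have hsv2 : s2.v .sv = min s0 N := by
    rw [hs2, Cmd.exec_v _ _ (qcC_wv e (by simp) (by simp)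
      (by intro h; obtain ⟨j, hj⟩ := mem_Zs.1 h; cases hj)
      (by intro h; obtain ⟨j, hj⟩ := mem_Ws.1 h; cases hj) (by simp) (by simp)), p2]
  obtain ⟨l1, l2⟩ := loopsM_spec (r := r) (k := k) (D := D) hG h2 hD q (Qn e N) hQN msV [] rfl
    s2 hok2 hq2 (by simp) (by rw [hd2]; simp)
  set s3 := (loopsM q (msV : List (Vr r k D))).exec N w s2 with hs3
  have hok3 : s3.ok N w := Cmd.exec_ok _ _ hok2
  have ha3 : s3.b .acc = false := by
    rw [hs3, Cmd.exec_b _ _ (loopsM_wb q _ (by simp) (by simp) (by simp) (by simp) (by simp)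
      (by simp) (by simp)), ha2]
  have hsv3 : s3.v .sv = min s0 N := by
    rw [hs3, Cmd.exec_v _ _ (loopsM_wv q _ far_sv
      (by intro h; obtain ⟨j, hj⟩ := mem_xsV.1 h; cases hj)
      (by intro h; obtain ⟨j, hj⟩ := mem_ms'V.1 h; cases hj)
      (by intro h; obtain ⟨j, hj⟩ := mem_msV.1 h; cases hj)), hsv2]
  have hex : (Cmd.ite (fun b => b .g) (search [] csV) (mainC e q)).exec N w s1 =
      (Cmd.ite (fun b => b .done) (loopsX p2body xsV)
        (.op (.set .acc fun _ => true)) : Cmd (Vr r k D) Fl).exec N w s3 := by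
    rw [hs3, hs2]
    simp only [mainC, Cmd.exec, hg, Bool.false_eq_true, if_false, exec_blk_cons, exec_blk_nil]
  rw [hex]
  by_cases hd : s3.b .done = true
  · right
    have hgood := l1 hd
    refine ⟨_, hgood, ?_⟩
    simp only [Cmd.exec, hd, if_true]
    exact p2_spec hG _ (fun a ha => (hgood.rng a ha).1) (min s0 N) s3 hok3 rfl hsv3 ha3
  · left
    have hd' : s3.b .done = false := by simpa using hd
    obtain ⟨_, l3⟩ := l2 hd'
    refine ⟨?_, ?_⟩
    · simp only [Cmd.exec, hd', Bool.false_eq_true, if_false, Op.exec, update_self]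
    · intro l hl hlr
      have := l3 l (by rw [hl, msV_length]) hlr
      simpa using this

theorem prog_cost (s0 N0 e q : ℕ) (he : e < D) (hD : r + 1 + k < D) :
    ∃ C, ∀ (N : ℕ) (w : List Sym) (E : ℕ → ℕ → Bool),
    Good N w E → w.length ≤ (N + 1) ^ 2 →
    (N ≤ N0 → (prog s0 N0 e q : Cmd (Vr r k D) Fl).cost N w St.init ≤ C) ∧
    (N0 < N → 2 ≤ N → (prog s0 N0 e q : Cmd (Vr r k D) Fl).cost N w St.init ≤
      C * ((N + 1) ^ (r + 4) * (Qn e N + 1) ^ r + (N + 1) ^ 3 * N ^ q)) := by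
  obtain ⟨C1, hC1⟩ := Cmd.cost_le_of_deg (rep s0 (.op (.inc .sv)) : Cmd (Vr r k D) Fl)
    (d := 0) (by
      have := rep_deg s0 (.op (.inc .sv) : Cmd (Vr r k D) Fl)
      simpa [Cmd.deg, Op.deg] using this)
  obtain ⟨C2, hC2⟩ := Cmd.cost_le_of_deg (rep N0 (.op (.inc .nz)) : Cmd (Vr r k D) Fl)
    (d := 0) (by
      have := rep_deg N0 (.op (.inc .nz) : Cmd (Vr r k D) Fl)
      simpa [Cmd.deg, Op.deg] using this)
  obtain ⟨C3, hC3⟩ := Cmd.cost_le_of_deg (search [] csV : Cmd (Vr r k D) Fl)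
    (d := k + 3) (by
      have := search_deg ([] : List (Vr r k D)) csV
      rwa [csV_length] at this)
  obtain ⟨C4, hC4⟩ := Cmd.cost_le_of_deg (qcC e : Cmd (Vr r k D) Fl) (qcC_deg e)
  obtain ⟨C5, hC5⟩ := loopsM_cost (r := r) (k := k) (D := D) q msV [] rfl
  obtain ⟨C6, hC6⟩ := p2_cost (r := r) (k := k) (D := D)
  refine ⟨C1 + C2 + C3 * (N0 + 1) ^ (k + 3) + C4 + C5 + C6 + 10, fun N w E hG hw => ?_⟩
  obtain ⟨p1, p2, p3, p4, p5⟩ := preSt_spec (r := r) (k := k) (D := D) (N := N) (w := w) s0 N0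
  have hc0 : (prog s0 N0 e q : Cmd (Vr r k D) Fl).cost N w St.init =
      (rep s0 (.op (.inc .sv))).cost N w (St.init : St (Vr r k D) Fl) +
      ((rep N0 (.op (.inc .nz))).cost N w ((rep s0 (.op (.inc .sv))).exec N w
        (St.init : St (Vr r k D) Fl)) +
      (1 + ((1 + if (preSt N w s0 N0 : St (Vr r k D) Fl).b .g = true then
        (search [] csV).cost N w (preSt N w s0 N0 : St (Vr r k D) Fl) else
        (mainC e q).cost N w (preSt N w s0 N0)) + 1))) := rfl
  have h1 := hC1 N w (St.init : St (Vr r k D) Fl) hw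
  have h2 := hC2 N w ((rep s0 (.op (.inc .sv))).exec N w (St.init : St (Vr r k D) Fl)) hw
  rw [pow_zero, mul_one] at h1 h2
  constructor
  · intro hN
    rw [hc0, if_pos (by rw [p3]; simpa using hN)]
    have h3 := hC3 N w (preSt N w s0 N0) hw
    have h3' : C3 * (N + 1) ^ (k + 3) ≤ C3 * (N0 + 1) ^ (k + 3) := by gcongr
    omega
  · intro hN hN2
    rw [hc0, if_neg (by rw [p3]; simpa using hN)]
    set s1 := (preSt N w s0 N0 : St (Vr r k D) Fl) with hs1
    have hQN : Qn e N ≤ N := by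
      have := Finset.card_filter_le (Finset.range N) fun y => y ^ e < N
      rwa [Finset.card_range] at this
    set s2 := (qcC e).exec N w s1 with hs2
    have hok2 : s2.ok N w := Cmd.exec_ok _ _ p1
    have hq2 : s2.v .qc = Qn e N := qcC_spec e he hN2 s1 p1
    have hd2 : s2.b .done = false := by
      rw [hs2, Cmd.exec_b _ _ (qcC_wb e (by simp) (by simp) (by simp) (by simp)), p5]
    obtain ⟨l1, l2⟩ := loopsM_spec (r := r) (k := k) (D := D) hG hN2 hD q (Qn e N) hQN msV []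
      rfl s2 hok2 hq2 (by simp) (by rw [hd2]; simp)
    set s3 := (loopsM q (msV : List (Vr r k D))).exec N w s2 with hs3
    have hok3 : s3.ok N w := Cmd.exec_ok _ _ hok2
    have hc1 : (mainC e q).cost N w s1 = (qcC e).cost N w s1 +
        ((loopsM q msV).cost N w s2 + ((1 + if s3.b .done = true then
          (loopsX p2body xsV).cost N w s3 else 1) + 1)) := rfl
    have h4 := hC4 N w s1 hw
    have h5 := hC5 N w hw (Qn e N) hQN s2 hok2 hq2
    rw [msV_length] at h5
    set M := (N + 1) ^ (r + 4) with hM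
    set U := (Qn e N + 1) ^ r with hU
    have hM1 : 1 ≤ M := Nat.one_le_pow _ _ (by omega)
    have hU1 : 1 ≤ U := Nat.one_le_pow _ _ (by omega)
    have hMU : M ≤ M * U := Nat.le_mul_of_pos_right _ (by omega)
    have hM4 : (N + 1) ^ 4 ≤ M := Nat.pow_le_pow_right (by omega) (by omega)
    have h4' : C4 * (N + 1) ^ 4 ≤ C4 * (M * U) := Nat.mul_le_mul_left _ (hM4.trans hMU)
    have h6 : (if s3.b .done = true then (loopsX p2body xsV).cost N w s3 else 1)
        ≤ C6 * (M * U) + C6 * ((N + 1) ^ 3 * N ^ q) + M * U := by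
      by_cases hd : s3.b .done = true
      · rw [if_pos hd]
        have hgood := l1 hd
        have := hC6 N w E hG hw _ (fun a ha => (hgood.rng a ha).1) s3 hok3 rfl
        have g1 : C6 * (N + 1) ^ (r + 4) ≤ C6 * (M * U) := Nat.mul_le_mul_left _ hMU
        have g2 : C6 * (N + 1) ^ 3 * Pw k N r E (ms'V.map s3.v)
            ≤ C6 * ((N + 1) ^ 3 * N ^ q) := by
          rw [← mul_assoc]
          exact Nat.mul_le_mul_left _ hgood.small.le
        omega
      · rw [if_neg hd]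
        have : 1 ≤ M * U := hM1.trans hMU
        have : 0 ≤ C6 * (M * U) + C6 * ((N + 1) ^ 3 * N ^ q) := Nat.zero_le _
        omega
    rw [hc1]
    have h5' : (loopsM q msV).cost N w s2 ≤ C5 * (M * U) := by
      rw [← mul_assoc]; exact h5
    have h1MU : 1 ≤ M * U := hM1.trans hMU
    have hx1 : C1 ≤ C1 * (M * U) := Nat.le_mul_of_pos_right _ h1MU
    have hx2 : C2 ≤ C2 * (M * U) := Nat.le_mul_of_pos_right _ h1MU
    have hfin : (C1 + C2 + C3 * (N0 + 1) ^ (k + 3) + C4 + C5 + C6 + 10)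
        * (M * U + (N + 1) ^ 3 * N ^ q) = C1 * (M * U) + C2 * (M * U) + C4 * (M * U)
        + C5 * (M * U) + C6 * (M * U) + 10 * (M * U) + C6 * ((N + 1) ^ 3 * N ^ q)
        + (C3 * (N0 + 1) ^ (k + 3) * (M * U) + (C1 + C2 + C3 * (N0 + 1) ^ (k + 3) + C4 + C5 + 10)
          * ((N + 1) ^ 3 * N ^ q)) := by ring
    rw [hfin]
    have : 0 ≤ C3 * (N0 + 1) ^ (k + 3) * (M * U) + (C1 + C2 + C3 * (N0 + 1) ^ (k + 3) + C4 + C5
      + 10) * ((N + 1) ^ 3 * N ^ q) := Nat.zero_le _
    omega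

end Pool.Agent.Lib.MP_64f491_lc
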